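import Pool.Agent.Lib.PolyTime.Basic

/-!
# Polynomial-time list operations
-/

namespace Pool.Agent.PolyTime

section
variable {α β γ σ : Type} [Enc α] [Enc β] [Enc γ] [Enc σ]

/-- Two-argument version. -/
abbrev PTime₂ (f : α → β → γ) : Prop := PTime (fun p : α × β => f p.1 p.2)

theorem PTime.comp₂ {f : β → γ → σ} {g : α → β} {h : α → γ} (hf : PTime₂ f) (hg : PTime g)
    (hh : PTime h) : PTime (fun a => f (g a) (h a)) :=
  hf.comp (hg.pair hh)

theorem length_le_size (l : List β) : l.length + 1 ≤ size (enc l) := by
  induction l with
  | nil => simp [enc_nil]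
  | cons x l ih => simp [enc_cons]; omega

theorem size_pair (a : α) (b : β) : size (enc (a, b)) = size (enc a) + size (enc b) + 1 := by
  simp [enc_pair]

theorem size_lcons (a : α) (l : List α) :
    size (enc (a :: l)) = size (enc a) + size (enc l) + 1 := by
  simp [enc_cons]

theorem size_append (l l' : List α) : size (enc (l ++ l')) + 1 = size (enc l) + size (enc l') := by
  induction l with
  | nil => simp [enc_nil]; omega
  | cons x l ih => rw [List.cons_append, size_lcons, size_lcons]; omega

theorem size_le_of_mem {l : List α} {x : α} (h : x ∈ l) : size (enc x) + 1 ≤ size (enc l) := by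
  induction l with
  | nil => simp at h
  | cons y l ih =>
    rw [size_lcons]
    rcases List.mem_cons.1 h with rfl | h
    · have := size_pos (enc l); omega
    · have := ih h; omega

theorem size_list_le (l : List α) (B : ℕ) (h : ∀ x ∈ l, size (enc x) ≤ B) :
    size (enc l) ≤ l.length * (B + 1) + 1 := by
  induction l with
  | nil => simp [enc_nil]
  | cons x l ih =>
    rw [size_lcons, List.length_cons, Nat.add_one_mul]
    have := ih fun y hy => h y (List.mem_cons_of_mem _ hy)
    have := h x List.mem_cons_self
    omega

theorem size_sublist {l l' : List α} (h : l.Sublist l') : size (enc l) ≤ size (enc l') := by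
  induction h with
  | slnil => exact le_refl _
  | cons a _ ih => rw [size_lcons]; omega
  | cons_cons a _ ih => rw [size_lcons, size_lcons]; omega

/-- Left fold, provided all intermediate accumulators have polynomially bounded size. -/
theorem PTime.foldl {f : α → List β} {g : α → σ} {h : α → σ → β → σ}
    (hf : PTime f) (hg : PTime g) (hh : PTime (fun p : α × (σ × β) => h p.1 p.2.1 p.2.2))
    {B : ℕ → ℕ} (hB : PBd B)
    (hb : ∀ a, ∀ l₁ l₂ : List β, f a = l₁ ++ l₂ →
      size (enc (l₁.foldl (h a) (g a))) ≤ B (size (enc a))) :
    PTime (fun a => (f a).foldl (h a) (g a)) := by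
  obtain ⟨F, hF, hFm, hFs⟩ := hf.size_le
  -- state: (a, (list, acc))
  let step : α × (List β × σ) → α × (List β × σ) := fun p =>
    match p.2.1 with
    | [] => p
    | x :: l => (p.1, (l, h p.1 p.2.2 x))
  let cond : α × (List β × σ) → Bool := fun p =>
    match p.2.1 with
    | [] => false
    | _ :: _ => true
  have h21 : PTime (fun p : α × (List β × σ) => p.2.1) := PTime.fst.comp PTime.snd
  have hstep : PTime step := by
    have e1 : PTime (fun p : (α × (List β × σ)) × (β × List β) => p.1.1) :=
      PTime.fst.comp PTime.fst
    have e2 : PTime (fun p : (α × (List β × σ)) × (β × List β) => p.2.2) :=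
      PTime.snd.comp PTime.snd
    have e3 : PTime (fun p : (α × (List β × σ)) × (β × List β) => p.1.2.2) :=
      PTime.snd.comp (PTime.snd.comp PTime.fst)
    have e4 : PTime (fun p : (α × (List β × σ)) × (β × List β) => p.2.1) :=
      PTime.fst.comp PTime.snd
    exact PTime.list_cases h21 PTime.id (e1.pair (e2.pair (hh.comp (e1.pair (e3.pair e4)))))
  have hcond : PTime cond := PTime.list_cases h21 (PTime.const false) (PTime.const true)
  -- iterates
  have hiter : ∀ (a : α) (l₁ l₂ : List β) (s : σ),
      step^[l₁.length] (a, (l₁ ++ l₂, s)) = (a, (l₂, l₁.foldl (h a) s)) := by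
    intro a l₁ l₂
    induction l₁ with
    | nil => intro s; rfl
    | cons x l₁ ih =>
      intro s
      rw [List.length_cons, Function.iterate_succ_apply]
      exact ih (h a s x)
  have hw := PTime.while (init := fun a => (a, (f a, g a))) (cond := cond) (step := step)
    (PTime.id.pair (hf.pair hg)) hcond hstep (fun a => (f a).length)
    (N := F) (B := fun n => n + (F n + B n + 1) + 1) ?_ ?_ hF
    ((PBd.id.add ((hF.add hB).add (PBd.const 1))).add (PBd.const 1)) ?_ ?_
  · refine ((PTime.snd.comp (PTime.snd.comp hw))).of_eq fun a => ?_
    have := hiter a (f a) [] (g a)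
    rw [List.append_nil] at this
    simp only [this]
  · intro a i hi
    have hsplit : f a = (f a).take i ++ (f a).drop i := (List.take_append_drop i (f a)).symm
    have hlen : ((f a).take i).length = i := by simp; omega
    have := hiter a ((f a).take i) ((f a).drop i) (g a)
    rw [hlen, List.take_append_drop] at this
    simp only [this]
    cases hd : (f a).drop i with
    | nil =>
      have := List.length_drop (i := i) (l := f a)
      rw [hd] at this
      simp at this
      omega
    | cons x l => simp [cond]
  · intro a
    have := hiter a (f a) [] (g a)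
    rw [List.append_nil] at this
    simp only [this]
    simp [cond]
  · intro a
    have := length_le_size (f a)
    have := hFs a
    omega
  · intro a i hi
    have hlen : ((f a).take i).length = i := by simp; omega
    have hit := hiter a ((f a).take i) ((f a).drop i) (g a)
    rw [hlen, List.take_append_drop] at hit
    simp only [hit]
    rw [size_pair, size_pair]
    have h1 := hb a ((f a).take i) ((f a).drop i) (List.take_append_drop i (f a)).symm
    have h2 := size_sublist (List.drop_sublist i (f a))
    have h3 := hFs a
    omega

theorem PTime.reverse {f : α → List β} (hf : PTime f) : PTime (fun a => (f a).reverse) := by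
  obtain ⟨F, hF, hFm, hFs⟩ := hf.size_le
  have h1 : PTime (fun p : α × (List β × β) => p.2.2) := PTime.snd.comp PTime.snd
  have h2 : PTime (fun p : α × (List β × β) => p.2.1) := PTime.fst.comp PTime.snd
  have hs : ∀ l : List β, size (enc l.reverse) = size (enc l) := by
    intro l
    induction l with
    | nil => rfl
    | cons x l ih =>
      have := size_append l.reverse [x]
      rw [List.reverse_cons]
      rw [size_lcons x []] at this
      rw [size_lcons]
      simp only [enc_nil, size_nil] at this
      omega
  have hfold : ∀ (l acc : List β), l.foldl (fun acc x => x :: acc) acc = l.reverse ++ acc := by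
    intro l
    induction l with
    | nil => intro acc; rfl
    | cons x l ih => intro acc; simp [ih]
  refine (PTime.foldl (h := fun (_ : α) (acc : List β) (x : β) => x :: acc)
    hf (PTime.const ([] : List β)) (h1.cons h2) hF ?_).of_eq fun a => ?_
  · intro a l₁ l₂ h
    rw [hfold, List.append_nil, hs]
    have : size (enc l₁) ≤ size (enc (f a)) := size_sublist (by rw [h]; simp)
    exact this.trans (hFs a)
  · rw [hfold, List.append_nil]

theorem PTime.flatMap {f : α → List β} {g : α → β → List γ} (hf : PTime f) (hg : PTime₂ g) :
    PTime (fun a => (f a).flatMap (g a)) := by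
  obtain ⟨F, hF, hFm, hFs⟩ := hf.size_le
  obtain ⟨G, hG, hGm, hGs⟩ := hg.size_le
  -- reversed append by folding: first on a single list
  have happ : PTime (fun p : List γ × List γ => p.1.foldl (fun acc x => x :: acc) p.2) := by
    have h1 : PTime (fun p : (List γ × List γ) × (List γ × γ) => p.2.2) :=
      PTime.snd.comp PTime.snd
    have h2 : PTime (fun p : (List γ × List γ) × (List γ × γ) => p.2.1) :=
      PTime.fst.comp PTime.snd
    have hfold : ∀ (l acc : List γ), l.foldl (fun acc x => x :: acc) acc = l.reverse ++ acc := by
      intro l
      induction l with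
      | nil => intro acc; rfl
      | cons x l ih => intro acc; simp [ih]
    have hsz : ∀ (l acc : List γ), size (enc (l.foldl (fun acc x => x :: acc) acc)) + 1 =
        size (enc l) + size (enc acc) := by
      intro l
      induction l with
      | nil => intro acc; simp [enc_nil]; omega
      | cons x l ih =>
        intro acc
        have := ih (x :: acc)
        rw [List.foldl_cons, size_lcons]
        rw [size_lcons] at this
        omega
    refine PTime.foldl (h := fun (_ : List γ × List γ) (acc : List γ) (x : γ) => x :: acc)
      PTime.fst PTime.snd (h1.cons h2) (B := fun n => n) PBd.id ?_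
    intro a l₁ l₂ h
    have e1 := hsz l₁ a.2
    have e2 : size (enc l₁) ≤ size (enc a.1) := size_sublist (by rw [h]; simp)
    have e3 : size (enc a) = size (enc a.1) + size (enc a.2) + 1 := size_pair a.1 a.2
    omega
  have hfold : ∀ (l acc : List γ), l.foldl (fun acc x => x :: acc) acc = l.reverse ++ acc := by
    intro l
    induction l with
    | nil => intro acc; rfl
    | cons x l ih => intro acc; simp [ih]
  have h1 : PTime (fun p : α × (List γ × β) => p.1) := PTime.fst
  have h2 : PTime (fun p : α × (List γ × β) => p.2.1) := PTime.fst.comp PTime.snd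
  have h3 : PTime (fun p : α × (List γ × β) => p.2.2) := PTime.snd.comp PTime.snd
  have hstep : PTime (fun p : α × (List γ × β) =>
      (g p.1 p.2.2).foldl (fun acc x => x :: acc) p.2.1) :=
    happ.comp ((hg.comp (h1.pair h3)).pair h2)
  have hrev : PTime (fun a => (f a).foldl
      (fun acc b => (g a b).foldl (fun acc x => x :: acc) acc) []) := by
    refine PTime.foldl (h := fun a acc b => (g a b).foldl (fun acc x => x :: acc) acc)
      hf (PTime.const []) hstep (B := fun n => F n * (G (n + F n + 1)) + 1)
      ((hF.mul (hG.comp ((PBd.id.add hF).add (PBd.const 1)))).add (PBd.const 1)) ?_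
    intro a l₁ l₂ h
    have key : ∀ (l acc : List _), (∀ b ∈ l, b ∈ f a) →
        size (enc (l.foldl (fun acc b => (g a b).foldl (fun acc x => x :: acc) acc) acc)) ≤
        l.length * (G (size (enc a) + F (size (enc a)) + 1)) + size (enc acc) := by
      intro l
      induction l with
      | nil => intro acc _; simp
      | cons b l ih =>
        intro acc hl
        rw [List.foldl_cons, List.length_cons, Nat.add_one_mul]
        refine (ih _ fun b hb => hl b (List.mem_cons_of_mem _ hb)).trans ?_
        rw [hfold]
        have e1 := size_append (g a b).reverse acc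
        have e2 : size (enc (g a b).reverse) = size (enc (g a b)) := by
          generalize g a b = l
          induction l with
          | nil => rfl
          | cons x l ih =>
            have := size_append l.reverse [x]
            rw [List.reverse_cons]
            rw [size_lcons x []] at this
            rw [size_lcons]
            simp only [enc_nil, size_nil] at this
            omega
        have e3 := hGs (a, b)
        have e4 : G (size (enc (a, b))) ≤ G (size (enc a) + F (size (enc a)) + 1) := by
          apply hGm
          rw [size_pair]
          have := size_le_of_mem (hl b List.mem_cons_self)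
          have := hFs a
          omega
        simp only at e3
        omega
    have k := key l₁ [] (fun b hb => by rw [h]; simp [hb])
    have hlen : l₁.length ≤ F (size (enc a)) := by
      have := length_le_size (f a)
      have := hFs a
      rw [h] at this
      have h4 : l₁.length ≤ (l₁ ++ l₂).length := by simp
      have := length_le_size (l₁ ++ l₂)
      omega
    have := Nat.mul_le_mul_right (G (size (enc a) + F (size (enc a)) + 1)) hlen
    simp only [enc_nil, size_nil] at k
    omega
  refine hrev.reverse.of_eq fun a => ?_
  have key : ∀ (l : List β) (acc : List γ),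
      (l.foldl (fun acc b => (g a b).foldl (fun acc x => x :: acc) acc) acc).reverse =
      acc.reverse ++ l.flatMap (g a) := by
    intro l
    induction l with
    | nil => intro acc; simp
    | cons b l ih =>
      intro acc
      rw [List.foldl_cons, ih, hfold]
      simp
  simpa using key (f a) []

theorem PTime.map {f : α → List β} {g : α → β → γ} (hf : PTime f) (hg : PTime₂ g) :
    PTime (fun a => (f a).map (g a)) := by
  have : PTime₂ (fun (a : α) (b : β) => [g a b]) := hg.cons (PTime.const [])
  refine (hf.flatMap this).of_eq fun a => ?_
  induction f a with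
  | nil => rfl
  | cons x l ih => simp [ih]

theorem PTime.filter {f : α → List β} {g : α → β → Bool} (hf : PTime f) (hg : PTime₂ g) :
    PTime (fun a => (f a).filter (g a)) := by
  have : PTime₂ (fun (a : α) (b : β) => if g a b = true then [b] else []) :=
    PTime.ite hg (PTime.snd.cons (PTime.const [])) (PTime.const [])
  refine (hf.flatMap this).of_eq fun a => ?_
  induction f a with
  | nil => rfl
  | cons x l ih =>
    rw [List.flatMap_cons, ih, List.filter_cons]
    split <;> simp

theorem PTime.append {f g : α → List β} (hf : PTime f) (hg : PTime g) :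
    PTime (fun a => f a ++ g a) := by
  have h : PTime (fun a => [f a, g a].flatMap (fun l => l)) :=
    PTime.flatMap (g := fun _ l => l) (hf.cons (hg.cons (PTime.const []))) PTime.snd
  exact h.of_eq fun a => by simp

theorem PTime.not {f : α → Bool} (hf : PTime f) : PTime (fun a => !(f a)) :=
  (PTime.ite hf (PTime.const false) (PTime.const true)).of_eq fun a => by
    cases f a <;> rfl

theorem PTime.and {f g : α → Bool} (hf : PTime f) (hg : PTime g) :
    PTime (fun a => f a && g a) :=
  (PTime.ite hf hg (PTime.const false)).of_eq fun a => by
    cases f a <;> simp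

theorem PTime.or {f g : α → Bool} (hf : PTime f) (hg : PTime g) :
    PTime (fun a => f a || g a) :=
  (PTime.ite hf (PTime.const true) hg).of_eq fun a => by
    cases f a <;> simp

theorem PTime.isEmpty {f : α → List β} (hf : PTime f) : PTime (fun a => (f a).isEmpty) :=
  (PTime.list_cases hf (PTime.const true) (PTime.const false)).of_eq fun a => by
    cases f a <;> rfl

theorem PTime.any {f : α → List β} {g : α → β → Bool} (hf : PTime f) (hg : PTime₂ g) :
    PTime (fun a => (f a).any (g a)) := by
  refine (hf.filter hg).isEmpty.not.of_eq fun a => ?_
  induction f a with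
  | nil => rfl
  | cons x l ih =>
    rw [List.filter_cons, List.any_cons, ← ih]
    cases g a x <;> simp

theorem PTime.all {f : α → List β} {g : α → β → Bool} (hf : PTime f) (hg : PTime₂ g) :
    PTime (fun a => (f a).all (g a)) := by
  refine (PTime.any hf (g := fun a b => !(g a b)) hg.not).not.of_eq fun a => ?_
  induction f a with
  | nil => rfl
  | cons x l ih =>
    rw [List.any_cons, List.all_cons, ← ih]
    cases g a x <;> simp

/-- head of a list as an option -/
theorem PTime.head? {f : α → List β} (hf : PTime f) : PTime (fun a => (f a).head?) :=
  (PTime.list_cases hf (PTime.const none) (PTime.some (PTime.fst.comp PTime.snd))).of_eq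
    fun a => by cases f a <;> rfl

theorem PTime.tail {f : α → List β} (hf : PTime f) : PTime (fun a => (f a).tail) :=
  (PTime.list_cases hf (PTime.const []) (PTime.snd.comp PTime.snd)).of_eq
    fun a => by cases f a <;> rfl

theorem PTime.find? {f : α → List β} {g : α → β → Bool} (hf : PTime f) (hg : PTime₂ g) :
    PTime (fun a => (f a).find? (g a)) :=
  (hf.filter hg).head?.of_eq fun a => by rw [List.head?_filter]

theorem PTime.getD {f : α → Option β} {g : α → β} (hf : PTime f) (hg : PTime g) :
    PTime (fun a => (f a).getD (g a)) :=
  (PTime.option_cases hf hg PTime.snd).of_eq fun a => by cases f a <;> rfl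

theorem PTime.omap {f : α → Option β} {g : α → β → γ} (hf : PTime f) (hg : PTime₂ g) :
    PTime (fun a => (f a).map (g a)) :=
  (PTime.option_cases hf (PTime.const none) (PTime.some hg)).of_eq fun a => by
    cases f a <;> rfl

/-! ### Equality -/

/-- One step of the comparison of trees: a work list of pairs, and the result so far. -/
def eqStep (s : List (D × D) × Bool) : List (D × D) × Bool :=
  match s.1 with
  | [] => s
  | p :: l =>
    match p.1 with
    | D.nil => match p.2 with
      | D.nil => (l, s.2)
      | D.cons _ _ => ([], false)
    | D.cons a b => match p.2 with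
      | D.nil => ([], false)
      | D.cons a' b' => ((a, a') :: (b, b') :: l, s.2)

theorem eqStep_ptime : PTime eqStep := by
  have e1 : PTime (fun s : List (D × D) × Bool => s.1) := PTime.fst
  have p1 : PTime (fun q : (List (D × D) × Bool) × ((D × D) × List (D × D)) => q.2.1.1) :=
    PTime.fst.comp (PTime.fst.comp PTime.snd)
  have p2 : PTime (fun q : (List (D × D) × Bool) × ((D × D) × List (D × D)) => q.2.1.2) :=
    PTime.snd.comp (PTime.fst.comp PTime.snd)
  have pl : PTime (fun q : (List (D × D) × Bool) × ((D × D) × List (D × D)) => q.2.2) :=
    PTime.snd.comp PTime.snd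
  have pr : PTime (fun q : (List (D × D) × Bool) × ((D × D) × List (D × D)) => q.1.2) :=
    PTime.snd.comp PTime.fst
  have hstep : PTime (fun q : (List (D × D) × Bool) × ((D × D) × List (D × D)) =>
      match q.2.1.1 with
      | D.nil => (match q.2.1.2 with
        | D.nil => (q.2.2, q.1.2)
        | D.cons _ _ => (([] : List (D × D)), false))
      | D.cons a b => (match q.2.1.2 with
        | D.nil => (([] : List (D × D)), false)
        | D.cons a' b' => ((a, a') :: (b, b') :: q.2.2, q.1.2))) := by
    refine PTime.D_cases (g := fun q => match q.2.1.2 with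
        | D.nil => (q.2.2, q.1.2)
        | D.cons _ _ => ([], false)) (h := fun r => match r.1.2.1.2 with
        | D.nil => ([], false)
        | D.cons a' b' => ((r.2.1, a') :: (r.2.2, b') :: r.1.2.2, r.1.1.2)) p1 ?_ ?_
    · exact PTime.D_cases p2 (pl.pair pr) (PTime.const _)
    · refine PTime.D_cases (h := fun t : (((List (D × D) × Bool) ×
        ((D × D) × List (D × D))) × (D × D)) × (D × D) =>
        ((t.1.2.1, t.2.1) :: (t.1.2.2, t.2.2) :: t.1.1.2.2,
        t.1.1.1.2)) (p2.comp PTime.fst) (PTime.const _) ?_
      have q1 : PTime (fun t : (((List (D × D) × Bool) × ((D × D) × List (D × D))) × (D × D)) ×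
          (D × D) => t.1.2.1) := PTime.fst.comp (PTime.snd.comp PTime.fst)
      have q2 : PTime (fun t : (((List (D × D) × Bool) × ((D × D) × List (D × D))) × (D × D)) ×
          (D × D) => t.1.2.2) := PTime.snd.comp (PTime.snd.comp PTime.fst)
      have q3 : PTime (fun t : (((List (D × D) × Bool) × ((D × D) × List (D × D))) × (D × D)) ×
          (D × D) => t.2.1) := PTime.fst.comp PTime.snd
      have q4 : PTime (fun t : (((List (D × D) × Bool) × ((D × D) × List (D × D))) × (D × D)) ×
          (D × D) => t.2.2) := PTime.snd.comp PTime.snd
      have q5 := pl.comp (PTime.fst.comp (PTime.fst (α := ((List (D × D) × Bool) ×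
        ((D × D) × List (D × D))) × (D × D)) (β := D × D)))
      have q6 := pr.comp (PTime.fst.comp (PTime.fst (α := ((List (D × D) × Bool) ×
        ((D × D) × List (D × D))) × (D × D)) (β := D × D)))
      exact ((q1.pair q3).cons ((q2.pair q4).cons q5)).pair q6
  refine (PTime.list_cases e1 PTime.id hstep).of_eq fun s => ?_
  obtain ⟨l, v⟩ := s
  cases l with
  | nil => rfl
  | cons p l =>
    obtain ⟨x, y⟩ := p
    cases x <;> cases y <;> rfl

theorem eqStep_size (s : List (D × D) × Bool) : size (enc (eqStep s)) ≤ size (enc s) := by
  obtain ⟨l, v⟩ := s
  have hv : size (enc false) ≤ size (enc v) := by cases v <;> simp [enc_false, enc_true]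
  cases l with
  | nil => exact le_refl _
  | cons p l =>
    obtain ⟨x, y⟩ := p
    cases x <;> cases y <;> simp only [eqStep, size_pair, size_lcons, enc_nil] <;>
      simp only [enc_D, size_nil, size_cons] <;> omega

/-- progress measure -/
def eqMeasure (l : List (D × D)) : ℕ := (l.map fun p => size p.1).sum

theorem eqStep_spec : ∀ (k : ℕ) (l : List (D × D)) (v : Bool), eqMeasure l ≤ k →
    ∃ n ≤ k, (∀ i < n, (eqStep^[i] (l, v)).1.isEmpty = false) ∧
      eqStep^[n] (l, v) = ([], v && l.all fun p => decide (p.1 = p.2)) := by
  intro k
  induction k with
  | zero =>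
    intro l v h
    cases l with
    | nil => exact ⟨0, le_refl _, fun i hi => absurd hi (Nat.not_lt_zero _), by simp⟩
    | cons p l =>
      have := size_pos p.1
      simp [eqMeasure] at h
      omega
  | succ k ih =>
    intro l v h
    cases l with
    | nil => exact ⟨0, Nat.zero_le _, fun i hi => absurd hi (Nat.not_lt_zero _), by simp⟩
    | cons p l =>
      have hstep : ∃ l' v', eqStep (p :: l, v) = (l', v') ∧ eqMeasure l' ≤ k ∧
          (v' && l'.all fun p => decide (p.1 = p.2)) =
            (v && (p :: l).all fun p => decide (p.1 = p.2)) := by
        obtain ⟨x, y⟩ := p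
        cases x with
        | nil =>
          cases y with
          | nil =>
            refine ⟨l, v, rfl, ?_, by simp⟩
            simp [eqMeasure] at h ⊢
            omega
          | cons a b => exact ⟨[], false, rfl, by simp [eqMeasure], by simp⟩
        | cons a b =>
          cases y with
          | nil => exact ⟨[], false, rfl, by simp [eqMeasure], by simp⟩
          | cons a' b' =>
            refine ⟨(a, a') :: (b, b') :: l, v, rfl, ?_, ?_⟩
            · simp [eqMeasure] at h ⊢
              omega
            · simp [Bool.and_assoc]
      obtain ⟨l', v', h1, h2, h3⟩ := hstep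
      obtain ⟨n, hn, h4, h5⟩ := ih l' v' h2
      refine ⟨n + 1, by omega, ?_, ?_⟩
      · intro i hi
        cases i with
        | zero => rfl
        | succ i =>
          rw [Function.iterate_succ_apply, h1]
          exact h4 i (by omega)
      · rw [Function.iterate_succ_apply, h1, h5, h3]

theorem eqMeasure_le (l : List (D × D)) : eqMeasure l ≤ size (enc l) := by
  induction l with
  | nil => simp [eqMeasure]
  | cons p l ih =>
    rw [size_lcons]
    have : size (enc p) = size p.1 + size p.2 + 1 := size_pair p.1 p.2
    simp [eqMeasure] at ih ⊢
    omega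

/-- Equality of trees is decidable in polynomial time. -/
theorem PTime.eqD : PTime₂ (fun x y : D => decide (x = y)) := by
  have hex := fun p : D × D => eqStep_spec (size p.1) [p] true (by simp [eqMeasure])
  choose n hn h1 h2 using hex
  have hinit : PTime (fun p : D × D => ([p], true)) :=
    (PTime.id.cons (PTime.const [])).pair (PTime.const true)
  have hcond : PTime (fun s : List (D × D) × Bool => !s.1.isEmpty) := PTime.fst.isEmpty.not
  have hw := PTime.while hinit hcond eqStep_ptime n
    (fun p i hi => by simp [h1 p i hi]) (fun p => by simp [h2 p])
    (N := fun n => n) (B := fun n => n + 6) PBd.id (PBd.id.add (PBd.const 6)) ?_ ?_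
  · refine (PTime.snd.comp hw).of_eq fun p => ?_
    rw [h2 p]
    simp
  · intro p
    have : size (enc p) = size p.1 + size p.2 + 1 := size_pair p.1 p.2
    have := hn p
    omega
  · intro p i _
    have key : ∀ i, size (enc (eqStep^[i] ([p], true))) ≤ size (enc ([p], true)) := by
      intro i
      induction i with
      | zero => exact le_refl _
      | succ i ih =>
        rw [Function.iterate_succ_apply']
        exact (eqStep_size _).trans ih
    refine (key i).trans ?_
    rw [size_pair, size_lcons, enc_nil, enc_true]
    simp

/-- Types whose encoding is injective. -/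
class EncInj (α : Type) [Enc α] : Prop where
  inj : Function.Injective (enc : α → D)

instance : EncInj D := ⟨fun _ _ h => h⟩
instance : EncInj Unit := ⟨fun _ _ _ => rfl⟩
instance : EncInj Bool := ⟨fun a b h => by
  cases a <;> cases b <;> simp [enc_true, enc_false] at h ⊢⟩
instance {α β : Type} [Enc α] [Enc β] [EncInj α] [EncInj β] : EncInj (α × β) :=
  ⟨fun a b h => by
    obtain ⟨a1, a2⟩ := a
    obtain ⟨b1, b2⟩ := b
    simp only [enc_pair, D.cons.injEq] at h
    rw [EncInj.inj h.1, EncInj.inj h.2]⟩
instance {α : Type} [Enc α] [EncInj α] : EncInj (Option α) :=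
  ⟨fun a b h => by
    cases a <;> cases b <;> simp [enc_none, enc_some] at h ⊢
    exact EncInj.inj h⟩
instance {α : Type} [Enc α] [EncInj α] : EncInj (List α) :=
  ⟨fun a b h => by
    induction a generalizing b with
    | nil => cases b with
      | nil => rfl
      | cons y l => simp [enc_nil, enc_cons] at h
    | cons x a ih => cases b with
      | nil => simp [enc_nil, enc_cons] at h
      | cons y l =>
        simp only [enc_cons, D.cons.injEq] at h
        rw [EncInj.inj h.1, ih l h.2]⟩

theorem PTime.eq [EncInj β] {f g : α → β} [∀ a, Decidable (f a = g a)] (hf : PTime f)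
    (hg : PTime g) : PTime (fun a => decide (f a = g a)) := by
  refine (PTime.eqD.comp ((PTime.toD.comp hf).pair (PTime.toD.comp hg))).of_eq fun a => ?_
  have : (enc (f a) = enc (g a)) = (f a = g a) :=
    propext ⟨fun h => EncInj.inj h, fun h => by rw [h]⟩
  simp [this]

theorem PTime.mem [EncInj β] {f : α → β} {g : α → List β} [∀ a, Decidable (f a ∈ g a)]
    (hf : PTime f) (hg : PTime g) : PTime (fun a => decide (f a ∈ g a)) := by
  classical
  have h1 : PTime₂ (fun (a : α) (b : β) => decide (f a = b)) :=
    PTime.eq (hf.comp PTime.fst) PTime.snd
  refine (PTime.any hg h1).of_eq fun a => ?_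
  rw [Bool.eq_iff_iff]
  simp [List.any_eq_true]

end

end Pool.Agent.PolyTime
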