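import Pool.Agent.Lib.PolyTime.Codes

/-!
# Arithmetic of natural numbers in binary, in polynomial time
-/

namespace Pool.Agent.PolyTime

section trans
variable {α β γ σ : Type} [Enc α] [Enc β] [Enc γ] [Enc σ]

/-- length-preserving transducer followed by a final output -/
def trans (δ : σ → β → σ × γ) (e : σ → List γ) : σ → List β → List γ
  | s, [] => e s
  | s, b :: l => (δ s b).2 :: trans δ e (δ s b).1 l

/-- one step, as a fold -/
def transStep (δ : σ → β → σ × γ) (s : σ × List γ) (b : β) : σ × List γ :=
  ((δ s.1 b).1, (δ s.1 b).2 :: s.2)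

omit [Enc β] [Enc γ] [Enc σ] in
theorem trans_eq (δ : σ → β → σ × γ) (e : σ → List γ) (l : List β) :
    ∀ (s : σ) (acc : List γ), acc.reverse ++ trans δ e s l =
      (l.foldl (transStep δ) (s, acc)).2.reverse ++ e (l.foldl (transStep δ) (s, acc)).1 := by
  induction l with
  | nil => intro s acc; rfl
  | cons b l ih =>
    intro s acc
    have := ih (δ s b).1 ((δ s b).2 :: acc)
    rw [List.foldl_cons]
    change _ = (l.foldl (transStep δ) ((δ s b).1, (δ s b).2 :: acc)).2.reverse ++
      e (l.foldl (transStep δ) ((δ s b).1, (δ s b).2 :: acc)).1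
    rw [← this]
    simp [trans]

theorem exists_size_bound (α : Type) [Finite α] [Enc α] : ∃ B, ∀ a : α, size (enc a) ≤ B := by
  obtain ⟨B, hB⟩ := (Set.finite_range fun b : α => size (enc b)).bddAbove
  exact ⟨B, fun b => hB ⟨b, rfl⟩⟩

theorem PTime.transduce [Finite β] [EncInj β] [Finite γ] [Finite σ] [EncInj σ]
    (δ : σ → β → σ × γ) (e : σ → List γ) (s : σ) {f : α → List β} (hf : PTime f) :
    PTime (fun x => trans δ e s (f x)) := by
  obtain ⟨F, hF, hFm, hFs⟩ := hf.size_le
  obtain ⟨B1, hB1⟩ := exists_size_bound σ
  obtain ⟨B2, hB2⟩ := exists_size_bound γ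
  have hstep : PTime (fun p : α × ((σ × List γ) × β) => transStep δ p.2.1 p.2.2) := by
    have h1 : PTime (fun p : α × ((σ × List γ) × β) => δ p.2.1.1 p.2.2) :=
      (PTime.of_finite fun q : σ × β => δ q.1 q.2).comp
        (PTime.pair (PTime.fst' (PTime.fst' PTime.snd)) (PTime.snd' PTime.snd))
    exact h1.fst'.pair (h1.snd'.cons (PTime.snd' (PTime.fst' PTime.snd)))
  have hsz : ∀ (l : List β) (q : σ × List γ), size (enc (l.foldl (transStep δ) q)) ≤
      B1 + 1 + size (enc q.2) + l.length * (B2 + 1) := by
    intro l
    induction l with
    | nil =>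
      intro q
      rw [List.foldl_nil, size_pair]
      have := hB1 q.1
      simp only [List.length_nil, Nat.zero_mul]
      omega
    | cons b l ih =>
      intro q
      rw [List.foldl_cons, List.length_cons, Nat.add_one_mul]
      have h1 := ih (transStep δ q b)
      have h2 : size (enc (transStep δ q b).2) ≤ size (enc q.2) + (B2 + 1) := by
        change size (enc ((δ q.1 b).2 :: q.2)) ≤ _
        rw [size_lcons]
        have := hB2 (δ q.1 b).2
        omega
      omega
  have hfold : PTime (fun x => (f x).foldl (transStep δ) (s, [])) := by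
    refine PTime.foldl (h := fun _ q b => transStep δ q b) hf (PTime.const _) hstep
      (B := fun n => B1 + 1 + 1 + F n * (B2 + 1))
      ((PBd.const (B1 + 1 + 1)).add (hF.mul (PBd.const (B2 + 1)))) ?_
    intro a l₁ l₂ h
    have h1 := hsz l₁ (s, [])
    have h2 : l₁.length ≤ (f a).length := by rw [h]; simp
    have h3 := length_le_size (f a)
    have h4 := hFs a
    have h5 : l₁.length * (B2 + 1) ≤ F (size (enc a)) * (B2 + 1) :=
      Nat.mul_le_mul_right _ (by omega)
    change size (enc (l₁.foldl (transStep δ) (s, []))) ≤ _
    simp only [enc_nil, size_nil] at h1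
    omega
  refine (hfold.snd'.reverse.append ((PTime.of_finite e).comp hfold.fst')).of_eq fun x => ?_
  have := trans_eq δ e (f x) s []
  simpa using this.symm

/-- Folds with a finite state. -/
theorem PTime.foldFinite [Finite σ] {f : α → List β} {s : α → σ} {h : α → σ → β → σ}
    (hf : PTime f) (hs : PTime s) (hh : PTime (fun p : α × (σ × β) => h p.1 p.2.1 p.2.2)) :
    PTime (fun x => (f x).foldl (h x) (s x)) := by
  obtain ⟨B1, hB1⟩ := exists_size_bound σ
  exact PTime.foldl hf hs hh (PBd.const B1) fun _ _ _ _ => hB1 _

end trans

/-! ### Normal form of bit lists -/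

/-- value of a list of bits, least significant first -/
def ofBits : List Bool → ℕ
  | [] => 0
  | b :: l => Nat.bit b (ofBits l)

@[simp] theorem ofBits_nil : ofBits [] = 0 := rfl
@[simp] theorem ofBits_cons (b : Bool) (l : List Bool) :
    ofBits (b :: l) = b.toNat + 2 * ofBits l := by
  rw [ofBits, Nat.bit_val, Nat.add_comm]

theorem ofBits_bits (n : ℕ) : ofBits n.bits = n := by
  induction n using Nat.binaryRec' with
  | zero => simp
  | bit b n h ih => rw [Nat.bits_append_bit n b h, ofBits, ih]

theorem ofBits_append (l l' : List Bool) :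
    ofBits (l ++ l') = ofBits l + 2 ^ l.length * ofBits l' := by
  induction l with
  | nil => simp
  | cons b l ih =>
    rw [List.cons_append, ofBits_cons, ofBits_cons, ih, List.length_cons, pow_succ]
    ring

theorem ofBits_append_zeros {β : Type} (l : List Bool) (l' : List β) :
    ofBits (l ++ l'.map fun _ => false) = ofBits l := by
  have : ofBits (l'.map fun _ => false) = 0 := by
    induction l' with
    | nil => rfl
    | cons b l ih => rw [List.map_cons, ofBits_cons, ih]; rfl
  rw [ofBits_append, this]
  simp

/-- cons a most significant digit to a reversed normal form -/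
def normStep (s : List Bool) (b : Bool) : List Bool :=
  if b = true then b :: s else if s.isEmpty = true then s else b :: s

/-- remove the leading zeros -/
def normal (l : List Bool) : List Bool := l.reverse.foldl normStep []

theorem normal_eq (l : List Bool) : normal l = (ofBits l).bits := by
  unfold normal
  induction l with
  | nil => simp
  | cons b l ih =>
    rw [List.reverse_cons, List.foldl_append, ih]
    simp only [List.foldl_cons, List.foldl_nil, normStep]
    have hz : (ofBits l).bits.isEmpty = true ↔ ofBits l = 0 := by
      constructor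
      · intro h
        have := List.isEmpty_iff.1 h
        rw [← ofBits_bits (ofBits l), this]
        rfl
      · intro h
        rw [h]
        simp
    cases b with
    | true =>
      simp only [if_true]
      rw [ofBits, Nat.bits_append_bit _ _ (by simp)]
    | false =>
      simp only [Bool.false_eq_true, if_false]
      by_cases h : ofBits l = 0
      · rw [if_pos (hz.2 h)]
        rw [ofBits, h]
        simp
      · rw [if_neg (fun h' => h (hz.1 h'))]
        rw [ofBits, Nat.bits_append_bit _ _ (by simp [h])]

theorem PTime.normalize : PTime normal := by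
  have hstep : PTime (fun p : List Bool × (List Bool × Bool) => normStep p.2.1 p.2.2) := by
    have e1 : PTime (fun p : List Bool × (List Bool × Bool) => p.2.1) := PTime.fst' PTime.snd
    have e2 : PTime (fun p : List Bool × (List Bool × Bool) => p.2.2) := PTime.snd' PTime.snd
    exact PTime.ite e2 (e2.cons e1) (PTime.ite e1.isEmpty e1 (e2.cons e1))
  have hsz : ∀ (l : List Bool) (s : List Bool), size (enc (l.foldl normStep s)) ≤
      size (enc s) + 4 * l.length := by
    intro l
    induction l with
    | nil => intro s; simp
    | cons b l ih =>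
      intro s
      rw [List.foldl_cons, List.length_cons]
      have h1 := ih (normStep s b)
      have h2 : size (enc (normStep s b)) ≤ size (enc s) + 4 := by
        unfold normStep
        split
        · rw [size_lcons]; cases b <;> simp only [enc_true, enc_false, size_cons, size_nil] <;>
            omega
        · split
          · omega
          · rw [size_lcons]; cases b <;> simp only [enc_true, enc_false, size_cons, size_nil] <;>
              omega
      omega
  refine PTime.foldl (h := fun _ s b => normStep s b) PTime.id.reverse (PTime.const []) hstep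
    (B := fun n => 1 + 4 * n) ((PBd.const 1).add ((PBd.const 4).mul PBd.id)) ?_
  intro a l₁ l₂ h
  have h1 := hsz l₁ []
  have h2 : l₁.length ≤ a.reverse.length := by rw [h]; simp
  rw [List.length_reverse] at h2
  have h3 := length_le_size a
  change size (enc (l₁.foldl normStep [])) ≤ _
  rw [enc_nil, size_nil] at h1
  omega

section arith
variable {α β γ : Type} [Enc α] [Enc β] [Enc γ]

theorem PTime.natOfBits {f : α → List Bool} (hf : PTime f) : PTime (fun x => ofBits (f x)) :=
  (PTime.normalize.comp hf).of_enc_eq (fun x => x) (fun _ => rfl) fun x => by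
    change enc (Pool.Agent.PolyTime.ofBits (f x)).bits = _
    rw [normal_eq]

theorem PTime.natBits {f : α → ℕ} (hf : PTime f) : PTime (fun x => (f x).bits) :=
  hf.of_enc_eq (fun x => x) (fun _ => rfl) (fun _ => rfl)

/-- pad two lists of bits to the same length -/
def padZip (l l' : List Bool) : List (Bool × Bool) :=
  (l ++ l'.map fun _ => false).zip (l' ++ l.map fun _ => false)

theorem padZip_fst (l l' : List Bool) : (padZip l l').map Prod.fst = l ++ l'.map fun _ => false :=
  List.map_fst_zip (by simp [Nat.add_comm])

theorem padZip_snd (l l' : List Bool) : (padZip l l').map Prod.snd = l' ++ l.map fun _ => false :=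
  List.map_snd_zip (by simp [Nat.add_comm])

theorem PTime.padZips {f g : α → List Bool} (hf : PTime f) (hg : PTime g) :
    PTime (fun x => padZip (f x) (g x)) := by
  have hz : ∀ {h : α → List Bool}, PTime h → PTime (fun x => (h x).map fun _ => false) :=
    fun h => PTime.map (g := fun (_ : α) (_ : Bool) => false) h (PTime.const false)
  exact (hf.append (hz hg)).zip (hg.append (hz hf))

/-- full adder -/
def addδ (c : Bool) (p : Bool × Bool) : Bool × Bool :=
  ((p.1 && p.2) || (c && (p.1 || p.2)), Bool.xor c (Bool.xor p.1 p.2))

theorem add_trans (l : List (Bool × Bool)) : ∀ c : Bool,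
    ofBits (trans addδ (fun c => [c]) c l) =
      ofBits (l.map Prod.fst) + ofBits (l.map Prod.snd) + c.toNat := by
  induction l with
  | nil => intro c; simp [trans]
  | cons p l ih =>
    intro c
    obtain ⟨a, b⟩ := p
    rw [trans, ofBits_cons, ih]
    simp only [List.map_cons, ofBits_cons]
    cases a <;> cases b <;> cases c <;> simp [addδ] <;> omega

theorem PTime.add {f g : α → ℕ} (hf : PTime f) (hg : PTime g) : PTime (fun x => f x + g x) := by
  have h := PTime.natOfBits (PTime.transduce addδ (fun c => [c]) false
    (PTime.padZips hf.natBits hg.natBits))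
  refine h.of_eq fun x => ?_
  rw [add_trans, padZip_fst, padZip_snd, ofBits_append_zeros, ofBits_append_zeros, ofBits_bits,
    ofBits_bits]
  simp

/-- comparison step, from the least significant digit -/
def leδ (r : Bool) (p : Bool × Bool) : Bool := if p.1 = p.2 then r else p.2

theorem le_fold (l : List (Bool × Bool)) : ∀ r : Bool,
    (l.foldl leδ r = true ↔ (ofBits (l.map Prod.fst) < ofBits (l.map Prod.snd) ∨
      (ofBits (l.map Prod.fst) = ofBits (l.map Prod.snd) ∧ r = true))) := by
  induction l with
  | nil => intro r; simp
  | cons p l ih =>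
    intro r
    obtain ⟨a, b⟩ := p
    rw [List.foldl_cons, ih]
    simp only [List.map_cons, ofBits_cons]
    cases a <;> cases b <;> cases r <;> simp [leδ] <;> omega

theorem PTime.le {f g : α → ℕ} (hf : PTime f) (hg : PTime g) :
    PTime (fun x => decide (f x ≤ g x)) := by
  have h : PTime (fun x => (padZip (f x).bits (g x).bits).foldl leδ true) :=
    PTime.foldFinite (h := fun _ r p => leδ r p) (PTime.padZips hf.natBits hg.natBits)
      (PTime.const true) ((PTime.of_finite fun q : Bool × (Bool × Bool) => leδ q.1 q.2).comp
        PTime.snd)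
  refine h.of_eq fun x => ?_
  rw [Bool.eq_iff_iff, le_fold, padZip_fst, padZip_snd, ofBits_append_zeros, ofBits_append_zeros,
    ofBits_bits, ofBits_bits]
  simp only [and_true, decide_eq_true_eq]
  omega

theorem PTime.lt {f g : α → ℕ} (hf : PTime f) (hg : PTime g) :
    PTime (fun x => decide (f x < g x)) :=
  (PTime.le (hf.add (PTime.const 1)) hg).of_eq fun _ => rfl

/-- subtraction with borrow -/
def subδ (c : Bool) (p : Bool × Bool) : Bool × Bool :=
  ((!p.1 && (p.2 || c)) || (p.2 && c), Bool.xor c (Bool.xor p.1 p.2))

theorem sub_trans (l : List (Bool × Bool)) : ∀ c : Bool,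
    ofBits (l.map Prod.snd) + c.toNat ≤ ofBits (l.map Prod.fst) →
    ofBits (trans subδ (fun _ => []) c l) + ofBits (l.map Prod.snd) + c.toNat =
      ofBits (l.map Prod.fst) := by
  induction l with
  | nil => intro c; cases c <;> simp [trans]
  | cons p l ih =>
    intro c
    obtain ⟨a, b⟩ := p
    rw [trans, ofBits_cons]
    simp only [List.map_cons, ofBits_cons]
    intro h
    have h1 := ih (subδ c (a, b)).1
    cases a <;> cases b <;> cases c <;> simp [subδ] at h h1 ⊢ <;> omega

theorem PTime.sub {f g : α → ℕ} (hf : PTime f) (hg : PTime g) : PTime (fun x => f x - g x) := by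
  have h := PTime.natOfBits (PTime.transduce subδ (fun _ => []) false
    (PTime.padZips hf.natBits hg.natBits))
  refine (PTime.iteP (c := fun x => g x ≤ f x) (PTime.le hg hf) h (PTime.const 0)).of_eq
    fun x => ?_
  by_cases hx : g x ≤ f x
  · rw [if_pos hx]
    have := sub_trans (padZip (f x).bits (g x).bits) false
    rw [padZip_fst, padZip_snd, ofBits_append_zeros, ofBits_append_zeros, ofBits_bits,
      ofBits_bits] at this
    simp only [Bool.toNat_false, Nat.add_zero] at this
    have := this hx
    omega
  · rw [if_neg hx]
    omega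

theorem length_bits_le {n k : ℕ} (h : n < 2 ^ k) : n.bits.length ≤ k := by
  rw [Nat.size_eq_bits_len]
  exact Nat.size_le.2 h

theorem size_bits_le (l : List Bool) : size (enc l) ≤ 4 * l.length + 1 := by
  induction l with
  | nil => simp [enc_nil]
  | cons b l ih =>
    rw [size_lcons, List.length_cons]
    cases b <;> simp only [enc_true, enc_false, size_cons, size_nil] <;> omega

theorem size_nat_le_of_lt {n k : ℕ} (h : n < 2 ^ k) : size (enc n) ≤ 4 * k + 1 := by
  have h1 := size_bits_le n.bits
  have h2 := length_bits_le h
  change size (enc n.bits) ≤ _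
  omega

theorem lt_two_pow_size (n : ℕ) : n < 2 ^ size (enc n) := by
  have h1 : n < 2 ^ n.bits.length := by
    rw [Nat.size_eq_bits_len]
    exact Nat.lt_size_self n
  have h2 := length_le_size n.bits
  refine h1.trans_le (Nat.pow_le_pow_right (by norm_num) ?_)
  change _ ≤ size (enc n.bits)
  omega

theorem ofBits_lt (l : List Bool) : ofBits l < 2 ^ l.length := by
  induction l with
  | nil => simp
  | cons b l ih =>
    rw [ofBits_cons, List.length_cons, pow_succ]
    cases b <;> simp <;> omega

/-- Horner scheme on the reversed digits -/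
theorem horner (l : List Bool) (b : ℕ) :
    l.reverse.foldl (fun acc d => acc + acc + (if d = true then b else 0)) 0 = ofBits l * b := by
  induction l with
  | nil => simp
  | cons d l ih =>
    rw [List.reverse_cons, List.foldl_append, ih]
    simp only [List.foldl_cons, List.foldl_nil, ofBits_cons]
    cases d <;> simp <;> ring

theorem PTime.mul {f g : α → ℕ} (hf : PTime f) (hg : PTime g) : PTime (fun x => f x * g x) := by
  obtain ⟨F, hF, hFm, hFs⟩ := hf.size_le
  obtain ⟨G, hG, hGm, hGs⟩ := hg.size_le
  have hstep : PTime (fun p : α × (ℕ × Bool) =>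
      p.2.1 + p.2.1 + (if p.2.2 = true then g p.1 else 0)) := by
    have e1 : PTime (fun p : α × (ℕ × Bool) => p.2.1) := PTime.fst' PTime.snd
    exact (e1.add e1).add (PTime.ite (PTime.snd' PTime.snd) (hg.comp PTime.fst) (PTime.const 0))
  have h : PTime (fun x => (f x).bits.reverse.foldl
      (fun acc d => acc + acc + (if d = true then g x else 0)) 0) := by
    refine PTime.foldl (h := fun x acc d => acc + acc + (if d = true then g x else 0))
      hf.natBits.reverse (PTime.const 0) hstep
      (B := fun n => 4 * (F n + G n) + 1)
      (((PBd.const 4).mul (hF.add hG)).add (PBd.const 1)) ?_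
    intro a l₁ l₂ hl
    have h1 := horner l₁.reverse (g a)
    rw [List.reverse_reverse] at h1
    rw [h1]
    have h2 : l₁.length ≤ (f a).bits.length := by
      rw [← List.length_reverse (as := (f a).bits), hl]; simp
    have h3 := length_le_size (f a).bits
    have h4 : size (enc (f a).bits) ≤ F (size (enc a)) := hFs a
    have h5 : l₁.length ≤ F (size (enc a)) := by omega
    have h6 := ofBits_lt l₁.reverse
    rw [List.length_reverse] at h6
    have h7 := lt_two_pow_size (g a)
    have h8 := hGs a
    refine size_nat_le_of_lt ?_
    rw [pow_add]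
    have e1 : ofBits l₁.reverse < 2 ^ F (size (enc a)) :=
      h6.trans_le (Nat.pow_le_pow_right (by norm_num) h5)
    have e2 : g a < 2 ^ G (size (enc a)) := h7.trans_le (Nat.pow_le_pow_right (by norm_num) h8)
    exact Nat.mul_lt_mul_of_lt_of_lt e1 e2
  refine h.of_eq fun x => ?_
  rw [horner, ofBits_bits]

/-- one step of the long division -/
def divStep (b : ℕ) (s : ℕ × ℕ) (d : Bool) : ℕ × ℕ :=
  if b ≤ s.2 + s.2 + d.toNat then (s.1 + s.1 + 1, s.2 + s.2 + d.toNat - b)
  else (s.1 + s.1, s.2 + s.2 + d.toNat)

theorem divStep_fold (b : ℕ) (hb : 0 < b) (l : List Bool) :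
    l.reverse.foldl (divStep b) (0, 0) = (ofBits l / b, ofBits l % b) := by
  induction l with
  | nil => simp
  | cons d l ih =>
    rw [List.reverse_cons, List.foldl_append, ih]
    simp only [List.foldl_cons, List.foldl_nil, ofBits_cons, divStep]
    have h1 := Nat.div_add_mod (ofBits l) b
    have h2 := Nat.mod_lt (ofBits l) hb
    set q := ofBits l / b
    set r := ofBits l % b
    have hd : d.toNat ≤ 1 := Bool.toNat_le d
    have e : d.toNat + 2 * ofBits l = (r + r + d.toNat) + b * (q + q) := by
      rw [← h1]; ring
    rw [e]
    split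
    · rename_i hle
      have e2 : (r + r + d.toNat) + b * (q + q) = (r + r + d.toNat - b) + b * (q + q + 1) := by
        have : r + r + d.toNat = (r + r + d.toNat - b) + b := by omega
        rw [Nat.mul_add b (q + q) 1]
        omega
      rw [e2, Nat.add_mul_div_left _ _ hb, Nat.add_mul_mod_self_left,
        Nat.div_eq_of_lt (by omega), Nat.mod_eq_of_lt (by omega)]
      simp
    · rename_i hle
      rw [Nat.add_mul_div_left _ _ hb, Nat.add_mul_mod_self_left,
        Nat.div_eq_of_lt (by omega), Nat.mod_eq_of_lt (by omega)]
      simp

theorem PTime.boolToNat {f : α → Bool} (hf : PTime f) : PTime (fun x => (f x).toNat) :=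
  (PTime.of_finite Bool.toNat).comp hf

theorem PTime.divMod {f g : α → ℕ} (hf : PTime f) (hg : PTime g) :
    PTime (fun x => (f x / g x, f x % g x)) := by
  obtain ⟨F, hF, hFm, hFs⟩ := hf.size_le
  obtain ⟨G, hG, hGm, hGs⟩ := hg.size_le
  have hg1 : PTime (fun x => if g x = 0 then 1 else g x) :=
    PTime.iteP (PTime.eq hg (PTime.const 0)) (PTime.const 1) hg
  have hstep : PTime (fun p : α × ((ℕ × ℕ) × Bool) =>
      divStep (if g p.1 = 0 then 1 else g p.1) p.2.1 p.2.2) := by
    have eb : PTime (fun p : α × ((ℕ × ℕ) × Bool) => if g p.1 = 0 then 1 else g p.1) :=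
      hg1.comp PTime.fst
    have es1 : PTime (fun p : α × ((ℕ × ℕ) × Bool) => p.2.1.1) :=
      PTime.fst' (PTime.fst' PTime.snd)
    have es2 : PTime (fun p : α × ((ℕ × ℕ) × Bool) => p.2.1.2) :=
      PTime.snd' (PTime.fst' PTime.snd)
    have ed : PTime (fun p : α × ((ℕ × ℕ) × Bool) => p.2.2.toNat) :=
      (PTime.snd' PTime.snd).boolToNat
    have er := (es2.add es2).add ed
    have eq2 := es1.add es1
    exact PTime.iteP (PTime.le eb er) ((eq2.add (PTime.const 1)).pair (er.sub eb)) (eq2.pair er)
  have h : PTime (fun x => (f x).bits.reverse.foldl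
      (divStep (if g x = 0 then 1 else g x)) (0, 0)) := by
    refine PTime.foldl (h := fun x s d => divStep (if g x = 0 then 1 else g x) s d)
      hf.natBits.reverse (PTime.const (0, 0)) hstep
      (B := fun n => (4 * F n + 1) + (4 * F n + 1) + 1)
      (((((PBd.const 4).mul hF).add (PBd.const 1)).add (((PBd.const 4).mul hF).add
        (PBd.const 1))).add (PBd.const 1)) ?_
    intro a l₁ l₂ hl
    have hpos : 0 < (if g a = 0 then 1 else g a) := by split <;> omega
    have h1 := divStep_fold _ hpos l₁.reverse
    rw [List.reverse_reverse] at h1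
    change size (enc (l₁.foldl (divStep (if g a = 0 then 1 else g a)) (0, 0))) ≤ _
    rw [h1, size_pair]
    have h2 : l₁.length ≤ (f a).bits.length := by
      rw [← List.length_reverse (as := (f a).bits), hl]; simp
    have h3 := length_le_size (f a).bits
    have h4 : size (enc (f a).bits) ≤ F (size (enc a)) := hFs a
    have h5 : l₁.length ≤ F (size (enc a)) := by omega
    have h6 := ofBits_lt l₁.reverse
    rw [List.length_reverse] at h6
    have h7 : ofBits l₁.reverse < 2 ^ F (size (enc a)) :=
      h6.trans_le (Nat.pow_le_pow_right (by norm_num) h5)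
    have h8 := size_nat_le_of_lt ((Nat.div_le_self (ofBits l₁.reverse)
      (if g a = 0 then 1 else g a)).trans_lt h7)
    have h9 := size_nat_le_of_lt ((Nat.mod_le (ofBits l₁.reverse)
      (if g a = 0 then 1 else g a)).trans_lt h7)
    omega
  refine (PTime.iteP (c := fun x => g x = 0) (PTime.eq hg (PTime.const 0))
    ((PTime.const 0).pair hf) h).of_eq fun x => ?_
  by_cases hx : g x = 0
  · simp [hx]
  · simp only [hx, if_false]
    rw [divStep_fold _ (Nat.pos_of_ne_zero hx), ofBits_bits]

theorem PTime.div {f g : α → ℕ} (hf : PTime f) (hg : PTime g) : PTime (fun x => f x / g x) :=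
  (PTime.divMod hf hg).fst'

theorem PTime.mod {f g : α → ℕ} (hf : PTime f) (hg : PTime g) : PTime (fun x => f x % g x) :=
  (PTime.divMod hf hg).snd'

/-! ### Lists and numbers -/

theorem PTime.length {f : α → List β} (hf : PTime f) : PTime (fun x => (f x).length) := by
  have h : PTime (fun x => (f x).foldl (fun (n : ℕ) (_ : β) => n + 1) 0) := by
    obtain ⟨F, hF, hFm, hFs⟩ := hf.size_le
    have hfold : ∀ l : List β, l.foldl (fun (n : ℕ) (_ : β) => n + 1) 0 = l.length := by
      intro l
      induction l using List.reverseRecOn with
      | nil => rfl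
      | append_singleton l x ih => rw [List.foldl_append, ih]; simp
    refine PTime.foldl (h := fun _ n _ => n + 1) hf (PTime.const 0)
      (PTime.succ (PTime.fst' PTime.snd)) (B := fun n => 4 * F n + 1)
      (((PBd.const 4).mul hF).add (PBd.const 1)) ?_
    intro a l₁ l₂ hl
    change size (enc (l₁.foldl (fun (n : ℕ) (_ : β) => n + 1) 0)) ≤ _
    rw [hfold]
    have h2 : l₁.length ≤ (f a).length := by rw [hl]; simp
    have h3 := length_le_size (f a)
    have h4 := hFs a
    have h5 := size_nat_le l₁.length
    omega
  refine h.of_eq fun x => ?_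
  generalize f x = l
  induction l using List.reverseRecOn with
  | nil => rfl
  | append_singleton l x ih => rw [List.foldl_append, ih]; simp

/-- `List.range` of a number bounded by the length of a computed list. -/
theorem PTime.rangeLe {f : α → ℕ} {g : α → List β} (hf : PTime f) (hg : PTime g)
    (h : ∀ x, f x ≤ (g x).length) : PTime (fun x => List.range (f x)) := by
  have h1 : PTime₂ (fun (x : α) (i : ℕ) => decide (i < f x)) :=
    PTime.lt PTime.snd (hf.comp PTime.fst)
  refine (PTime.filter (PTime.rangeLength hg) h1).of_eq fun x => ?_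
  have hx := h x
  generalize (g x).length = m at hx
  generalize f x = n at hx
  have : List.range m = List.range n ++ (List.range (m - n)).map (fun i => n + i) := by
    conv_lhs => rw [← Nat.add_sub_cancel' hx]
    rw [List.range_add]
  rw [this, List.filter_append]
  have e1 : (List.range n).filter (fun i => decide (i < n)) = List.range n :=
    List.filter_eq_self.2 fun i hi => by simpa using hi
  have e2 : ((List.range (m - n)).map (fun i => n + i)).filter (fun i => decide (i < n)) = [] :=
    List.filter_eq_nil_iff.2 fun i hi => by
      obtain ⟨j, _, rfl⟩ := List.mem_map.1 hi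
      simp
  rw [e1, e2, List.append_nil]

theorem PTime.zipIdx {f : α → List β} (hf : PTime f) :
    PTime (fun x => (f x).zip (List.range (f x).length)) :=
  hf.zip (PTime.rangeLength hf)

omit [Enc β] in
theorem zipRange_find (l : List β) (i k : ℕ) :
    ((l.zip ((List.range l.length).map (fun j => k + j))).filter
      (fun p => decide (p.2 = k + i))).map Prod.fst = (l[i]?).toList := by
  induction l generalizing i k with
  | nil => simp
  | cons x l ih =>
    rw [List.length_cons, List.range_succ_eq_map, List.map_cons, List.map_map,
      List.zip_cons_cons, List.filter_cons]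
    have hfun : (fun j => k + j) ∘ Nat.succ = fun j => (k + 1) + j := by
      funext j; simp only [Function.comp_apply, Nat.succ_eq_add_one]; omega
    rw [hfun]
    cases i with
    | zero =>
      simp only [Nat.add_zero, decide_true, if_true, List.map_cons, List.getElem?_cons_zero,
        Option.toList_some, List.cons.injEq, true_and, List.map_eq_nil_iff,
        List.filter_eq_nil_iff]
      intro p hp
      have := (List.of_mem_zip hp).2
      obtain ⟨j, _, hj⟩ := List.mem_map.1 this
      simp only [decide_eq_true_eq]
      omega
    | succ i =>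
      have h0 : ¬ (k + 0 = k + (i + 1)) := by omega
      simp only [h0, decide_false, Bool.false_eq_true, if_false, List.getElem?_cons_succ]
      have := ih i (k + 1)
      rw [← this]
      congr 2
      funext p
      simp only [decide_eq_decide]
      omega

theorem PTime.getElem? {f : α → List β} {g : α → ℕ} (hf : PTime f) (hg : PTime g) :
    PTime (fun x => (f x)[g x]?) := by
  have h1 : PTime₂ (fun (x : α) (p : β × ℕ) => decide (p.2 = g x)) :=
    PTime.eq (PTime.snd' PTime.snd) (hg.comp PTime.fst)
  have h2 := (PTime.map (g := fun (_ : α) (p : β × ℕ) => p.1)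
    (PTime.filter (PTime.zipIdx hf) h1) (PTime.fst' PTime.snd)).head?
  refine h2.of_eq fun x => ?_
  have := zipRange_find (f x) (g x) 0
  simp only [Nat.zero_add, List.map_id'] at this
  change (List.map Prod.fst _).head? = _
  rw [this]
  cases (f x)[g x]? <;> rfl

theorem PTime.listGetD {f : α → List β} {g : α → ℕ} {h : α → β} (hf : PTime f) (hg : PTime g)
    (hh : PTime h) : PTime (fun x => (f x).getD (g x) (h x)) :=
  (PTime.getD (PTime.getElem? hf hg) hh).of_eq fun x => by
    rw [List.getD_eq_getElem?_getD]

theorem PTime.take {f : α → List β} {g : α → ℕ} (hf : PTime f) (hg : PTime g) :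
    PTime (fun x => (f x).take (g x)) := by
  have h1 : PTime₂ (fun (x : α) (p : β × ℕ) => decide (p.2 < g x)) :=
    PTime.lt (PTime.snd' PTime.snd) (hg.comp PTime.fst)
  have h2 := PTime.map (g := fun (_ : α) (p : β × ℕ) => p.1)
    (PTime.filter (PTime.zipIdx hf) h1) (PTime.fst' PTime.snd)
  refine h2.of_eq fun x => ?_
  have key : ∀ (l : List β) (k n : ℕ),
      ((l.zip ((List.range l.length).map (fun j => k + j))).filter
        (fun p => decide (p.2 < k + n))).map Prod.fst = l.take n := by
    intro l
    induction l with
    | nil => intro k n; simp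
    | cons x l ih =>
      intro k n
      rw [List.length_cons, List.range_succ_eq_map, List.map_cons, List.map_map,
        List.zip_cons_cons, List.filter_cons]
      have hfun : (fun j => k + j) ∘ Nat.succ = fun j => (k + 1) + j := by
        funext j; simp only [Function.comp_apply, Nat.succ_eq_add_one]; omega
      rw [hfun]
      cases n with
      | zero =>
        simp only [Nat.add_zero, lt_irrefl, decide_false, Bool.false_eq_true, if_false,
          List.take_zero, List.map_eq_nil_iff, List.filter_eq_nil_iff]
        intro p hp
        have := (List.of_mem_zip hp).2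
        obtain ⟨j, _, hj⟩ := List.mem_map.1 this
        simp only [decide_eq_true_eq]
        omega
      | succ n =>
        have h0 : k + 0 < k + (n + 1) := by omega
        simp only [h0, decide_true, if_true, List.map_cons, List.take_succ_cons]
        have := ih (k + 1) n
        rw [← this]
        congr 3
        funext p
        simp only [decide_eq_decide]
        omega
  have := key (f x) 0 (g x)
  simp only [Nat.zero_add, List.map_id'] at this
  exact this

/-- `Nat.sqrt` of a number that is at most the length of a computed list. -/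
theorem PTime.sqrtLe {f : α → ℕ} {g : α → List β} (hf : PTime f) (hg : PTime g)
    (h : ∀ x, f x ≤ (g x).length) : PTime (fun x => Nat.sqrt (f x)) := by
  have h1 : PTime₂ (fun (x : α) (i : ℕ) => decide (f x < (i + 1) * (i + 1))) :=
    PTime.lt (hf.comp PTime.fst) (PTime.mul PTime.snd.succ PTime.snd.succ)
  have h2 : PTime (fun x => List.range (f x + 1)) :=
    PTime.rangeLe (g := fun x => () :: (g x).map fun _ => ()) hf.succ
      ((PTime.const ()).cons (PTime.map (g := fun (_ : α) (_ : β) => ()) hg (PTime.const ())))
      (fun x => by simpa using h x)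
  have h3 := PTime.getD (PTime.find? h2 h1) (PTime.const 0)
  refine h3.of_eq fun x => ?_
  generalize f x = n
  have hs : ∀ i, decide (n < (i + 1) * (i + 1)) = true ↔ Nat.sqrt n ≤ i := by
    intro i
    rw [decide_eq_true_eq, ← Nat.sqrt_lt]
    omega
  have hr : List.range (n + 1) = List.range (Nat.sqrt n) ++
      (Nat.sqrt n :: (List.range (n - Nat.sqrt n)).map fun i => Nat.sqrt n + 1 + i) := by
    have h1 : n + 1 = Nat.sqrt n + (1 + (n - Nat.sqrt n)) := by
      have := Nat.sqrt_le_self n; omega
    rw [h1, List.range_add, List.range_add]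
    simp [Function.comp_def]
    intro a _
    omega
  rw [hr, List.find?_append]
  have e1 : List.find? (fun i => decide (n < (i + 1) * (i + 1))) (List.range (Nat.sqrt n)) =
      none := by
    rw [List.find?_eq_none]
    intro i hi h
    rw [hs] at h
    rw [List.mem_range] at hi
    omega
  rw [e1]
  have e2 : decide (n < (Nat.sqrt n + 1) * (Nat.sqrt n + 1)) = true := (hs _).2 (le_refl _)
  simp [e2]

end arith

end Pool.Agent.PolyTime
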