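import Pool.Agent.Lib.PolyTime.Finite

/-!
# Bit codes of trees are computed and parsed in polynomial time
-/

namespace Pool.Agent.PolyTime

/-- one step of writing down the bit code of a stack of trees -/
def bitsStep (s : List D × List Bool) : List D × List Bool :=
  match s.1 with
  | [] => s
  | D.nil :: l => (l, false :: s.2)
  | D.cons x y :: l => (x :: y :: l, true :: s.2)

theorem bitsStep_ptime : PTime bitsStep := by
  have e1 : PTime (fun s : List D × List Bool => s.1) := PTime.fst
  have e2 : PTime (fun s : List D × List Bool => s) := PTime.id
  have e3 : PTime (fun q : (List D × List Bool) × (D × List D) =>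
      match q.2.1 with
      | D.nil => (q.2.2, false :: q.1.2)
      | D.cons x y => (x :: y :: q.2.2, true :: q.1.2)) := by
    refine PTime.D_cases (f := fun q : (List D × List Bool) × (D × List D) => q.2.1)
      (g := fun q => (q.2.2, false :: q.1.2))
      (h := fun r : ((List D × List Bool) × (D × List D)) × (D × D) =>
        (r.2.1 :: r.2.2 :: r.1.2.2, true :: r.1.1.2)) ?_ ?_ ?_
    · exact PTime.fst' PTime.snd
    · exact (PTime.snd' PTime.snd).pair ((PTime.const false).cons (PTime.snd' PTime.fst))
    · exact ((PTime.fst' PTime.snd).cons ((PTime.snd' PTime.snd).cons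
        (PTime.snd' (PTime.snd' PTime.fst)))).pair ((PTime.const true).cons
          (PTime.snd' (PTime.fst' PTime.fst)))
  refine (PTime.list_cases e1 e2 e3).of_eq fun s => ?_
  obtain ⟨l, acc⟩ := s
  cases l with
  | nil => rfl
  | cons d l => cases d <;> rfl

theorem bitsStep_iter (d : D) : ∀ (l : List D) (acc : List Bool),
    (∀ i < size d, (bitsStep^[i] (d :: l, acc)).1.isEmpty = false) ∧
    bitsStep^[size d] (d :: l, acc) = (l, (bits d).reverse ++ acc) := by
  induction d with
  | nil =>
    intro l acc
    refine ⟨fun i hi => ?_, rfl⟩
    simp only [size_nil, Nat.lt_one_iff] at hi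
    subst hi
    rfl
  | cons x y ihx ihy =>
    intro l acc
    have hx := ihx (y :: l) (true :: acc)
    have hy := ihy l ((bits x).reverse ++ (true :: acc))
    have hs : size (D.cons x y) = size y + (size x + 1) := by rw [size_cons]; ring
    constructor
    · intro i hi
      rcases i with _ | i
      · rfl
      · rw [Function.iterate_succ_apply]
        change (bitsStep^[i] (x :: y :: l, true :: acc)).1.isEmpty = false
        by_cases h : i < size x
        · exact hx.1 i h
        · obtain ⟨j, rfl⟩ := Nat.exists_eq_add_of_le (not_lt.1 h)
          rw [Nat.add_comm, Function.iterate_add_apply, hx.2]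
          exact hy.1 j (by omega)
    · rw [hs, Function.iterate_add_apply, Function.iterate_add_apply]
      change bitsStep^[size y] (bitsStep^[size x] (x :: y :: l, true :: acc)) = _
      rw [hx.2, hy.2]
      simp [bits]

theorem bitsStep_size (s : List D × List Bool) :
    size (enc (bitsStep s)) ≤ size (enc s) + 6 := by
  obtain ⟨l, acc⟩ := s
  cases l with
  | nil => exact Nat.le_add_right _ _
  | cons d l =>
    cases d with
    | nil =>
      change size (enc (l, false :: acc)) ≤ _
      rw [size_pair, size_pair, size_lcons, size_lcons, enc_false, size_nil]
      have := size_pos (enc D.nil)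
      omega
    | cons x y =>
      change size (enc (x :: y :: l, true :: acc)) ≤ _
      rw [size_pair, size_pair, size_lcons, size_lcons, size_lcons, size_lcons, enc_true]
      have : size (enc (D.cons x y)) = size (enc x) + size (enc y) + 1 := size_cons x y
      simp only [size_cons, size_nil]
      omega

/-- The bit code of a tree, as a list of Booleans, is computed in polynomial time. -/
theorem PTime.bitsD : PTime (bits : D → List Bool) := by
  have hinit : PTime (fun d : D => ([d], ([] : List Bool))) :=
    (PTime.id.cons (PTime.const [])).pair (PTime.const [])
  have hcond : PTime (fun s : List D × List Bool => !s.1.isEmpty) := PTime.fst.isEmpty.not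
  have hsz : ∀ (i : ℕ) (s : List D × List Bool), size (enc (bitsStep^[i] s)) ≤
      size (enc s) + 6 * i := by
    intro i
    induction i with
    | zero => intro s; simp
    | succ i ih =>
      intro s
      rw [Function.iterate_succ_apply]
      have h1 := ih (bitsStep s)
      have h2 := bitsStep_size s
      omega
  have hw := PTime.while hinit hcond bitsStep_ptime (fun d => size d)
    (fun d i hi => by
      have := (bitsStep_iter d [] []).1 i hi
      simp [this])
    (fun d => by
      have := (bitsStep_iter d [] []).2
      simp [this])
    (N := fun n => n) (B := fun n => n + 4 + 6 * n) PBd.id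
    ((PBd.id.add (PBd.const 4)).add ((PBd.const 6).mul PBd.id)) (fun d => le_refl _)
    (fun d i hi => by
      have h1 := hsz i ([d], [])
      have h2 : size (enc (([d], []) : List D × List Bool)) = size d + 4 := by
        rw [size_pair, size_lcons, enc_nil, enc_nil, enc_D]
        simp only [size_nil]
      change size (enc (bitsStep^[i] ([d], []))) ≤ size d + 4 + 6 * size d
      omega)
  refine (hw.snd').reverse.of_eq fun d => ?_
  rw [(bitsStep_iter d [] []).2]
  simp

/-- one step of parsing, from the right -/
def parseStep (s : List D) (b : Bool) : List D :=
  if b = true then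
    match s with
    | [] => s
    | x :: l => match l with
      | [] => s
      | y :: l' => D.cons x y :: l'
  else D.nil :: s

theorem parseStep_ptime : PTime (fun p : List D × Bool => parseStep p.1 p.2) := by
  have e1 : PTime (fun p : List D × Bool => p.1) := PTime.fst
  have e3 : PTime (fun q : (List D × Bool) × (D × List D) =>
      match q.2.2 with
      | [] => q.1.1
      | y :: l' => D.cons q.2.1 y :: l') := by
    have h1 : PTime (fun q : (List D × Bool) × (D × List D) => q.2.2) := PTime.snd' PTime.snd
    have h2 : PTime (fun q : (List D × Bool) × (D × List D) => q.1.1) := PTime.fst' PTime.fst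
    have h3 : PTime (fun r : ((List D × Bool) × (D × List D)) × (D × List D) =>
        D.cons r.1.2.1 r.2.1 :: r.2.2) :=
      ((PTime.fst' (PTime.snd' PTime.fst)).dcons (PTime.fst' PTime.snd)).cons
        (PTime.snd' PTime.snd)
    refine (PTime.list_cases h1 h2 h3).of_eq fun q => ?_
    obtain ⟨q1, q2, l⟩ := q
    cases l <;> rfl
  refine (PTime.ite PTime.snd (PTime.list_cases e1 e1 e3)
    ((PTime.const D.nil).cons e1)).of_eq fun p => ?_
  obtain ⟨s, b⟩ := p
  cases b
  · rfl
  · rcases s with _ | ⟨x, _ | ⟨y, l⟩⟩ <;> rfl

/-- Parse a word: the stack of trees whose codes, in order, form the word. -/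
def parseAll (l : List Bool) : List D := l.reverse.foldl parseStep []

theorem parseAll_append (l l' : List Bool) :
    parseAll (l ++ l') = l.reverse.foldl parseStep (parseAll l') := by
  simp [parseAll]

theorem parse_bits (d : D) : ∀ s : List D, (bits d).reverse.foldl parseStep s = d :: s := by
  induction d with
  | nil => intro s; rfl
  | cons x y ihx ihy =>
    intro s
    simp only [bits, List.reverse_cons, List.reverse_append, List.foldl_append, ihy, ihx]
    rfl

theorem parseAll_bits (d : D) (l : List Bool) : parseAll (bits d ++ l) = d :: parseAll l := by
  rw [parseAll_append, parse_bits]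

/-- The tree whose code is a prefix of the given word (if there is one). -/
def parse (l : List Bool) : D := (parseAll l).headD D.nil

theorem parse_bits_append (d : D) (l : List Bool) : parse (bits d ++ l) = d := by
  simp [parse, parseAll_bits]

theorem parse_bits' (d : D) : parse (bits d) = d := by
  have := parse_bits_append d []
  rwa [List.append_nil] at this

theorem parseStep_size (s : List D) (b : Bool) :
    size (enc (parseStep s b)) ≤ size (enc s) + 2 := by
  cases b with
  | false =>
    change size (enc (D.nil :: s)) ≤ _
    rw [size_lcons, enc_D, size_nil]
    omega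
  | true =>
    rcases s with _ | ⟨x, _ | ⟨y, l⟩⟩
    · exact Nat.le_add_right _ _
    · exact Nat.le_add_right _ _
    · change size (enc (D.cons x y :: l)) ≤ _
      rw [size_lcons, size_lcons, size_lcons, enc_D, enc_D, enc_D, size_cons]
      omega

theorem PTime.parseAll : PTime (parseAll : List Bool → List D) := by
  have hsz : ∀ (l : List Bool) (s : List D), size (enc (l.foldl parseStep s)) ≤
      size (enc s) + 2 * l.length := by
    intro l
    induction l with
    | nil => intro s; simp
    | cons b l ih =>
      intro s
      rw [List.foldl_cons, List.length_cons]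
      have h1 := ih (parseStep s b)
      have h2 := parseStep_size s b
      omega
  refine PTime.foldl (h := fun _ s b => parseStep s b) PTime.id.reverse (PTime.const [])
    (parseStep_ptime.comp PTime.snd) (B := fun n => 1 + 2 * n)
    ((PBd.const 1).add ((PBd.const 2).mul PBd.id)) ?_
  intro a l₁ l₂ h
  have h1 := hsz l₁ []
  have h2 : l₁.length ≤ a.reverse.length := by rw [h]; simp
  rw [List.length_reverse] at h2
  have h3 := length_le_size a
  change size (enc (l₁.foldl parseStep [])) ≤ _
  rw [enc_nil, size_nil] at h1
  omega

theorem PTime.parse : PTime (parse : List Bool → D) := by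
  refine (PTime.getD (PTime.parseAll.head?) (PTime.const D.nil)).of_eq fun l => ?_
  unfold Pool.Agent.PolyTime.parse
  cases Pool.Agent.PolyTime.parseAll l <;> rfl

/-- Any encoded data gives a list of bits in polynomial time. -/
theorem PTime.bits' {α β : Type} [Enc α] [Enc β] {f : α → β} (hf : PTime f) :
    PTime (fun x => bits (enc (f x))) :=
  PTime.bitsD.comp (PTime.toD.comp hf)

/-- A list whose length is the size of the code. -/
theorem length_bits (d : D) : (bits d).length = size d := rfl

/-! ### Lists of polynomial length -/

theorem PTime.listMul {α β γ : Type} [Enc α] [Enc β] [Enc γ] {f : α → List β} {g : α → List γ}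
    (hf : PTime f) (hg : PTime g) :
    PTime (fun x => (f x).flatMap fun _ => (g x).map fun _ => ()) :=
  PTime.flatMap (g := fun x _ => (g x).map fun _ => ()) hf
    ((PTime.map (g := fun (_ : α × β) (_ : γ) => ()) (hg.comp PTime.fst) (PTime.const ())))

/-- For every polynomial `p`, a list of length `p.eval (f x).length` is computed in polynomial
time. -/
theorem PTime.unaryPoly {α β : Type} [Enc α] [Enc β] {f : α → List β} (hf : PTime f)
    (p : Polynomial ℕ) : PTime (fun x => List.replicate (p.eval (f x).length) ()) := by
  induction p using Polynomial.induction_on' with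
  | add p q hp hq =>
    refine (hp.append hq).of_eq fun x => ?_
    rw [Polynomial.eval_add, List.replicate_add]
  | monomial n c =>
    have hpow : PTime (fun x => List.replicate ((f x).length ^ n) ()) := by
      induction n with
      | zero => exact (PTime.const [()]).of_eq fun x => by simp
      | succ n ih =>
        refine (PTime.listMul ih hf).of_eq fun x => ?_
        rw [List.eq_replicate_iff]
        refine ⟨?_, fun b _ => rfl⟩
        simp [List.length_flatMap, pow_succ]
    have hmul : ∀ c : ℕ, PTime (fun x => List.replicate (c * (f x).length ^ n) ()) := by
      intro c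
      induction c with
      | zero => exact (PTime.const []).of_eq fun x => by simp
      | succ c ih =>
        refine (ih.append hpow).of_eq fun x => ?_
        rw [Nat.add_one_mul, List.replicate_add]
    refine (hmul c).of_eq fun x => ?_
    rw [Polynomial.eval_monomial]

/-- For every polynomially bounded `T`, a list of length at least `T (size (enc x))` is computed in
polynomial time. -/
theorem PTime.clock {α : Type} [Enc α] {T : ℕ → ℕ} (hT : PBd T) :
    ∃ c : α → List Unit, PTime c ∧ ∀ x, T (size (enc x)) ≤ (c x).length := by
  obtain ⟨p, hp⟩ := hT
  refine ⟨_, PTime.unaryPoly (PTime.bits' (PTime.id (α := α))) p, fun x => ?_⟩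
  rw [List.length_replicate]
  exact hp _

end Pool.Agent.PolyTime
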