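import Pool.Agent.Lib.PolyTime.More

/-!
# Finite types: every function on a finite type is polynomial-time; functions on `Fin n`
-/

namespace Pool.Agent.PolyTime

section finite
variable {α β γ σ : Type} [Enc α] [Enc β] [Enc γ] [Enc σ]

/-- Case distinction over a finite (injectively encoded) type. -/
theorem PTime.finite_cases [Finite α] [EncInj α] {f : α → β → γ} (hf : ∀ a, PTime (f a)) :
    PTime (fun p : α × β => f p.1 p.2) := by
  classical
  rcases isEmpty_or_nonempty α with hα | ⟨⟨a0⟩⟩
  · have : PTime (fun p : α × β => p) := PTime.id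
    obtain ⟨P, p, h⟩ : ∃ P : SP, ∃ p : Polynomial ℕ, ∀ (x : α × β) (m a b c : List Bool),
      Runs P (mk (bits (enc x) ++ m) a b c) (mk (bits (enc (f x.1 x.2)) ++ m) a b c)
        (p.eval (size (enc x))) := ⟨SP.skip, 0, fun x => hα.elim x.1⟩
    exact PTime.intro P ⟨p, fun _ => le_refl _⟩ h
  · have := Fintype.ofFinite α
    have key : ∀ l : List α, ∃ g : α × β → γ, PTime g ∧ ∀ a ∈ l, ∀ b, g (a, b) = f a b := by
      intro l
      induction l with
      | nil => exact ⟨fun p => f a0 p.2, (hf a0).comp PTime.snd, by simp⟩
      | cons a l ih =>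
        obtain ⟨g, hg, hgl⟩ := ih
        refine ⟨fun p => if p.1 = a then f a p.2 else g p, ?_, ?_⟩
        · exact PTime.iteP (PTime.eq PTime.fst (PTime.const a)) ((hf a).comp PTime.snd) hg
        · intro x hx b
          by_cases h : x = a
          · simp [h]
          · simp only [h, if_false]
            exact hgl x ((List.mem_cons.1 hx).resolve_left h) b
    obtain ⟨g, hg, hgl⟩ := key (Finset.univ : Finset α).toList
    exact hg.of_eq fun p => hgl p.1 (by simp) p.2

/-- Every function on a finite (injectively encoded) type is polynomial-time. -/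
theorem PTime.of_finite [Finite α] [EncInj α] (f : α → β) : PTime f :=
  (PTime.finite_cases (β := Unit) (f := fun a _ => f a) fun a => PTime.const (f a)).comp
    (PTime.id.pair (PTime.const ()))

theorem PTime.finite_cases' [Finite α] [EncInj α] {f : α → β → γ} {g : σ → α} {h : σ → β}
    (hf : ∀ a, PTime (f a)) (hg : PTime g) (hh : PTime h) :
    PTime (fun x => f (g x) (h x)) :=
  (PTime.finite_cases hf).comp (hg.pair hh)

end finite

/-! ### `Fin n` and functions on `Fin n` -/

instance (n : ℕ) : Enc (Fin n) := ⟨fun i => enc (i : ℕ)⟩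

instance (n : ℕ) : EncInj (Fin n) :=
  ⟨fun _ _ h => Fin.ext (EncInj.inj (α := ℕ) h)⟩

instance {n : ℕ} {β : Type} [Enc β] : Enc (Fin n → β) := ⟨fun f => enc (List.ofFn f)⟩

instance {n : ℕ} {β : Type} [Enc β] [EncInj β] : EncInj (Fin n → β) :=
  ⟨fun _ _ h => List.ofFn_injective (EncInj.inj (α := List β) h)⟩

/-- An encoding of an arbitrary finite type. -/
@[reducible] noncomputable def finEnc (α : Type) [Finite α] : Enc α :=
  ⟨fun a => enc (Finite.equivFin α a)⟩

theorem finEnc_inj (α : Type) [Finite α] : @EncInj α (finEnc α) :=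
  @EncInj.mk α (finEnc α) fun _ _ h =>
    (Finite.equivFin α).injective (EncInj.inj (α := Fin (Nat.card α)) h)

section fn
variable {α β γ : Type} [Enc α] [Enc β] [Enc γ]

theorem PTime.finVal {n : ℕ} {f : α → Fin n} (hf : PTime f) : PTime (fun x => (f x : ℕ)) :=
  hf.of_enc_eq (fun x => x) (fun _ => rfl) (fun _ => rfl)

theorem PTime.finMk {n : ℕ} {f : α → Fin n} (hf : PTime (fun x => (f x : ℕ))) : PTime f :=
  hf.of_enc_eq (fun x => x) (fun _ => rfl) (fun _ => rfl)

theorem PTime.ofFnList {n : ℕ} {f : Fin n → α → β} (hf : ∀ i, PTime (f i)) :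
    PTime (fun x => List.ofFn fun i => f i x) := by
  induction n with
  | zero => exact (PTime.const []).of_eq fun x => by simp
  | succ n ih =>
    refine ((hf 0).cons (ih fun i => hf i.succ)).of_eq fun x => ?_
    rw [List.ofFn_succ]

/-- Build a function on `Fin n` from its polynomial-time components. -/
theorem PTime.mkFn {n : ℕ} {f : Fin n → α → β} (hf : ∀ i, PTime (f i)) :
    PTime (fun x => (fun i => f i x : Fin n → β)) :=
  (PTime.ofFnList hf).of_enc_eq (fun x => x) (fun _ => rfl) (fun _ => rfl)

theorem PTime.dropConst {f : α → List β} (hf : PTime f) (k : ℕ) :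
    PTime (fun x => (f x).drop k) := by
  induction k with
  | zero => exact hf.of_eq fun x => by simp
  | succ k ih => exact ih.tail.of_eq fun x => by simp [List.tail_drop]

theorem PTime.getConst? {f : α → List β} (hf : PTime f) (k : ℕ) :
    PTime (fun x => (f x)[k]?) :=
  (hf.dropConst k).head?.of_eq fun x => by simp

/-- Evaluate a function on `Fin n` at a fixed argument. -/
theorem PTime.appFn {n : ℕ} {f : α → (Fin n → β)} (hf : PTime f) (i : Fin n) :
    PTime (fun x => f x i) := by
  have h1 : PTime (fun x => List.ofFn (f x)) :=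
    hf.of_enc_eq (fun x => x) (fun _ => rfl) (fun _ => rfl)
  have h2 := h1.getConst? i
  have h3 : PTime (fun x => Option.some (f x i)) := h2.of_eq fun x => by simp
  refine (PTime.fst' (h3.of_enc_eq (g := fun x => ((f x i, ()) : β × Unit)) (fun x => x)
    (fun _ => rfl) (fun _ => rfl)))

/-- Evaluate a function on `Fin n` at a computed argument. -/
theorem PTime.appFn' {n : ℕ} {f : α → (Fin n → β)} {g : α → Fin n} (hf : PTime f)
    (hg : PTime g) : PTime (fun x => f x (g x)) :=
  PTime.finite_cases' (f := fun (i : Fin n) (F : Fin n → β) => F i)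
    (fun i => PTime.appFn PTime.id i) hg hf

/-- Update at a fixed place. -/
theorem PTime.updateFn {n : ℕ} {f : α → (Fin n → β)} {g : α → β} (hf : PTime f) (i : Fin n)
    (hg : PTime g) : PTime (fun x => Function.update (f x) i (g x)) := by
  have : ∀ j : Fin n, PTime (fun x => Function.update (f x) i (g x) j) := by
    intro j
    by_cases h : j = i
    · subst h
      exact hg.of_eq fun x => by simp
    · exact (hf.appFn j).of_eq fun x => by simp [Function.update_of_ne h]
  exact PTime.mkFn this

/-- Map over a constant list of functions. -/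
theorem PTime.constList {ι : Type} (l : List ι) {f : ι → α → β} (hf : ∀ i ∈ l, PTime (f i)) :
    PTime (fun x => l.map fun i => f i x) := by
  induction l with
  | nil => exact PTime.const []
  | cons i l ih =>
    exact (hf i (by simp)).cons (ih fun j hj => hf j (by simp [hj]))

/-- Flat map over a constant list of functions. -/
theorem PTime.constFlatMap {ι : Type} (l : List ι) {f : ι → α → List β}
    (hf : ∀ i ∈ l, PTime (f i)) : PTime (fun x => l.flatMap fun i => f i x) := by
  induction l with
  | nil => exact PTime.const []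
  | cons i l ih =>
    refine ((hf i (by simp)).append (ih fun j hj => hf j (by simp [hj]))).of_eq fun x => ?_
    simp

theorem PTime.flatten {f : α → List (List β)} (hf : PTime f) : PTime (fun x => (f x).flatten) :=
  (PTime.flatMap (g := fun _ l => l) hf PTime.snd).of_eq fun x => by
    simp

end fn

end Pool.Agent.PolyTime
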