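import Pool.Agent.Lib.PolyTime.Lists

/-!
# More polynomial-time functions: conditionals on propositions, zip, natural numbers in binary
-/

namespace Pool.Agent.PolyTime

section
variable {α β γ σ : Type} [Enc α] [Enc β] [Enc γ] [Enc σ]

theorem PTime.fst' {f : α → β × γ} (hf : PTime f) : PTime (fun a => (f a).1) :=
  PTime.fst.comp hf

theorem PTime.snd' {f : α → β × γ} (hf : PTime f) : PTime (fun a => (f a).2) :=
  PTime.snd.comp hf

theorem PTime.iteP {c : α → Prop} [DecidablePred c] {g h : α → γ}
    (hc : PTime (fun a => decide (c a))) (hg : PTime g) (hh : PTime h) :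
    PTime (fun a => if c a then g a else h a) :=
  (PTime.ite hc hg hh).of_eq fun a => by by_cases h : c a <;> simp [h]

theorem PTime.andP {c d : α → Prop} [DecidablePred c] [DecidablePred d]
    [DecidablePred fun a => c a ∧ d a]
    (hc : PTime (fun a => decide (c a))) (hd : PTime (fun a => decide (d a))) :
    PTime (fun a => decide (c a ∧ d a)) :=
  (hc.and hd).of_eq fun a => by by_cases h : c a <;> by_cases h' : d a <;> simp [h, h']

theorem PTime.orP {c d : α → Prop} [DecidablePred c] [DecidablePred d]
    [DecidablePred fun a => c a ∨ d a]
    (hc : PTime (fun a => decide (c a))) (hd : PTime (fun a => decide (d a))) :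
    PTime (fun a => decide (c a ∨ d a)) :=
  (hc.or hd).of_eq fun a => by by_cases h : c a <;> by_cases h' : d a <;> simp [h, h']

theorem PTime.notP {c : α → Prop} [DecidablePred c] [DecidablePred fun a => ¬ c a]
    (hc : PTime (fun a => decide (c a))) : PTime (fun a => decide (¬ c a)) :=
  hc.not.of_eq fun a => by by_cases h : c a <;> simp [h]

theorem PTime.xor {f g : α → Bool} (hf : PTime f) (hg : PTime g) :
    PTime (fun a => Bool.xor (f a) (g a)) :=
  (PTime.ite hf hg.not hg).of_eq fun a => by
    cases f a <;> cases g a <;> rfl

theorem PTime.boolP {f : α → Bool} (hf : PTime f) : PTime (fun a => decide (f a = true)) :=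
  hf.of_eq fun a => by cases f a <;> simp

/-! ### zip -/

/-- one step of zipping -/
def zipStep (s : List γ × List (β × γ)) (x : β) : List γ × List (β × γ) :=
  match s.1 with
  | [] => s
  | y :: r => (r, (x, y) :: s.2)

omit [Enc β] [Enc γ] in
theorem zipStep_fold (l : List β) : ∀ (r : List γ) (acc : List (β × γ)),
    (l.foldl zipStep (r, acc)).2 = (l.zip r).reverse ++ acc := by
  induction l with
  | nil => intro r acc; simp
  | cons x l ih =>
    intro r acc
    rw [List.foldl_cons]
    cases r with
    | nil =>
      have : zipStep (([] : List γ), acc) x = ([], acc) := rfl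
      rw [this, ih]; simp
    | cons y r =>
      have : zipStep (y :: r, acc) x = (r, (x, y) :: acc) := rfl
      rw [this, ih]; simp

theorem zipStep_size (l : List β) : ∀ (r : List γ) (acc : List (β × γ)),
    size (enc (l.foldl zipStep (r, acc))) ≤ size (enc l) + size (enc r) + size (enc acc) + 1 := by
  induction l with
  | nil => intro r acc; rw [List.foldl_nil, size_pair]; omega
  | cons x l ih =>
    intro r acc
    rw [List.foldl_cons]
    cases r with
    | nil =>
      have : zipStep (([] : List γ), acc) x = ([], acc) := rfl
      rw [this]
      have := ih [] acc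
      rw [size_lcons]
      omega
    | cons y r =>
      have : zipStep (y :: r, acc) x = (r, (x, y) :: acc) := rfl
      rw [this]
      have := ih r ((x, y) :: acc)
      rw [size_lcons (x, y) acc, size_pair x y] at this
      rw [size_lcons, size_lcons]
      omega

theorem PTime.zip {f : α → List β} {g : α → List γ} (hf : PTime f) (hg : PTime g) :
    PTime (fun a => (f a).zip (g a)) := by
  obtain ⟨F, hF, hFm, hFs⟩ := hf.size_le
  obtain ⟨G, hG, hGm, hGs⟩ := hg.size_le
  have hstep : PTime (fun p : α × ((List γ × List (β × γ)) × β) => zipStep p.2.1 p.2.2) := by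
    have e1 : PTime (fun p : α × ((List γ × List (β × γ)) × β) => p.2.1.1) :=
      PTime.fst.comp (PTime.fst.comp PTime.snd)
    have e2 : PTime (fun p : α × ((List γ × List (β × γ)) × β) => p.2.1) :=
      PTime.fst.comp PTime.snd
    have e3 : PTime (fun p : (α × ((List γ × List (β × γ)) × β)) × (γ × List γ) =>
        (p.2.2, (p.1.2.2, p.2.1) :: p.1.2.1.2)) := by
      refine PTime.pair (PTime.snd' PTime.snd) (PTime.cons (PTime.pair ?_ ?_) ?_)
      · exact PTime.snd' (PTime.snd' PTime.fst)
      · exact PTime.fst' PTime.snd
      · exact PTime.snd' (PTime.fst' (PTime.snd' PTime.fst))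
    refine (PTime.list_cases e1 e2 e3).of_eq fun p => ?_
    unfold zipStep
    rcases p with ⟨a, ⟨⟨r, acc⟩, x⟩⟩
    cases r <;> rfl
  have hfold : PTime (fun a => (f a).foldl zipStep (g a, [])) := by
    refine PTime.foldl (h := fun _ s x => zipStep s x) hf (hg.pair (PTime.const [])) hstep
      (B := fun n => F n + G n + 2) ((hF.add hG).add (PBd.const 2)) ?_
    intro a l₁ l₂ h
    change size (enc (l₁.foldl zipStep (g a, []))) ≤ _
    have h1 := zipStep_size l₁ (g a) []
    have h2 : size (enc l₁) ≤ size (enc (f a)) := size_sublist (by rw [h]; simp)
    have h3 := hFs a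
    have h4 := hGs a
    simp only [enc_nil, size_nil] at h1
    omega
  refine (hfold.snd').reverse.of_eq fun a => ?_
  rw [zipStep_fold]
  simp

/-! ### Natural numbers in binary -/

/-- binary successor on lists of digits, least significant first -/
def bsucc : List Bool → List Bool
  | [] => [true]
  | false :: l => true :: l
  | true :: l => false :: bsucc l

theorem bits_succ (n : ℕ) : (n + 1).bits = bsucc n.bits := by
  induction n using Nat.binaryRec' with
  | zero => simp [bsucc]
  | bit b n h ih =>
    cases b
    · have e : Nat.bit false n + 1 = Nat.bit true n := by simp [Nat.bit_val]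
      have hn : n ≠ 0 := fun h0 => by simp [h0] at h
      rw [e, Nat.bits_append_bit n true (by simp), Nat.bits_append_bit n false (by simp [hn])]
      rfl
    · have e : Nat.bit true n + 1 = Nat.bit false (n + 1) := by simp [Nat.bit_val]; ring
      rw [e, Nat.bits_append_bit (n + 1) false (by simp), Nat.bits_append_bit n true (by simp), ih]
      rfl

/-- one step of the binary successor: (output in reverse, carry) -/
def bsuccStep (s : List Bool × Bool) (b : Bool) : List Bool × Bool :=
  if s.2 = true then (if b = true then (false :: s.1, true) else (true :: s.1, false))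
  else (b :: s.1, false)

/-- final step of the binary successor -/
def bsuccFin (s : List Bool × Bool) : List Bool :=
  (if s.2 = true then true :: s.1 else s.1).reverse

theorem bsuccStep_fold (l : List Bool) : ∀ (acc : List Bool),
    bsuccFin (l.foldl bsuccStep (acc, true)) = acc.reverse ++ bsucc l ∧
    l.foldl bsuccStep (acc, false) = (l.reverse ++ acc, false) := by
  induction l with
  | nil => intro acc; simp [bsucc, bsuccFin]
  | cons b l ih =>
    intro acc
    constructor
    · cases b
      · have : (false :: l).foldl bsuccStep (acc, true) = l.foldl bsuccStep (true :: acc, false) :=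
          rfl
        rw [this, (ih (true :: acc)).2]
        simp [bsucc, bsuccFin]
      · have : (true :: l).foldl bsuccStep (acc, true) = l.foldl bsuccStep (false :: acc, true) :=
          rfl
        rw [this, (ih (false :: acc)).1]
        simp [bsucc]
    · have : (b :: l).foldl bsuccStep (acc, false) = l.foldl bsuccStep (b :: acc, false) := rfl
      rw [this, (ih (b :: acc)).2]
      simp

theorem bsuccStep_size (l : List Bool) : ∀ s : List Bool × Bool,
    size (enc (l.foldl bsuccStep s)) ≤ size (enc s) + 4 * l.length + 2 := by
  have key : ∀ (l : List Bool) (s : List Bool × Bool),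
      size (enc (l.foldl bsuccStep s).1) ≤ size (enc s.1) + 4 * l.length := by
    intro l
    induction l with
    | nil => intro s; simp
    | cons b l ih =>
      intro s
      rw [List.foldl_cons, List.length_cons]
      refine (ih _).trans ?_
      have : size (enc (bsuccStep s b).1) ≤ size (enc s.1) + 4 := by
        obtain ⟨s1, s2⟩ := s
        cases s2 <;> cases b <;>
          simp [bsuccStep, size_lcons, enc_true, enc_false, size_cons, size_nil] <;> omega
      omega
  intro s
  have h1 := key l s
  have h2 : size (enc (l.foldl bsuccStep s)) = size (enc (l.foldl bsuccStep s).1) +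
      size (enc (l.foldl bsuccStep s).2) + 1 := size_pair _ _
  have h3 : size (enc s) = size (enc s.1) + size (enc s.2) + 1 := size_pair _ _
  have h4 : size (enc (l.foldl bsuccStep s).2) ≤ 3 := by
    cases (l.foldl bsuccStep s).2 <;> simp [enc_true, enc_false]
  have h5 : 1 ≤ size (enc s.2) := size_pos _
  omega

theorem PTime.bsucc : PTime bsucc := by
  have hstep : PTime (fun p : List Bool × ((List Bool × Bool) × Bool) =>
      bsuccStep p.2.1 p.2.2) := by
    have e1 : PTime (fun p : List Bool × ((List Bool × Bool) × Bool) => p.2.1.2) :=
      PTime.snd' (PTime.fst' PTime.snd)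
    have e2 : PTime (fun p : List Bool × ((List Bool × Bool) × Bool) => p.2.2) :=
      PTime.snd' PTime.snd
    have e3 : PTime (fun p : List Bool × ((List Bool × Bool) × Bool) => p.2.1.1) :=
      PTime.fst' (PTime.fst' PTime.snd)
    exact PTime.ite e1 (PTime.ite e2 (((PTime.const false).cons e3).pair (PTime.const true))
      (((PTime.const true).cons e3).pair (PTime.const false))) ((e2.cons e3).pair
        (PTime.const false))
  have hfold : PTime (fun l : List Bool => l.foldl bsuccStep ([], true)) := by
    refine PTime.foldl (h := fun _ s x => bsuccStep s x) PTime.id (PTime.const _) hstep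
      (B := fun n => 5 + 4 * n + 2) (((PBd.const 5).add ((PBd.const 4).mul PBd.id)).add
        (PBd.const 2)) ?_
    intro a l₁ l₂ h
    change size (enc (l₁.foldl bsuccStep ([], true))) ≤ _
    have h1 := bsuccStep_size l₁ ([], true)
    have h2 : l₁.length ≤ a.length := by rw [h]; simp
    have h3 := length_le_size a
    simp only [size_pair, enc_nil, enc_true, size_cons, size_nil] at h1
    omega
  have hfin := (PTime.ite hfold.snd' ((PTime.const true).cons hfold.fst') hfold.fst').reverse
  refine hfin.of_eq fun l => ?_
  have := (bsuccStep_fold l []).1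
  simpa [bsuccFin] using this

theorem PTime.succ {f : α → ℕ} (hf : PTime f) : PTime (fun a => f a + 1) := by
  have h : PTime (fun n : ℕ => n + 1) :=
    PTime.bsucc.of_enc_eq (fun n : ℕ => n.bits) (fun _ => rfl) fun n => by
      change enc (n + 1).bits = _
      rw [bits_succ]
  exact h.comp hf

theorem size_nat_le (n : ℕ) : size (enc n) ≤ 4 * n + 1 := by
  have h1 : ∀ l : List Bool, size (enc l) ≤ 4 * l.length + 1 := by
    intro l
    induction l with
    | nil => simp [enc_nil]
    | cons b l ih =>
      rw [size_lcons, List.length_cons]
      cases b <;> simp only [enc_true, enc_false, size_cons, size_nil] <;> omega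
  have h2 : n.bits.length ≤ n := by
    rw [Nat.size_eq_bits_len]
    exact Nat.size_le.2 Nat.lt_two_pow_self
  have := h1 n.bits
  change size (enc n.bits) ≤ _
  omega

/-- `List.range` of the length of a list. -/
theorem PTime.rangeLength {f : α → List β} (hf : PTime f) :
    PTime (fun a => List.range (f a).length) := by
  have hstep : PTime (fun p : List β × ((ℕ × List ℕ) × β) =>
      (p.2.1.1 + 1, p.2.1.1 :: p.2.1.2)) := by
    have e1 : PTime (fun p : List β × ((ℕ × List ℕ) × β) => p.2.1.1) :=
      PTime.fst' (PTime.fst' PTime.snd)
    have e2 : PTime (fun p : List β × ((ℕ × List ℕ) × β) => p.2.1.2) :=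
      PTime.snd' (PTime.fst' PTime.snd)
    exact e1.succ.pair (e1.cons e2)
  have hfoldeq : ∀ (l : List β), l.foldl (fun (s : ℕ × List ℕ) (_ : β) => (s.1 + 1, s.1 :: s.2))
      (0, []) = (l.length, (List.range l.length).reverse) := by
    intro l
    induction l using List.reverseRecOn with
    | nil => rfl
    | append_singleton l x ih =>
      rw [List.foldl_append, ih, List.length_append, List.length_singleton, List.range_succ,
        List.reverse_append]
      rfl
  have hfold : PTime (fun l : List β => l.foldl (fun (s : ℕ × List ℕ) (_ : β) =>
      (s.1 + 1, s.1 :: s.2)) (0, [])) := by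
    refine PTime.foldl (h := fun _ s _ => (s.1 + 1, s.1 :: s.2)) PTime.id (PTime.const _) hstep
      (B := fun n => (4 * n + 1) + (n * (4 * n + 2) + 1) + 1) ?_ ?_
    · have h4 : PBd fun n => 4 * n := (PBd.const 4).mul PBd.id
      exact ((h4.add (PBd.const 1)).add ((PBd.id.mul (h4.add (PBd.const 2))).add
        (PBd.const 1))).add (PBd.const 1)
    · intro a l₁ l₂ h
      have h2 : l₁.length ≤ a.length := by rw [h]; simp
      have h3 := length_le_size a
      change size (enc (l₁.foldl (fun (s : ℕ × List ℕ) (_ : β) => (s.1 + 1, s.1 :: s.2))
        (0, []))) ≤ _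
      rw [hfoldeq, size_pair]
      have h4 := size_nat_le l₁.length
      have h5 := size_list_le (List.range l₁.length).reverse (4 * l₁.length + 1) (by
        intro x hx
        rw [List.mem_reverse, List.mem_range] at hx
        have := size_nat_le x
        omega)
      rw [List.length_reverse, List.length_range] at h5
      have h6 : l₁.length * (4 * l₁.length + 1 + 1) ≤ size (enc a) * (4 * size (enc a) + 2) :=
        Nat.mul_le_mul (by omega) (by omega)
      omega
  have := (hfold.snd').reverse
  refine (this.comp hf).of_eq fun a => ?_
  rw [hfoldeq]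
  simp

instance : EncInj ℕ := ⟨fun a b h => by
  have h' : enc a.bits = enc b.bits := h
  have h1 := EncInj.inj h'
  have key : ∀ n m : ℕ, n.bits = m.bits → n = m := by
    intro n
    induction n using Nat.binaryRec' with
    | zero =>
      intro m hm
      by_contra hne
      have : m.bits ≠ [] := by
        intro h0
        have := Nat.size_eq_bits_len m
        rw [h0] at this
        simp at this
        have h2 := Nat.size_eq_zero.1 this.symm
        exact hne h2.symm
      exact this (by rw [← hm]; simp)
    | bit b n h ih =>
      intro m hm
      induction m using Nat.binaryRec' with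
      | zero =>
        rw [Nat.bits_append_bit n b h] at hm
        simp at hm
      | bit b' m h' _ =>
        rw [Nat.bits_append_bit n b h, Nat.bits_append_bit m b' h'] at hm
        simp only [List.cons.injEq] at hm
        rw [hm.1, ih m hm.2]
  exact key a b h1⟩

instance : EncInj ℤ := ⟨fun a b h => by
  have h1 := EncInj.inj (show enc (decide (a < 0), a.natAbs) = enc (decide (b < 0), b.natAbs)
    from h)
  simp only [Prod.mk.injEq, decide_eq_decide] at h1
  omega⟩

instance : EncInj ℚ := ⟨fun a b h => by
  have h1 := EncInj.inj (show enc (a.num, a.den) = enc (b.num, b.den) from h)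
  simp only [Prod.mk.injEq] at h1
  exact Rat.ext h1.1 h1.2⟩

end

end Pool.Agent.PolyTime
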