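import Mathlib

/-!
# Encodings of finite data and polynomial-time computability

* `D`: finite binary trees, used as universal finite data (as S-expressions in Lisp);
* `bits`: the code of a tree as a word over `{0, 1}`;
* `Enc`: types whose elements are encoded by trees (numbers in binary);
* `IsPolyTime ea eb f`: the function `f`, between types encoded by `ea` and `eb`, is computed by
  a (bundled, multi-stack) Turing machine of Mathlib in polynomial time.
-/

namespace Pool.Agent.PolyTime

/-- Binary trees, used as universal finite data. -/
inductive D
  | nil : D
  | cons (a b : D) : D
  deriving DecidableEq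

/-- Bit code of a tree: `nil` is `0`, and `cons a b` is `1` followed by the codes of `a`
and `b`. -/
def bits : D → List Bool
  | D.nil => [false]
  | D.cons a b => true :: (bits a ++ bits b)

/-- Types with an encoding by trees. -/
class Enc (α : Type) where
  enc : α → D

export Enc (enc)

instance : Enc D := ⟨fun d => d⟩
instance : Enc Unit := ⟨fun _ => D.nil⟩
instance : Enc Bool := ⟨fun b => if b then D.cons D.nil D.nil else D.nil⟩
instance {α β : Type} [Enc α] [Enc β] : Enc (α × β) := ⟨fun p => D.cons (enc p.1) (enc p.2)⟩
instance {α : Type} [Enc α] : Enc (Option α) :=
  ⟨fun o => match o with
    | none => D.nil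
    | some x => D.cons (enc x) D.nil⟩

/-- Encoding of lists. -/
def encList {α : Type} (e : α → D) : List α → D
  | [] => D.nil
  | x :: l => D.cons (e x) (encList e l)

instance {α : Type} [Enc α] : Enc (List α) := ⟨encList enc⟩

/-- Natural numbers are encoded in binary: the list of binary digits, least significant first. -/
instance : Enc ℕ := ⟨fun n => enc n.bits⟩

/-- Integers: sign (`true` for negative) and absolute value. -/
instance : Enc ℤ := ⟨fun z => enc (decide (z < 0), z.natAbs)⟩

/-- Rationals: numerator and denominator in lowest terms. -/
instance : Enc ℚ := ⟨fun q => enc (q.num, q.den)⟩

/-- A function between types with given encodings is polynomial-time computable: some Turing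
machine (in the sense of Mathlib's `Turing.TM2ComputableInPolyTime`) transforms the bit code of
every `x` into the bit code of `f x` within a number of steps bounded by a polynomial in the
length of the code of `x`. -/
def IsPolyTime {α β : Type} (ea : α → D) (eb : β → D) (f : α → β) : Prop :=
  Nonempty (Turing.TM2ComputableInPolyTime (fun x => bits (ea x)) (fun y => bits (eb y)) f)

end Pool.Agent.PolyTime
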