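import Pool.Agent.Lib.PolyTime.Data

/-!
# Polynomial-time functions between encoded types

`PTime f` says that a structured stack program transforms the code of `x` into the code of `f x`
in polynomially many steps.  We prove the basic closure properties, and that `PTime f` implies
polynomial-time computability in the sense of Mathlib's `Turing.TM2ComputableInPolyTime`.
-/

namespace Pool.Agent.PolyTime

open SP

/-! ### Polynomially bounded functions -/

theorem eval_mono (p : Polynomial ℕ) : Monotone fun n => p.eval n := by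
  intro a b hab
  simp only [Polynomial.eval_eq_sum_range]
  exact Finset.sum_le_sum fun i _ => Nat.mul_le_mul_left _ (Nat.pow_le_pow_left hab i)

/-- Bounded by a polynomial. -/
def PBd (T : ℕ → ℕ) : Prop := ∃ p : Polynomial ℕ, ∀ n, T n ≤ p.eval n

theorem PBd.const (k : ℕ) : PBd fun _ => k := ⟨Polynomial.C k, fun n => by simp⟩
theorem PBd.id : PBd fun n => n := ⟨Polynomial.X, fun n => by simp⟩
theorem PBd.add {S T : ℕ → ℕ} (hS : PBd S) (hT : PBd T) : PBd fun n => S n + T n := by
  obtain ⟨p, hp⟩ := hS
  obtain ⟨q, hq⟩ := hT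
  exact ⟨p + q, fun n => by rw [Polynomial.eval_add]; exact add_le_add (hp n) (hq n)⟩
theorem PBd.mul {S T : ℕ → ℕ} (hS : PBd S) (hT : PBd T) : PBd fun n => S n * T n := by
  obtain ⟨p, hp⟩ := hS
  obtain ⟨q, hq⟩ := hT
  exact ⟨p * q, fun n => by rw [Polynomial.eval_mul]; exact Nat.mul_le_mul (hp n) (hq n)⟩
theorem PBd.comp {S T : ℕ → ℕ} (hS : PBd S) (hT : PBd T) : PBd fun n => S (T n) := by
  obtain ⟨p, hp⟩ := hS
  obtain ⟨q, hq⟩ := hT
  exact ⟨p.comp q, fun n => by
    rw [Polynomial.eval_comp]; exact (hp _).trans (eval_mono p (hq n))⟩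
theorem PBd.mono {S T : ℕ → ℕ} (hT : PBd T) (h : ∀ n, S n ≤ T n) : PBd S := by
  obtain ⟨q, hq⟩ := hT
  exact ⟨q, fun n => (h n).trans (hq n)⟩
theorem PBd.pow {S : ℕ → ℕ} (hS : PBd S) (k : ℕ) : PBd fun n => S n ^ k := by
  obtain ⟨p, hp⟩ := hS
  exact ⟨p ^ k, fun n => by rw [Polynomial.eval_pow]; exact Nat.pow_le_pow_left (hp n) k⟩

/-! ### Encodings -/

section encsimp
variable {α β : Type} [Enc α] [Enc β]
theorem enc_D (d : D) : enc d = d := rfl
theorem enc_true : enc true = D.cons D.nil D.nil := rfl
theorem enc_false : enc false = D.nil := rfl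
theorem enc_pair (a : α) (b : β) : enc (a, b) = D.cons (enc a) (enc b) := rfl
theorem enc_none : enc (none : Option α) = D.nil := rfl
theorem enc_some (a : α) : enc (some a) = D.cons (enc a) D.nil := rfl
theorem enc_nil : enc ([] : List α) = D.nil := rfl
theorem enc_cons (a : α) (l : List α) : enc (a :: l) = D.cons (enc a) (enc l) := rfl
end encsimp

/-! ### `PTime` -/

/-- `f` is computed by a structured stack program in polynomial time. -/
def PTime {α β : Type} [Enc α] [Enc β] (f : α → β) : Prop :=
  ∃ P : SP, ∃ p : Polynomial ℕ, ∀ (x : α) (m a b c : List Bool),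
    Runs P (mk (bits (enc x) ++ m) a b c) (mk (bits (enc (f x)) ++ m) a b c)
      (p.eval (size (enc x)))

/-- total length of the stacks -/
def total (s : St) : ℕ := (s Reg.m).length + (s Reg.a).length + (s Reg.b).length +
  (s Reg.c).length

theorem total_mk (m a b c : List Bool) :
    total (mk m a b c) = m.length + a.length + b.length + c.length := rfl

theorem total_update_cons (s : St) (r : Reg) (x : Bool) :
    total (Function.update s r (x :: s r)) = total s + 1 := by
  rw [eq_mk s]; cases r <;> simp [total_mk] <;> omega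

theorem total_update_tail (s : St) (r : Reg) (x : Bool) (l : List Bool) (h : s r = x :: l) :
    total (Function.update s r l) ≤ total s := by
  rw [eq_mk s] at h ⊢; cases r <;> simp at h <;> simp [total_mk, h]

theorem Run.total_le {P : SP} {s s' : St} {t : ℕ} (h : Run P s s' t) :
    total s' ≤ total s + t := by
  induction h with
  | skip s => omega
  | push r b s => rw [total_update_cons]
  | seq _ _ ih₁ ih₂ => omega
  | pop_true h _ ih => have := total_update_tail _ _ _ _ h; omega
  | pop_false h _ ih => have := total_update_tail _ _ _ _ h; omega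
  | pop_nil h _ ih => omega
  | loop_true h _ _ ih₁ ih₂ => have := total_update_tail _ _ _ _ h; omega
  | loop_false h => have := total_update_tail _ _ _ _ h; omega
  | loop_nil h => omega

section
variable {α β γ δ : Type} [Enc α] [Enc β] [Enc γ] [Enc δ]

theorem PTime.intro {f : α → β} (P : SP) {T : ℕ → ℕ} (hT : PBd T)
    (h : ∀ (x : α) (m a b c : List Bool),
      Runs P (mk (bits (enc x) ++ m) a b c) (mk (bits (enc (f x)) ++ m) a b c)
        (T (size (enc x)))) : PTime f := by
  obtain ⟨p, hp⟩ := hT
  exact ⟨P, p, fun x m a b c => (h x m a b c).mono (hp _)⟩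

theorem PTime.elim {f : α → β} (hf : PTime f) : ∃ (P : SP) (T : ℕ → ℕ), PBd T ∧ Monotone T ∧
    (∀ (x : α) (m a b c : List Bool),
      Runs P (mk (bits (enc x) ++ m) a b c) (mk (bits (enc (f x)) ++ m) a b c)
        (T (size (enc x)))) ∧ ∀ x : α, size (enc (f x)) ≤ T (size (enc x)) := by
  obtain ⟨P, p, h⟩ := hf
  refine ⟨P, fun n => n + p.eval n, ⟨Polynomial.X + p, fun n => by simp⟩,
    fun a b hab => Nat.add_le_add hab (eval_mono p hab),
    fun x m a b c => (h x m a b c).mono (by simp), fun x => ?_⟩
  obtain ⟨t, ht, hr⟩ := h x [] [] [] []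
  have := hr.total_le
  simp only [total_mk, List.append_nil, List.length_nil, Nat.add_zero] at this
  change size (enc (f x)) ≤ size (enc x) + t at this
  simp only
  omega

theorem PTime.size_le {f : α → β} (hf : PTime f) :
    ∃ T : ℕ → ℕ, PBd T ∧ Monotone T ∧ ∀ x : α, size (enc (f x)) ≤ T (size (enc x)) := by
  obtain ⟨_, T, h1, h2, _, h4⟩ := hf.elim
  exact ⟨T, h1, h2, h4⟩

/-- Functions with the same codes. -/
theorem PTime.of_enc_eq {f : α → β} {g : γ → δ} (hf : PTime f) (i : γ → α)
    (hi : ∀ x, enc (i x) = enc x) (ho : ∀ x, enc (g x) = enc (f (i x))) : PTime g := by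
  obtain ⟨P, p, h⟩ := hf
  refine ⟨P, p, fun x m a b c => ?_⟩
  have := h (i x) m a b c
  rw [hi, ← ho] at this
  exact this

theorem PTime.of_eq {f g : α → β} (hf : PTime f) (h : ∀ x, f x = g x) : PTime g :=
  (funext h : f = g) ▸ hf

theorem PTime.id : PTime (fun x : α => x) :=
  PTime.intro skip (PBd.const 1) fun _ _ _ _ _ => Runs.skip _

theorem PTime.const (y : β) : PTime (fun _ : α => y) := by
  refine PTime.intro (drop.seq (pushWord (bits (enc y))))
    (T := fun n => (4 * n + 3) + (size (enc y) + 1)) ?_ ?_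
  · exact ((PBd.const 4).mul PBd.id |>.add (PBd.const 3)).add (PBd.const _)
  · intro x m a b c
    exact Runs.seq (drop_runs _ m a b c) (pushWord_runs _ m a b c)

theorem PTime.comp {f : β → γ} {g : α → β} (hf : PTime f) (hg : PTime g) :
    PTime (fun x => f (g x)) := by
  obtain ⟨P, S, hS, hSm, hP, hPs⟩ := hf.elim
  obtain ⟨Q, T, hT, hTm, hQ, hQs⟩ := hg.elim
  refine PTime.intro (Q.seq P) (T := fun n => T n + S (T n)) (hT.add (hS.comp hT)) ?_
  intro x m a b c
  exact Runs.seq (hQ x m a b c) ((hP (g x) m a b c).mono (hSm (hQs x)))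

theorem PTime.pair {f : α → β} {g : α → γ} (hf : PTime f) (hg : PTime g) :
    PTime (fun x => (f x, g x)) := by
  obtain ⟨P, S, hS, hSm, hP, hPs⟩ := hf.elim
  obtain ⟨Q, T, hT, hTm, hQ, hQs⟩ := hg.elim
  refine PTime.intro (dup.seq (P.seq (swap.seq (Q.seq (swap.seq (push Reg.m true))))))
    (T := fun n => (18 * n + 9) + (S n + ((9 * S n + 9 * n + 10) + (T n +
      ((9 * T n + 9 * S n + 10) + 1))))) ?_ ?_
  · have h9 : PBd fun _ => 9 := PBd.const 9
    have h10 : PBd fun _ => 10 := PBd.const 10
    exact (((PBd.const 18).mul PBd.id).add h9).add (hS.add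
      ((((h9.mul hS).add (h9.mul PBd.id)).add h10).add (hT.add
        ((((h9.mul hT).add (h9.mul hS)).add h10).add (PBd.const 1)))))
  · intro x m a b c
    have h1 := dup_runs (enc x) m a b c
    have h2 := hP x (bits (enc x) ++ m) a b c
    have h3 := swap_runs (enc (f x)) (enc x) m a b c
    have h4 := hQ x (bits (enc (f x)) ++ m) a b c
    have h5 := swap_runs (enc (g x)) (enc (f x)) m a b c
    have h6 : Runs (push Reg.m true) (mk (bits (enc (f x)) ++ (bits (enc (g x)) ++ m)) a b c)
        (mk (bits (enc (f x, g x)) ++ m) a b c) 1 := by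
      have := @Runs.push_m (bits (enc (f x)) ++ (bits (enc (g x)) ++ m)) a b c true
      simpa [bits, enc_pair] using this
    have hfx := hPs x
    have hgx := hQs x
    exact Runs.mono (Runs.seq h1 (Runs.seq h2 (Runs.seq h3 (Runs.seq h4 (Runs.seq h5 h6)))))
      (by omega)

theorem PTime.fst : PTime (fun p : α × β => p.1) := by
  refine PTime.intro ((pop Reg.m skip skip skip).seq (swap.seq drop))
    (T := fun n => 2 + ((9 * n + 9 * n + 10) + (4 * n + 3))) ?_ ?_
  · have h9 : PBd fun _ => 9 := PBd.const 9
    exact (PBd.const 2).add ((((h9.mul PBd.id).add (h9.mul PBd.id)).add (PBd.const 10)).add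
      (((PBd.const 4).mul PBd.id).add (PBd.const 3)))
  · rintro ⟨x, y⟩ m a b c
    have h1 : Runs (pop Reg.m skip skip skip) (mk (bits (enc (x, y)) ++ m) a b c)
        (mk (bits (enc x) ++ (bits (enc y) ++ m)) a b c) 2 := by
      have := @Runs.pop_m_true (bits (enc x) ++ (bits (enc y) ++ m)) a b c skip skip skip _ 1
        (Runs.skip _)
      simpa [bits, enc_pair] using this
    have h2 := swap_runs (enc x) (enc y) m a b c
    have h3 := drop_runs (enc y) (bits (enc x) ++ m) a b c
    have : size (enc (x, y)) = size (enc x) + size (enc y) + 1 := by simp [enc_pair]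
    exact Runs.mono (Runs.seq h1 (Runs.seq h2 h3)) (by omega)

theorem PTime.snd : PTime (fun p : α × β => p.2) := by
  refine PTime.intro ((pop Reg.m skip skip skip).seq drop)
    (T := fun n => 2 + (4 * n + 3)) ?_ ?_
  · exact (PBd.const 2).add (((PBd.const 4).mul PBd.id).add (PBd.const 3))
  · rintro ⟨x, y⟩ m a b c
    have h1 : Runs (pop Reg.m skip skip skip) (mk (bits (enc (x, y)) ++ m) a b c)
        (mk (bits (enc x) ++ (bits (enc y) ++ m)) a b c) 2 := by
      have := @Runs.pop_m_true (bits (enc x) ++ (bits (enc y) ++ m)) a b c skip skip skip _ 1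
        (Runs.skip _)
      simpa [bits, enc_pair] using this
    have h3 := drop_runs (enc x) (bits (enc y) ++ m) a b c
    have : size (enc (x, y)) = size (enc x) + size (enc y) + 1 := by simp [enc_pair]
    exact Runs.mono (Runs.seq h1 h3) (by omega)

/-! ### Case distinction -/

/-- Program for case distinction. -/
def caseProg (F G H : SP) : SP :=
  dup.seq (F.seq (pop Reg.m
    ((push Reg.m true).seq (swap.seq ((push Reg.m true).seq H))) G skip))

theorem caseProg_nil {F G H : SP} {x : D} {m a b c : List Bool} {s : St} {t t' : ℕ}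
    (hF : Runs F (mk (bits x ++ (bits x ++ m)) a b c) (mk (bits D.nil ++ (bits x ++ m)) a b c) t)
    (hG : Runs G (mk (bits x ++ m) a b c) s t') :
    Runs (caseProg F G H) (mk (bits x ++ m) a b c) s
      ((18 * size x + 9) + (t + (t' + 1))) :=
  Runs.seq (dup_runs x m a b c) (Runs.seq hF (Runs.pop_m_false hG))

theorem caseProg_cons {F G H : SP} {x u v : D} {m a b c : List Bool} {s : St} {t t' : ℕ}
    (hF : Runs F (mk (bits x ++ (bits x ++ m)) a b c)
      (mk (bits (D.cons u v) ++ (bits x ++ m)) a b c) t)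
    (hH : Runs H (mk (bits (D.cons x (D.cons u v)) ++ m) a b c) s t') :
    Runs (caseProg F G H) (mk (bits x ++ m) a b c) s
      ((18 * size x + 9) + (t + ((1 + ((9 * size (D.cons u v) + 9 * size x + 10) +
        (1 + t'))) + 1))) := by
  have h1 : Runs (push Reg.m true) (mk (bits u ++ (bits v ++ (bits x ++ m))) a b c)
      (mk (bits (D.cons u v) ++ (bits x ++ m)) a b c) 1 := by
    have := @Runs.push_m (bits u ++ (bits v ++ (bits x ++ m))) a b c true
    simpa [bits] using this
  have h2 : Runs (push Reg.m true) (mk (bits x ++ (bits (D.cons u v) ++ m)) a b c)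
      (mk (bits (D.cons x (D.cons u v)) ++ m) a b c) 1 := by
    have := @Runs.push_m (bits x ++ (bits (D.cons u v) ++ m)) a b c true
    simpa [bits] using this
  have h3 := swap_runs (D.cons u v) x m a b c
  have e : bits (D.cons u v) ++ (bits x ++ m) = true :: (bits u ++ (bits v ++ (bits x ++ m))) := by
    simp [bits]
  have hF' := hF
  rw [e] at hF'
  exact Runs.seq (dup_runs x m a b c) (Runs.seq hF' (Runs.pop_m_true
    (Runs.seq h1 (Runs.seq h3 (Runs.seq h2 hH)))))

/-- Core case lemma, at the level of codes. -/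
theorem PTime.case_core {f : α → β} {g : α → γ} {h : α × δ → γ} {r : α → γ}
    (hf : PTime f) (hg : PTime g) (hh : PTime h)
    (H : ∀ a, (enc (f a) = D.nil ∧ r a = g a) ∨
      ∃ d : δ, (∃ u v, enc d = D.cons u v) ∧ enc (f a) = enc d ∧ r a = h (a, d)) :
    PTime r := by
  obtain ⟨F, S, hS, hSm, hF, hFs⟩ := hf.elim
  obtain ⟨G, T, hT, hTm, hG, hGs⟩ := hg.elim
  obtain ⟨K, U, hU, hUm, hK, hKs⟩ := hh.elim
  refine PTime.intro (caseProg F G K)
    (T := fun n => ((18 * n + 9) + (S n + (T n + 1))) +
      ((18 * n + 9) + (S n + ((1 + ((9 * S n + 9 * n + 10) +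
        (1 + U (n + S n + 1)))) + 1)))) ?_ ?_
  · have h9 : PBd fun _ => 9 := PBd.const 9
    have h18 : PBd fun n => 18 * n + 9 := ((PBd.const 18).mul PBd.id).add h9
    exact (h18.add (hS.add (hT.add (PBd.const 1)))).add (h18.add (hS.add (((PBd.const 1).add
      ((((h9.mul hS).add (h9.mul PBd.id)).add (PBd.const 10)).add ((PBd.const 1).add
        (hU.comp ((PBd.id.add hS).add (PBd.const 1)))))).add (PBd.const 1))))
  · intro x m a b c
    rcases H x with ⟨h1, h2⟩ | ⟨d, ⟨u, v, huv⟩, h1, h2⟩
    · have hFx := hF x (bits (enc x) ++ m) a b c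
      rw [h1] at hFx
      rw [h2]
      exact Runs.mono (caseProg_nil hFx (hG x m a b c)) (Nat.le_add_right _ _)
    · have hFx := hF x (bits (enc x) ++ m) a b c
      rw [h1, huv] at hFx
      have hKx := hK (x, d) m a b c
      rw [enc_pair, huv] at hKx
      rw [h2]
      have hs : size (D.cons u v) ≤ S (size (enc x)) := by rw [← huv, ← h1]; exact hFs x
      refine Runs.mono (caseProg_cons hFx hKx) ?_
      have : U (size (D.cons (enc x) (D.cons u v))) ≤ U (size (enc x) + S (size (enc x)) + 1) :=
        hUm (by rw [size_cons]; omega)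
      omega

theorem PTime.ite {f : α → Bool} {g h : α → γ} (hf : PTime f) (hg : PTime g) (hh : PTime h) :
    PTime (fun a => if f a = true then g a else h a) := by
  refine PTime.case_core (δ := D) (h := fun p => g p.1) hf hh (hg.comp PTime.fst) ?_
  intro a
  cases hfa : f a
  · left; exact ⟨rfl, by simp⟩
  · right; exact ⟨D.cons D.nil D.nil, ⟨_, _, rfl⟩, rfl, by simp⟩

theorem PTime.list_cases {f : α → List β} {g : α → γ} {h : α × (β × List β) → γ}
    (hf : PTime f) (hg : PTime g) (hh : PTime h) :
    PTime (fun a => match f a with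
      | [] => g a
      | x :: l => h (a, (x, l))) := by
  refine PTime.case_core (δ := β × List β) (h := h) hf hg hh ?_
  intro a
  cases hfa : f a with
  | nil => left; exact ⟨by rw [enc_nil], rfl⟩
  | cons x l => right; exact ⟨(x, l), ⟨_, _, rfl⟩, rfl, rfl⟩

theorem PTime.option_cases {f : α → Option β} {g : α → γ} {h : α × β → γ}
    (hf : PTime f) (hg : PTime g) (hh : PTime h) :
    PTime (fun a => match f a with
      | none => g a
      | some x => h (a, x)) := by
  have hfst : PTime (fun p : α × (β × D) => p.1) := PTime.fst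
  have hs : PTime (fun p : α × (β × D) => p.2.1) := PTime.fst.comp PTime.snd
  refine PTime.case_core (δ := β × D) (h := fun p => h (p.1, p.2.1)) hf hg
    (hh.comp (hfst.pair hs)) ?_
  intro a
  cases hfa : f a with
  | none => left; exact ⟨by rw [enc_none], rfl⟩
  | some x => right; exact ⟨(x, D.nil), ⟨_, _, rfl⟩, rfl, rfl⟩

theorem PTime.D_cases {f : α → D} {g : α → γ} {h : α × (D × D) → γ}
    (hf : PTime f) (hg : PTime g) (hh : PTime h) :
    PTime (fun a => match f a with
      | D.nil => g a
      | D.cons x y => h (a, (x, y))) := by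
  refine PTime.case_core (δ := D × D) (h := h) hf hg hh ?_
  intro a
  cases hfa : f a with
  | nil => left; exact ⟨rfl, rfl⟩
  | cons x l => right; exact ⟨(x, l), ⟨_, _, rfl⟩, rfl, rfl⟩

theorem PTime.cons {f : α → β} {g : α → List β} (hf : PTime f) (hg : PTime g) :
    PTime (fun a => f a :: g a) :=
  (hf.pair hg).of_enc_eq (fun x => x) (fun _ => rfl) (fun _ => rfl)

theorem PTime.dcons {f : α → D} {g : α → D} (hf : PTime f) (hg : PTime g) :
    PTime (fun a => D.cons (f a) (g a)) :=
  (hf.pair hg).of_enc_eq (fun x => x) (fun _ => rfl) (fun _ => rfl)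

theorem PTime.some {f : α → β} (hf : PTime f) : PTime (fun a => some (f a)) :=
  (hf.pair (PTime.const D.nil)).of_enc_eq (fun x => x) (fun _ => rfl) (fun _ => rfl)

/-- The encoding itself is trivially computed. -/
theorem PTime.toD : PTime (fun a : α => enc a) :=
  PTime.id.of_enc_eq (fun x => x) (fun _ => rfl) (fun _ => rfl)

end

/-! ### Loops -/

section loops
variable {α σ : Type} [Enc α] [Enc σ]

/-- compute a Boolean condition and put it on the control stack -/
def flagProg (C : SP) : SP :=
  dup.seq (C.seq (pop Reg.m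
    ((pop Reg.m skip skip skip).seq ((pop Reg.m skip skip skip).seq (push Reg.c true)))
    (push Reg.c false) skip))

theorem flagProg_runs {C : SP} {x : D} {v : Bool} {m a b c : List Bool} {t : ℕ}
    (hC : Runs C (mk (bits x ++ (bits x ++ m)) a b c)
      (mk (bits (enc v) ++ (bits x ++ m)) a b c) t) :
    Runs (flagProg C) (mk (bits x ++ m) a b c) (mk (bits x ++ m) a b (v :: c))
      ((18 * size x + 9) + (t + 6)) := by
  cases v
  · exact Runs.mono (Runs.seq (dup_runs x m a b c)
      (Runs.seq hC (Runs.pop_m_false Runs.push_c))) (by omega)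
  · exact Runs.mono (Runs.seq (dup_runs x m a b c)
      (Runs.seq hC (Runs.pop_m_true (Runs.seq (Runs.pop_m_false (Runs.skip _))
        (Runs.seq (Runs.pop_m_false (Runs.skip _)) Runs.push_c))))) (by omega)

/-- The while loop. -/
def whileProg (C S : SP) : SP :=
  (flagProg C).seq (loop Reg.c (S.seq (flagProg C)))

theorem while_loop {C S : SP} {cond : σ → Bool} {step : σ → σ} {Tc Ts : ℕ → ℕ}
    (hTc : Monotone Tc) (hTs : Monotone Ts)
    (hC : ∀ (x : σ) (m a b c : List Bool),
      Runs C (mk (bits (enc x) ++ m) a b c) (mk (bits (enc (cond x)) ++ m) a b c)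
        (Tc (size (enc x))))
    (hS : ∀ (x : σ) (m a b c : List Bool),
      Runs S (mk (bits (enc x) ++ m) a b c) (mk (bits (enc (step x)) ++ m) a b c)
        (Ts (size (enc x)))) (B : ℕ) (m a b c : List Bool) :
    ∀ (n : ℕ) (x : σ), (∀ i < n, cond (step^[i] x) = true) → cond (step^[n] x) = false →
      (∀ i ≤ n, size (enc (step^[i] x)) ≤ B) →
      Runs (loop Reg.c (S.seq (flagProg C))) (mk (bits (enc x) ++ m) a b (cond x :: c))
        (mk (bits (enc (step^[n] x)) ++ m) a b c)
        (n * ((Ts B + ((18 * B + 9) + (Tc B + 6))) + 1) + 1) := by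
  intro n
  induction n with
  | zero =>
    intro x _ h2 _
    have : cond x = false := h2
    rw [this]
    exact Runs.mono Runs.loop_c_false (by omega)
  | succ n ih =>
    intro x h1 h2 h3
    have hx : cond x = true := h1 0 (Nat.succ_pos n)
    have ih' := ih (step x) (fun i hi => h1 (i + 1) (by omega)) h2
      (fun i hi => h3 (i + 1) (by omega))
    rw [hx]
    have hb0 : size (enc x) ≤ B := h3 0 (Nat.zero_le _)
    have hb1 : size (enc (step x)) ≤ B := h3 1 (by omega)
    have hSx := (hS x m a b c).mono (hTs hb0)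
    have hCx := (hC (step x) (bits (enc (step x)) ++ m) a b c).mono (hTc hb1)
    have hfl := flagProg_runs hCx
    refine Runs.mono (Runs.loop_c_true (Runs.seq hSx hfl) ih') ?_
    have : 18 * size (enc (step x)) ≤ 18 * B := Nat.mul_le_mul_left _ hb1
    have := Nat.add_one_mul n ((Ts B + ((18 * B + 9) + (Tc B + 6))) + 1)
    omega

/-- Iterating a polynomial-time step while a polynomial-time condition holds, provided the number
of iterations and the sizes of all intermediate states are polynomially bounded. -/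
theorem PTime.while {init : α → σ} {cond : σ → Bool} {step : σ → σ}
    (hi : PTime init) (hc : PTime cond) (hs : PTime step) (n : α → ℕ)
    (h1 : ∀ a, ∀ i < n a, cond (step^[i] (init a)) = true)
    (h2 : ∀ a, cond (step^[n a] (init a)) = false)
    {N B : ℕ → ℕ} (hN : PBd N) (hB : PBd B)
    (hn : ∀ a, n a ≤ N (size (enc a)))
    (hb : ∀ a, ∀ i ≤ n a, size (enc (step^[i] (init a))) ≤ B (size (enc a))) :
    PTime (fun a => step^[n a] (init a)) := by
  obtain ⟨I, Ti, hTi, hTim, hI, hIs⟩ := hi.elim
  obtain ⟨C, Tc, hTc, hTcm, hC, hCs⟩ := hc.elim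
  obtain ⟨S, Ts, hTs, hTsm, hS, hSs⟩ := hs.elim
  refine PTime.intro (I.seq (whileProg C S))
    (T := fun k => Ti k + (((18 * B k + 9) + (Tc (B k) + 6)) +
      (N k * ((Ts (B k) + ((18 * B k + 9) + (Tc (B k) + 6))) + 1) + 1))) ?_ ?_
  · have hf : PBd fun k => (18 * B k + 9) + (Tc (B k) + 6) :=
      (((PBd.const 18).mul hB).add (PBd.const 9)).add ((hTc.comp hB).add (PBd.const 6))
    exact hTi.add (hf.add ((hN.mul (((hTs.comp hB).add hf).add (PBd.const 1))).add (PBd.const 1)))
  · intro x m a b c
    have e1 := hI x m a b c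
    have hb0 : size (enc (init x)) ≤ B (size (enc x)) := hb x 0 (Nat.zero_le _)
    have e2 := flagProg_runs ((hC (init x) (bits (enc (init x)) ++ m) a b c).mono (hTcm hb0))
    have e3 := while_loop hTcm hTsm hC hS (B (size (enc x))) m a b c (n x) (init x)
      (h1 x) (h2 x) (hb x)
    refine Runs.mono (Runs.seq e1 (Runs.seq e2 e3)) ?_
    have h18 : 18 * size (enc (init x)) ≤ 18 * B (size (enc x)) := Nat.mul_le_mul_left _ hb0
    have hmul : n x * ((Ts (B (size (enc x))) + ((18 * B (size (enc x)) + 9) +
        (Tc (B (size (enc x))) + 6))) + 1) ≤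
        N (size (enc x)) * ((Ts (B (size (enc x))) + ((18 * B (size (enc x)) + 9) +
        (Tc (B (size (enc x))) + 6))) + 1) := Nat.mul_le_mul_right _ (hn x)
    omega

end loops

/-! ### Relation with Mathlib's notion -/

theorem PTime.isPolyTime {α β : Type} [Enc α] [Enc β] {f : α → β} (hf : PTime f) :
    IsPolyTime (enc : α → D) (enc : β → D) f := by
  obtain ⟨P, p, h⟩ := hf
  have key : ∀ x : α, Nonempty (Turing.TM2OutputsInTime (toTM P) (bits (enc x))
      (Option.some (bits (enc (f x)))) ((p + 1).eval (bits (enc x)).length)) := by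
    intro x
    obtain ⟨t, ht, hr⟩ := h x [] [] [] []
    simp only [List.append_nil] at hr
    obtain ⟨ho⟩ := toTM_outputs hr
    refine ⟨⟨ho.toEvalsTo, ho.steps_le_m.trans ?_⟩⟩
    rw [Polynomial.eval_add, Polynomial.eval_one]
    exact Nat.add_le_add_right ht 1
  have key' : ∀ (x : α) (l l' : List Bool), l = bits (enc x) → l' = bits (enc (f x)) →
      Nonempty (Turing.TM2OutputsInTime (toTM P) l (Option.some l')
        ((p + 1).eval (bits (enc x)).length)) := by
    rintro x _ _ rfl rfl
    exact key x
  exact ⟨{ tm := toTM P, inputAlphabet := Equiv.refl Bool, outputAlphabet := Equiv.refl Bool,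
            time := p + 1, outputsFun := fun x => Classical.choice
              (key' x _ _ (List.map_id _) (List.map_id _)) }⟩

attribute [irreducible] PTime

end Pool.Agent.PolyTime
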