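import Pool.Agent.Lib.PolyTime.Finite

/-!
# Encoding of sum types, and functions whose arguments range over a finite set
-/

namespace Pool.Agent.PolyTime

instance {α β : Type} [Enc α] [Enc β] : Enc (α ⊕ β) :=
  ⟨fun s => match s with
    | Sum.inl a => enc (false, a)
    | Sum.inr b => enc (true, b)⟩

instance {α β : Type} [Enc α] [Enc β] [EncInj α] [EncInj β] : EncInj (α ⊕ β) :=
  ⟨fun s t h => by
    cases s with
    | inl a => cases t with
      | inl b =>
        have := EncInj.inj (show enc (false, a) = enc (false, b) from h)
        rw [(Prod.mk.inj this).2]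
      | inr b => exact absurd (congrArg (fun d => match d with
          | D.nil => D.nil
          | D.cons x _ => x) (show enc (false, a) = enc (true, b) from h)) (by
            simp [enc_pair, enc_true, enc_false])
    | inr a => cases t with
      | inl b => exact absurd (congrArg (fun d => match d with
          | D.nil => D.nil
          | D.cons x _ => x) (show enc (true, a) = enc (false, b) from h)) (by
            simp [enc_pair, enc_true, enc_false])
      | inr b =>
        have := EncInj.inj (show enc (true, a) = enc (true, b) from h)
        rw [(Prod.mk.inj this).2]⟩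

section
variable {α β γ δ σ : Type} [Enc α] [Enc β] [Enc γ] [Enc δ] [Enc σ]

theorem PTime.inl {f : α → β} (hf : PTime f) : PTime (fun x => (Sum.inl (f x) : β ⊕ γ)) :=
  ((PTime.const false).pair hf).of_enc_eq (fun x => x) (fun _ => rfl) (fun _ => rfl)

theorem PTime.inr {f : α → γ} (hf : PTime f) : PTime (fun x => (Sum.inr (f x) : β ⊕ γ)) :=
  ((PTime.const true).pair hf).of_enc_eq (fun x => x) (fun _ => rfl) (fun _ => rfl)

/-- A function applied to an argument that ranges over a finite set. -/
theorem PTime.of_finite_set [EncInj β] {s : Set β} (hs : s.Finite) {h : α → β} (hh : PTime h)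
    (hmem : ∀ x, h x ∈ s) (f : β → γ) : PTime (fun x => f (h x)) := by
  classical
  rcases isEmpty_or_nonempty α with hα | ⟨⟨x0⟩⟩
  · exact PTime.intro (f := fun x => f (h x)) SP.skip (PBd.const 0) fun x => hα.elim x
  · have key : ∀ l : List β, ∃ g : β → γ, PTime g ∧ ∀ a ∈ l, g a = f a := by
      intro l
      induction l with
      | nil => exact ⟨fun _ => f (h x0), PTime.const _, by simp⟩
      | cons a l ih =>
        obtain ⟨g, hg, hgl⟩ := ih
        refine ⟨fun b => if b = a then f a else g b, ?_, ?_⟩
        · exact PTime.iteP (PTime.eq PTime.id (PTime.const a)) (PTime.const (f a)) hg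
        · intro x hx
          by_cases hxa : x = a
          · simp [hxa]
          · simp only [hxa, if_false]
            exact hgl x ((List.mem_cons.1 hx).resolve_left hxa)
    obtain ⟨g, hg, hgl⟩ := key hs.toFinset.toList
    exact (hg.comp hh).of_eq fun x => hgl (h x) (by simpa using hmem x)

/-- Case distinction over an argument that ranges over a finite set. -/
theorem PTime.finite_set_cases [EncInj β] {s : Set β} (hs : s.Finite) {h : α → β}
    (hh : PTime h) (hmem : ∀ x, h x ∈ s) {f : β → α → γ} (hf : ∀ b ∈ s, PTime (f b)) :
    PTime (fun x => f (h x) x) := by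
  classical
  rcases isEmpty_or_nonempty α with hα | ⟨⟨x0⟩⟩
  · exact PTime.intro (f := fun x => f (h x) x) SP.skip (PBd.const 0) fun x => hα.elim x
  · have key : ∀ l : List β, (∀ b ∈ l, b ∈ s) → ∃ g : β × α → γ, PTime g ∧
        ∀ b ∈ l, ∀ x, g (b, x) = f b x := by
      intro l
      induction l with
      | nil => exact fun _ => ⟨fun _ => f (h x0) x0, PTime.const _, by simp⟩
      | cons a l ih =>
        intro hl
        obtain ⟨g, hg, hgl⟩ := ih fun b hb => hl b (List.mem_cons_of_mem _ hb)
        refine ⟨fun p => if p.1 = a then f a p.2 else g p, ?_, ?_⟩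
        · exact PTime.iteP (PTime.eq PTime.fst (PTime.const a))
            ((hf a (hl a (by simp))).comp PTime.snd) hg
        · intro b hb x
          by_cases hba : b = a
          · simp [hba]
          · simp only [hba, if_false]
            exact hgl b ((List.mem_cons.1 hb).resolve_left hba) x
    obtain ⟨g, hg, hgl⟩ := key hs.toFinset.toList (fun b hb => by simpa using hb)
    exact (hg.comp (hh.pair PTime.id)).of_eq fun x => hgl (h x) (by simpa using hmem x) x

end

end Pool.Agent.PolyTime
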