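import Pool.Agent.Lib.PolyTime.Machine

/-!
# Binary trees as universal data, and basic stack programs on their bit codes
-/

namespace Pool.Agent.PolyTime

open SP

/-- Length of the bit code. -/
def size (d : D) : ℕ := (bits d).length

@[simp] theorem size_nil : size D.nil = 1 := rfl
@[simp] theorem size_cons (a b : D) : size (D.cons a b) = size a + size b + 1 := by
  simp [size, bits]

theorem size_pos (d : D) : 0 < size d := by cases d <;> simp

theorem bits_append_inj : ∀ (a b : D) (l l' : List Bool),
    bits a ++ l = bits b ++ l' → a = b ∧ l = l'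
  | D.nil, D.nil, l, l', h => by simpa [bits] using h
  | D.nil, D.cons _ _, l, l', h => by simp [bits] at h
  | D.cons _ _, D.nil, l, l', h => by simp [bits] at h
  | D.cons a b, D.cons a' b', l, l', h => by
      simp only [bits, List.cons_append, List.append_assoc, List.cons.injEq, true_and] at h
      obtain ⟨rfl, h'⟩ := bits_append_inj a a' _ _ h
      obtain ⟨rfl, h''⟩ := bits_append_inj b b' _ _ h'
      exact ⟨rfl, h''⟩

theorem bits_injective : Function.Injective bits := fun a b h =>
  (bits_append_inj a b [] [] (by simpa using h)).1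

/-- The program runs from `s` to `s'` in at most `n` steps. -/
def Runs (P : SP) (s s' : St) (n : ℕ) : Prop := ∃ t ≤ n, Run P s s' t

theorem Runs.mono {P : SP} {s s' : St} {n n' : ℕ} (h : Runs P s s' n) (hn : n ≤ n') :
    Runs P s s' n' := by
  obtain ⟨t, ht, h⟩ := h
  exact ⟨t, ht.trans hn, h⟩

theorem Runs.seq {P Q : SP} {s s' s'' : St} {n n' : ℕ} (h : Runs P s s' n)
    (h' : Runs Q s' s'' n') : Runs (P.seq Q) s s'' (n + n') := by
  obtain ⟨t, ht, h⟩ := h
  obtain ⟨t', ht', h'⟩ := h'
  exact ⟨t + t', by omega, Run.seq h h'⟩

theorem Runs.skip (s : St) : Runs SP.skip s s 1 := ⟨1, le_refl _, Run.skip s⟩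

section prim
variable {m a b c : List Bool} {x : Bool} {P Q R : SP} {s s' : St} {n n' : ℕ}

theorem Runs.push_m : Runs (push Reg.m x) (mk m a b c) (mk (x :: m) a b c) 1 :=
  ⟨1, le_refl _, by simpa using Run.push Reg.m x (mk m a b c)⟩
theorem Runs.push_a : Runs (push Reg.a x) (mk m a b c) (mk m (x :: a) b c) 1 :=
  ⟨1, le_refl _, by simpa using Run.push Reg.a x (mk m a b c)⟩
theorem Runs.push_b : Runs (push Reg.b x) (mk m a b c) (mk m a (x :: b) c) 1 :=
  ⟨1, le_refl _, by simpa using Run.push Reg.b x (mk m a b c)⟩
theorem Runs.push_c : Runs (push Reg.c x) (mk m a b c) (mk m a b (x :: c)) 1 :=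
  ⟨1, le_refl _, by simpa using Run.push Reg.c x (mk m a b c)⟩

theorem Runs.pop_m_true (h : Runs P (mk m a b c) s n) :
    Runs (pop Reg.m P Q R) (mk (true :: m) a b c) s (n + 1) := by
  obtain ⟨t, ht, h⟩ := h
  exact ⟨t + 1, by omega, Run.pop_true (l := m) rfl (by simpa using h)⟩
theorem Runs.pop_m_false (h : Runs Q (mk m a b c) s n) :
    Runs (pop Reg.m P Q R) (mk (false :: m) a b c) s (n + 1) := by
  obtain ⟨t, ht, h⟩ := h
  exact ⟨t + 1, by omega, Run.pop_false (l := m) rfl (by simpa using h)⟩
theorem Runs.pop_a_true (h : Runs P (mk m a b c) s n) :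
    Runs (pop Reg.a P Q R) (mk m (true :: a) b c) s (n + 1) := by
  obtain ⟨t, ht, h⟩ := h
  exact ⟨t + 1, by omega, Run.pop_true (l := a) rfl (by simpa using h)⟩
theorem Runs.pop_a_false (h : Runs Q (mk m a b c) s n) :
    Runs (pop Reg.a P Q R) (mk m (false :: a) b c) s (n + 1) := by
  obtain ⟨t, ht, h⟩ := h
  exact ⟨t + 1, by omega, Run.pop_false (l := a) rfl (by simpa using h)⟩
theorem Runs.pop_b_true (h : Runs P (mk m a b c) s n) :
    Runs (pop Reg.b P Q R) (mk m a (true :: b) c) s (n + 1) := by
  obtain ⟨t, ht, h⟩ := h
  exact ⟨t + 1, by omega, Run.pop_true (l := b) rfl (by simpa using h)⟩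
theorem Runs.pop_b_false (h : Runs Q (mk m a b c) s n) :
    Runs (pop Reg.b P Q R) (mk m a (false :: b) c) s (n + 1) := by
  obtain ⟨t, ht, h⟩ := h
  exact ⟨t + 1, by omega, Run.pop_false (l := b) rfl (by simpa using h)⟩

theorem Runs.loop_a_true (h : Runs P (mk m a b c) s n) (h' : Runs (loop Reg.a P) s s' n') :
    Runs (loop Reg.a P) (mk m (true :: a) b c) s' (n + n' + 1) := by
  obtain ⟨t, ht, h⟩ := h
  obtain ⟨t', ht', h'⟩ := h'
  exact ⟨t + t' + 1, by omega, Run.loop_true (l := a) rfl (by simpa using h) h'⟩
theorem Runs.loop_a_false :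
    Runs (loop Reg.a P) (mk m (false :: a) b c) (mk m a b c) 1 :=
  ⟨1, le_refl _, by
    simpa using Run.loop_false (r := Reg.a) (P := P) (s := mk m (false :: a) b c) (l := a) rfl⟩
theorem Runs.loop_b_true (h : Runs P (mk m a b c) s n) (h' : Runs (loop Reg.b P) s s' n') :
    Runs (loop Reg.b P) (mk m a (true :: b) c) s' (n + n' + 1) := by
  obtain ⟨t, ht, h⟩ := h
  obtain ⟨t', ht', h'⟩ := h'
  exact ⟨t + t' + 1, by omega, Run.loop_true (l := b) rfl (by simpa using h) h'⟩
theorem Runs.loop_b_false :
    Runs (loop Reg.b P) (mk m a (false :: b) c) (mk m a b c) 1 :=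
  ⟨1, le_refl _, by
    simpa using Run.loop_false (r := Reg.b) (P := P) (s := mk m a (false :: b) c) (l := b) rfl⟩
theorem Runs.loop_c_true (h : Runs P (mk m a b c) s n) (h' : Runs (loop Reg.c P) s s' n') :
    Runs (loop Reg.c P) (mk m a b (true :: c)) s' (n + n' + 1) := by
  obtain ⟨t, ht, h⟩ := h
  obtain ⟨t', ht', h'⟩ := h'
  exact ⟨t + t' + 1, by omega, Run.loop_true (l := c) rfl (by simpa using h) h'⟩
theorem Runs.loop_c_false :
    Runs (loop Reg.c P) (mk m a b (false :: c)) (mk m a b c) 1 :=
  ⟨1, le_refl _, by
    simpa using Run.loop_false (r := Reg.c) (P := P) (s := mk m a b (false :: c)) (l := c) rfl⟩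

end prim

/-- Marked reversed copy on an auxiliary stack. -/
def rmark : List Bool → List Bool → List Bool
  | [], A => A
  | x :: l, A => rmark l (true :: x :: A)

theorem rmark_append (l l' A : List Bool) : rmark (l ++ l') A = rmark l' (rmark l A) := by
  induction l generalizing A with
  | nil => rfl
  | cons x l ih => simp [rmark, ih]

/-! ### moving a code from `m` to `a` or `b` -/

/-- body of the parsing loop for target `a` -/
def parseBodyA : SP :=
  pop Reg.m
    ((push Reg.a true).seq ((push Reg.a true).seq ((push Reg.c true).seq (push Reg.c true))))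
    ((push Reg.a false).seq (push Reg.a true)) skip

/-- body of the parsing loop for target `b` -/
def parseBodyB : SP :=
  pop Reg.m
    ((push Reg.b true).seq ((push Reg.b true).seq ((push Reg.c true).seq (push Reg.c true))))
    ((push Reg.b false).seq (push Reg.b true)) skip

theorem parseA_step (d : D) : ∀ (m a b c : List Bool) (s : St) (n : ℕ),
    Runs (loop Reg.c parseBodyA) (mk m (rmark (bits d) a) b c) s n →
    Runs (loop Reg.c parseBodyA) (mk (bits d ++ m) a b (true :: c)) s (n + 6 * size d) := by
  induction d with
  | nil =>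
    intro m a b c s n h
    refine Runs.mono (Runs.loop_c_true (s := mk m (true :: false :: a) b c)
      (n := 3) (n' := n) ?_ h) (by simp; omega)
    exact Runs.mono (Runs.pop_m_false (Runs.seq Runs.push_a Runs.push_a)) (by omega)
  | cons x y ihx ihy =>
    intro m a b c s n h
    have h1 := ihy m (rmark (bits x) (true :: true :: a)) b c s n (by
      simpa [bits, rmark, rmark_append] using h)
    have h2 := ihx (bits y ++ m) (true :: true :: a) b (true :: c) s _ h1
    refine Runs.mono (Runs.loop_c_true (s := mk (bits x ++ (bits y ++ m)) (true :: true :: a) b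
      (true :: true :: c)) (n := 5) ?_ h2) (by simp; omega)
    have : bits (D.cons x y) ++ m = true :: (bits x ++ (bits y ++ m)) := by
      simp [bits]
    rw [this]
    exact Runs.mono (Runs.pop_m_true (Runs.seq Runs.push_a (Runs.seq Runs.push_a
      (Runs.seq Runs.push_c Runs.push_c)))) (by omega)

theorem parseB_step (d : D) : ∀ (m a b c : List Bool) (s : St) (n : ℕ),
    Runs (loop Reg.c parseBodyB) (mk m a (rmark (bits d) b) c) s n →
    Runs (loop Reg.c parseBodyB) (mk (bits d ++ m) a b (true :: c)) s (n + 6 * size d) := by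
  induction d with
  | nil =>
    intro m a b c s n h
    refine Runs.mono (Runs.loop_c_true (s := mk m a (true :: false :: b) c)
      (n := 3) (n' := n) ?_ h) (by simp; omega)
    exact Runs.mono (Runs.pop_m_false (Runs.seq Runs.push_b Runs.push_b)) (by omega)
  | cons x y ihx ihy =>
    intro m a b c s n h
    have h1 := ihy m a (rmark (bits x) (true :: true :: b)) c s n (by
      simpa [bits, rmark, rmark_append] using h)
    have h2 := ihx (bits y ++ m) a (true :: true :: b) (true :: c) s _ h1
    refine Runs.mono (Runs.loop_c_true (s := mk (bits x ++ (bits y ++ m)) a (true :: true :: b)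
      (true :: true :: c)) (n := 5) ?_ h2) (by simp; omega)
    have : bits (D.cons x y) ++ m = true :: (bits x ++ (bits y ++ m)) := by
      simp [bits]
    rw [this]
    exact Runs.mono (Runs.pop_m_true (Runs.seq Runs.push_b (Runs.seq Runs.push_b
      (Runs.seq Runs.push_c Runs.push_c)))) (by omega)

/-- move the top code of `m` to `a` -/
def takeA : SP :=
  (push Reg.a false).seq ((push Reg.c false).seq ((push Reg.c true).seq
    (loop Reg.c parseBodyA)))

/-- move the top code of `m` to `b` -/
def takeB : SP :=
  (push Reg.b false).seq ((push Reg.c false).seq ((push Reg.c true).seq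
    (loop Reg.c parseBodyB)))

theorem takeA_runs (d : D) (m a b c : List Bool) :
    Runs takeA (mk (bits d ++ m) a b c) (mk m (rmark (bits d) (false :: a)) b c)
      (6 * size d + 4) := by
  refine Runs.mono (Runs.seq Runs.push_a (Runs.seq Runs.push_c (Runs.seq Runs.push_c
    (parseA_step d m (false :: a) b (false :: c) _ _ Runs.loop_c_false)))) (by omega)

theorem takeB_runs (d : D) (m a b c : List Bool) :
    Runs takeB (mk (bits d ++ m) a b c) (mk m a (rmark (bits d) (false :: b)) c)
      (6 * size d + 4) := by
  refine Runs.mono (Runs.seq Runs.push_b (Runs.seq Runs.push_c (Runs.seq Runs.push_c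
    (parseB_step d m a (false :: b) (false :: c) _ _ Runs.loop_c_false)))) (by omega)

/-- move back from `a` to `m` -/
def giveA : SP := loop Reg.a (pop Reg.a (push Reg.m true) (push Reg.m false) skip)
/-- move back from `b` to `m` -/
def giveB : SP := loop Reg.b (pop Reg.b (push Reg.m true) (push Reg.m false) skip)

theorem giveA_step (l : List Bool) : ∀ (m a b c : List Bool) (s : St) (n : ℕ),
    Runs giveA (mk (l ++ m) a b c) s n →
    Runs giveA (mk m (rmark l a) b c) s (n + 3 * l.length) := by
  induction l using List.reverseRecOn with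
  | nil => intro m a b c s n h; simpa [rmark] using h
  | append_singleton l x ih =>
    intro m a b c s n h
    have h1 := ih (x :: m) a b c s n (by simpa using h)
    rw [rmark_append]
    change Runs giveA (mk m (true :: x :: rmark l a) b c) s _
    refine Runs.mono (Runs.loop_a_true (n := 2) (n' := n + 3 * l.length) ?_ h1)
      (by simp; omega)
    cases x
    · exact Runs.pop_a_false Runs.push_m
    · exact Runs.pop_a_true Runs.push_m

theorem giveB_step (l : List Bool) : ∀ (m a b c : List Bool) (s : St) (n : ℕ),
    Runs giveB (mk (l ++ m) a b c) s n →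
    Runs giveB (mk m a (rmark l b) c) s (n + 3 * l.length) := by
  induction l using List.reverseRecOn with
  | nil => intro m a b c s n h; simpa [rmark] using h
  | append_singleton l x ih =>
    intro m a b c s n h
    have h1 := ih (x :: m) a b c s n (by simpa using h)
    rw [rmark_append]
    change Runs giveB (mk m a (true :: x :: rmark l b) c) s _
    refine Runs.mono (Runs.loop_b_true (n := 2) (n' := n + 3 * l.length) ?_ h1)
      (by simp; omega)
    cases x
    · exact Runs.pop_b_false Runs.push_m
    · exact Runs.pop_b_true Runs.push_m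

theorem giveA_runs (d : D) (m a b c : List Bool) :
    Runs giveA (mk m (rmark (bits d) (false :: a)) b c) (mk (bits d ++ m) a b c)
      (3 * size d + 1) := by
  refine Runs.mono (giveA_step (bits d) m (false :: a) b c _ 1 Runs.loop_a_false)
    (by simp [size]; omega)

theorem giveB_runs (d : D) (m a b c : List Bool) :
    Runs giveB (mk m a (rmark (bits d) (false :: b)) c) (mk (bits d ++ m) a b c)
      (3 * size d + 1) := by
  refine Runs.mono (giveB_step (bits d) m a (false :: b) c _ 1 Runs.loop_b_false)
    (by simp [size]; omega)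

/-! ### duplication -/

/-- move from `a` to both `m` and `b` -/
def bothAMB : SP :=
  loop Reg.a (pop Reg.a
    ((push Reg.m true).seq ((push Reg.b true).seq (push Reg.b true)))
    ((push Reg.m false).seq ((push Reg.b false).seq (push Reg.b true))) skip)

/-- move from `b` to `a` -/
def moveBA : SP :=
  loop Reg.b (pop Reg.b
    ((push Reg.a true).seq (push Reg.a true))
    ((push Reg.a false).seq (push Reg.a true)) skip)

theorem bothAMB_step (l : List Bool) : ∀ (m a b c : List Bool) (s : St) (n : ℕ),
    Runs bothAMB (mk (l ++ m) a (rmark l.reverse b) c) s n →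
    Runs bothAMB (mk m (rmark l a) b c) s (n + 5 * l.length) := by
  induction l using List.reverseRecOn with
  | nil => intro m a b c s n h; simpa [rmark] using h
  | append_singleton l x ih =>
    intro m a b c s n h
    have h1 := ih (x :: m) a (true :: x :: b) c s n (by simpa [rmark] using h)
    rw [rmark_append]
    change Runs bothAMB (mk m (true :: x :: rmark l a) b c) s _
    refine Runs.mono (Runs.loop_a_true (n := 4) (n' := n + 5 * l.length) ?_ h1)
      (by simp; omega)
    cases x
    · exact Runs.pop_a_false (Runs.seq Runs.push_m (Runs.seq Runs.push_b Runs.push_b))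
    · exact Runs.pop_a_true (Runs.seq Runs.push_m (Runs.seq Runs.push_b Runs.push_b))

theorem moveBA_step (l : List Bool) : ∀ (m a b c : List Bool) (s : St) (n : ℕ),
    Runs moveBA (mk m (rmark l.reverse a) b c) s n →
    Runs moveBA (mk m a (rmark l b) c) s (n + 4 * l.length) := by
  induction l using List.reverseRecOn with
  | nil => intro m a b c s n h; simpa [rmark] using h
  | append_singleton l x ih =>
    intro m a b c s n h
    have h1 := ih m (true :: x :: a) b c s n (by simpa [rmark] using h)
    rw [rmark_append]
    change Runs moveBA (mk m a (true :: x :: rmark l b) c) s _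
    refine Runs.mono (Runs.loop_b_true (n := 3) (n' := n + 4 * l.length) ?_ h1)
      (by simp; omega)
    cases x
    · exact Runs.pop_b_false (Runs.seq Runs.push_a Runs.push_a)
    · exact Runs.pop_b_true (Runs.seq Runs.push_a Runs.push_a)

/-- duplicate the top code of `m` -/
def dup : SP :=
  takeA.seq ((push Reg.b false).seq (bothAMB.seq ((push Reg.a false).seq (moveBA.seq giveA))))

theorem dup_runs (d : D) (m a b c : List Bool) :
    Runs dup (mk (bits d ++ m) a b c) (mk (bits d ++ (bits d ++ m)) a b c)
      (18 * size d + 9) := by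
  have h1 := takeA_runs d m a b c
  have h2 : Runs (push Reg.b false) (mk m (rmark (bits d) (false :: a)) b c)
    (mk m (rmark (bits d) (false :: a)) (false :: b) c) 1 := Runs.push_b
  have h3 := bothAMB_step (bits d) m (false :: a) (false :: b) c _ 1 Runs.loop_a_false
  have h4 : Runs (push Reg.a false)
    (mk (bits d ++ m) a (rmark (bits d).reverse (false :: b)) c)
    (mk (bits d ++ m) (false :: a) (rmark (bits d).reverse (false :: b)) c) 1 := Runs.push_a
  have h5 := moveBA_step (bits d).reverse (bits d ++ m) (false :: a) (false :: b) c _ 1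
    Runs.loop_b_false
  rw [List.reverse_reverse] at h5
  have h6 := giveA_runs d (bits d ++ m) a b c
  refine Runs.mono (Runs.seq h1 (Runs.seq h2 (Runs.seq h3 (Runs.seq h4 (Runs.seq h5 h6))))) ?_
  simp [size]; omega

/-! ### swap, drop -/

/-- exchange the two top codes of `m` -/
def swap : SP := takeA.seq (takeB.seq (giveA.seq giveB))

theorem swap_runs (x y : D) (m a b c : List Bool) :
    Runs swap (mk (bits x ++ (bits y ++ m)) a b c) (mk (bits y ++ (bits x ++ m)) a b c)
      (9 * size x + 9 * size y + 10) := by
  have h1 := takeA_runs x (bits y ++ m) a b c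
  have h2 := takeB_runs y m (rmark (bits x) (false :: a)) b c
  have h3 := giveA_runs x m a (rmark (bits y) (false :: b)) c
  have h4 := giveB_runs y (bits x ++ m) a b c
  exact Runs.mono (Runs.seq h1 (Runs.seq h2 (Runs.seq h3 h4))) (by omega)

/-- body of the dropping loop -/
def dropBody : SP :=
  pop Reg.m ((push Reg.c true).seq (push Reg.c true)) skip skip

theorem drop_step (d : D) : ∀ (m a b c : List Bool) (s : St) (n : ℕ),
    Runs (loop Reg.c dropBody) (mk m a b c) s n →
    Runs (loop Reg.c dropBody) (mk (bits d ++ m) a b (true :: c)) s (n + 4 * size d) := by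
  induction d with
  | nil =>
    intro m a b c s n h
    refine Runs.mono (Runs.loop_c_true (s := mk m a b c) (n := 2) (n' := n) ?_ h)
      (by simp; omega)
    exact Runs.mono (Runs.pop_m_false (Runs.skip _)) (by omega)
  | cons x y ihx ihy =>
    intro m a b c s n h
    have h1 := ihy m a b c s n h
    have h2 := ihx (bits y ++ m) a b (true :: c) s _ h1
    refine Runs.mono (Runs.loop_c_true (s := mk (bits x ++ (bits y ++ m)) a b
      (true :: true :: c)) (n := 3) ?_ h2) (by simp; omega)
    have : bits (D.cons x y) ++ m = true :: (bits x ++ (bits y ++ m)) := by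
      simp [bits]
    rw [this]
    exact Runs.mono (Runs.pop_m_true (Runs.seq Runs.push_c Runs.push_c)) (by omega)

/-- remove the top code of `m` -/
def drop : SP := (push Reg.c false).seq ((push Reg.c true).seq (loop Reg.c dropBody))

theorem drop_runs (d : D) (m a b c : List Bool) :
    Runs drop (mk (bits d ++ m) a b c) (mk m a b c) (4 * size d + 3) :=
  Runs.mono (Runs.seq Runs.push_c (Runs.seq Runs.push_c
    (drop_step d m a b (false :: c) _ _ Runs.loop_c_false))) (by omega)

/-- push a constant word on `m` -/
def pushWord : List Bool → SP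
  | [] => skip
  | x :: l => (pushWord l).seq (push Reg.m x)

theorem pushWord_runs (l m a b c : List Bool) :
    Runs (pushWord l) (mk m a b c) (mk (l ++ m) a b c) (l.length + 1) := by
  induction l with
  | nil => exact Runs.skip _
  | cons x l ih => exact Runs.mono (Runs.seq ih Runs.push_m) (by simp)

end Pool.Agent.PolyTime
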