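import Pool.Agent.Lib.PolyTime.Defs

/-!
# Structured stack programs and their compilation to Mathlib's `TM2` machines

A tiny structured language `SP` over four stacks of bits, its cost semantics `Run`, and a
compilation `toTM` into bundled `Turing.FinTM2` machines that preserves the step count.
-/

namespace Pool.Agent.PolyTime

open Turing StateTransition

/-- The four stacks. -/
inductive Reg
  | m | a | b | c
  deriving DecidableEq

instance : Fintype Reg where
  elems := {Reg.m, Reg.a, Reg.b, Reg.c}
  complete := by intro x; cases x <;> simp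

/-- Contents of the four stacks. -/
abbrev St := Reg → List Bool

/-- The explicit state with given stack contents. -/
def mk (m a b c : List Bool) : St
  | Reg.m => m
  | Reg.a => a
  | Reg.b => b
  | Reg.c => c

section mk_lemmas
variable (m a b c x : List Bool)
@[simp] theorem mk_m : mk m a b c Reg.m = m := rfl
@[simp] theorem mk_a : mk m a b c Reg.a = a := rfl
@[simp] theorem mk_b : mk m a b c Reg.b = b := rfl
@[simp] theorem mk_c : mk m a b c Reg.c = c := rfl
@[simp] theorem update_m : Function.update (mk m a b c) Reg.m x = mk x a b c := by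
  funext r; cases r <;> simp [Function.update]
@[simp] theorem update_a : Function.update (mk m a b c) Reg.a x = mk m x b c := by
  funext r; cases r <;> simp [Function.update]
@[simp] theorem update_b : Function.update (mk m a b c) Reg.b x = mk m a x c := by
  funext r; cases r <;> simp [Function.update]
@[simp] theorem update_c : Function.update (mk m a b c) Reg.c x = mk m a b x := by
  funext r; cases r <;> simp [Function.update]
end mk_lemmas

theorem eq_mk (s : St) : s = mk (s Reg.m) (s Reg.a) (s Reg.b) (s Reg.c) := by
  funext r; cases r <;> rfl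

/-- Structured stack programs. -/
inductive SP
  | skip : SP
  | push (r : Reg) (b : Bool) : SP
  | seq (P Q : SP) : SP
  /-- pop the top of `r`: on `true` continue with `P`, on `false` with `Q`,
  on the empty stack with `R` -/
  | pop (r : Reg) (P Q R : SP) : SP
  /-- pop the top of `r`; as long as it is `true`, run `P` and repeat -/
  | loop (r : Reg) (P : SP) : SP

open SP

/-- Big-step semantics with step count. -/
inductive Run : SP → St → St → ℕ → Prop
  | skip (s : St) : Run skip s s 1
  | push (r : Reg) (b : Bool) (s : St) : Run (push r b) s (Function.update s r (b :: s r)) 1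
  | seq {P Q : SP} {s s' s'' : St} {t t' : ℕ} :
      Run P s s' t → Run Q s' s'' t' → Run (seq P Q) s s'' (t + t')
  | pop_true {r : Reg} {P Q R : SP} {s s' : St} {l : List Bool} {t : ℕ} (h : s r = true :: l) :
      Run P (Function.update s r l) s' t → Run (pop r P Q R) s s' (t + 1)
  | pop_false {r : Reg} {P Q R : SP} {s s' : St} {l : List Bool} {t : ℕ} (h : s r = false :: l) :
      Run Q (Function.update s r l) s' t → Run (pop r P Q R) s s' (t + 1)
  | pop_nil {r : Reg} {P Q R : SP} {s s' : St} {t : ℕ} (h : s r = []) :
      Run R s s' t → Run (pop r P Q R) s s' (t + 1)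
  | loop_true {r : Reg} {P : SP} {s s' s'' : St} {l : List Bool} {t t' : ℕ}
      (h : s r = true :: l) :
      Run P (Function.update s r l) s' t → Run (loop r P) s' s'' t' →
        Run (loop r P) s s'' (t + t' + 1)
  | loop_false {r : Reg} {P : SP} {s : St} {l : List Bool} (h : s r = false :: l) :
      Run (loop r P) s (Function.update s r l) 1
  | loop_nil {r : Reg} {P : SP} {s : St} (h : s r = []) :
      Run (loop r P) s s 1

/-! ### Compilation -/

/-- Labels of the compiled program. -/
def Lab : SP → Type
  | skip => Unit
  | push _ _ => Unit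
  | seq P Q => Lab P ⊕ Lab Q
  | pop _ P Q R => Option (Lab P ⊕ (Lab Q ⊕ Lab R))
  | loop _ P => Option (Lab P)

/-- Finiteness of the set of labels. -/
@[instance_reducible] noncomputable def labFintype : (P : SP) → Fintype (Lab P)
  | skip => (inferInstance : Fintype Unit)
  | push _ _ => (inferInstance : Fintype Unit)
  | seq P Q => by
      have := labFintype P
      have := labFintype Q
      exact (inferInstance : Fintype (Lab P ⊕ Lab Q))
  | pop _ P Q R => by
      have := labFintype P
      have := labFintype Q
      have := labFintype R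
      exact (inferInstance : Fintype (Option (Lab P ⊕ (Lab Q ⊕ Lab R))))
  | loop _ P => by
      have := labFintype P
      exact (inferInstance : Fintype (Option (Lab P)))

noncomputable instance (P : SP) : Fintype (Lab P) := labFintype P

/-- Entry label. -/
def entry : (P : SP) → Lab P
  | skip => ()
  | push _ _ => ()
  | seq P _ => Sum.inl (entry P)
  | pop _ _ _ _ => none
  | loop _ _ => none

/-- `TM2` statements used by the compilation: all stacks hold bits, the internal state remembers
the last popped symbol. -/
abbrev TStmt (Λ : Type) := TM2.Stmt (fun _ : Reg => Bool) Λ (Option Bool)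

/-- The jump made after popping. -/
def jump3 {Λ : Type} (x y z : Λ) : Option Bool → Λ
  | some true => x
  | some false => y
  | none => z

/-- The code of a program: `emb` embeds its labels in the labels of the ambient machine,
`ex` is the label where control goes afterwards. -/
def code {Λ : Type} : (P : SP) → (emb : Lab P → Λ) → (ex : Λ) → Lab P → TStmt Λ
  | skip, _, ex, _ => TM2.Stmt.goto fun _ => ex
  | push r b, _, ex, _ => TM2.Stmt.push r (fun _ => b) (TM2.Stmt.goto fun _ => ex)
  | seq P Q, emb, _, Sum.inl l =>
      code P (fun l => emb (Sum.inl l)) (emb (Sum.inr (entry Q))) l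
  | seq _ Q, emb, ex, Sum.inr l => code Q (fun l => emb (Sum.inr l)) ex l
  | pop r P Q R, emb, _, none =>
      TM2.Stmt.pop r (fun _ o => o) (TM2.Stmt.goto
        (jump3 (emb (some (Sum.inl (entry P)))) (emb (some (Sum.inr (Sum.inl (entry Q)))))
          (emb (some (Sum.inr (Sum.inr (entry R)))))))
  | pop _ P _ _, emb, ex, some (Sum.inl l) => code P (fun l => emb (some (Sum.inl l))) ex l
  | pop _ _ Q _, emb, ex, some (Sum.inr (Sum.inl l)) =>
      code Q (fun l => emb (some (Sum.inr (Sum.inl l)))) ex l
  | pop _ _ _ R, emb, ex, some (Sum.inr (Sum.inr l)) =>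
      code R (fun l => emb (some (Sum.inr (Sum.inr l)))) ex l
  | loop r P, emb, ex, none =>
      TM2.Stmt.pop r (fun _ o => o) (TM2.Stmt.goto (jump3 (emb (some (entry P))) ex ex))
  | loop _ P, emb, _, some l => code P (fun l => emb (some l)) (emb none) l

/-- `n` steps of a machine. -/
theorem iterate_bind_add {σ : Type} (f : σ → Option σ) (n k : ℕ) (x y z : Option σ)
    (h₁ : (flip bind f)^[n] x = y) (h₂ : (flip bind f)^[k] y = z) :
    (flip bind f)^[n + k] x = z := by
  rw [Nat.add_comm, Function.iterate_add_apply, h₁, h₂]

/-- Simulation of a run by the compiled code. -/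
theorem simulate {P : SP} {s s' : St} {t : ℕ} (h : Run P s s' t) :
    ∀ {Λ : Type} (M : Λ → TStmt Λ) (emb : Lab P → Λ) (ex : Λ)
      (_ : ∀ l, M (emb l) = code P emb ex l) (v : Option Bool),
      ∃ v' : Option Bool, (flip bind (TM2.step M))^[t] (some ⟨some (emb (entry P)), v, s⟩) =
        some ⟨some ex, v', s'⟩ := by
  induction h with
  | skip s =>
    intro Λ M emb ex hM v
    refine ⟨v, ?_⟩
    have := hM (entry skip)
    simp only [Function.iterate_one, flip, Option.bind_eq_bind, Option.bind_some, TM2.step]
    rw [this]
    simp [code]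
  | push r b s =>
    intro Λ M emb ex hM v
    refine ⟨v, ?_⟩
    have := hM (entry (push r b))
    simp only [Function.iterate_one, flip, Option.bind_eq_bind, Option.bind_some, TM2.step]
    rw [this]
    simp [code]
  | @seq P Q s s' s'' t t' _ _ ih₁ ih₂ =>
    intro Λ M emb ex hM v
    obtain ⟨v₁, h₁⟩ := ih₁ M (fun l => emb (Sum.inl l)) (emb (Sum.inr (entry Q)))
      (fun l => hM (Sum.inl l)) v
    obtain ⟨v₂, h₂⟩ := ih₂ M (fun l => emb (Sum.inr l)) ex (fun l => hM (Sum.inr l)) v₁
    exact ⟨v₂, iterate_bind_add _ _ _ _ _ _ h₁ h₂⟩
  | @pop_true r P Q R s s' l t h _ ih =>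
    intro Λ M emb ex hM v
    obtain ⟨v₁, h₁⟩ := ih M (fun l => emb (some (Sum.inl l))) ex
      (fun l => hM (some (Sum.inl l))) (some true)
    refine ⟨v₁, ?_⟩
    rw [Nat.add_comm]
    refine iterate_bind_add _ 1 _ _ _ _ ?_ h₁
    have := hM (entry (pop r P Q R))
    simp only [Function.iterate_one, flip, Option.bind_eq_bind, Option.bind_some, TM2.step]
    rw [this]
    simp [code, entry, h, jump3]
  | @pop_false r P Q R s s' l t h _ ih =>
    intro Λ M emb ex hM v
    obtain ⟨v₁, h₁⟩ := ih M (fun l => emb (some (Sum.inr (Sum.inl l)))) ex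
      (fun l => hM (some (Sum.inr (Sum.inl l)))) (some false)
    refine ⟨v₁, ?_⟩
    rw [Nat.add_comm]
    refine iterate_bind_add _ 1 _ _ _ _ ?_ h₁
    have := hM (entry (pop r P Q R))
    simp only [Function.iterate_one, flip, Option.bind_eq_bind, Option.bind_some, TM2.step]
    rw [this]
    simp [code, entry, h, jump3]
  | @pop_nil r P Q R s s' t h _ ih =>
    intro Λ M emb ex hM v
    obtain ⟨v₁, h₁⟩ := ih M (fun l => emb (some (Sum.inr (Sum.inr l)))) ex
      (fun l => hM (some (Sum.inr (Sum.inr l)))) none
    refine ⟨v₁, ?_⟩
    rw [Nat.add_comm]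
    refine iterate_bind_add _ 1 _ _ _ _ ?_ h₁
    have := hM (entry (pop r P Q R))
    simp only [Function.iterate_one, flip, Option.bind_eq_bind, Option.bind_some, TM2.step]
    rw [this]
    have hs : Function.update s r [] = s := by
      rw [← h]; exact Function.update_eq_self r s
    simp [code, entry, h, jump3, hs]
  | @loop_true r P s s' s'' l t t' h _ _ ih₁ ih₂ =>
    intro Λ M emb ex hM v
    obtain ⟨v₁, h₁⟩ := ih₁ M (fun l => emb (some l)) (emb none)
      (fun l => hM (some l)) (some true)
    obtain ⟨v₂, h₂⟩ := ih₂ M emb ex hM v₁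
    refine ⟨v₂, ?_⟩
    rw [Nat.add_comm]
    refine iterate_bind_add _ 1 _ _ _ _ ?_ (iterate_bind_add _ _ _ _ _ _ h₁ h₂)
    have := hM (entry (loop r P))
    simp only [Function.iterate_one, flip, Option.bind_eq_bind, Option.bind_some, TM2.step]
    rw [this]
    simp [code, entry, h, jump3]
  | @loop_false r P s l h =>
    intro Λ M emb ex hM v
    refine ⟨some false, ?_⟩
    have := hM (entry (loop r P))
    simp only [Function.iterate_one, flip, Option.bind_eq_bind, Option.bind_some, TM2.step]
    rw [this]
    simp [code, entry, h, jump3]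
  | @loop_nil r P s h =>
    intro Λ M emb ex hM v
    refine ⟨none, ?_⟩
    have := hM (entry (loop r P))
    simp only [Function.iterate_one, flip, Option.bind_eq_bind, Option.bind_some, TM2.step]
    rw [this]
    have hs : Function.update s r [] = s := by
      rw [← h]; exact Function.update_eq_self r s
    simp [code, entry, h, jump3, hs]

/-- The machine running the program `P`; input and output are on the stack `m`. -/
noncomputable def toTM (P : SP) : FinTM2 where
  K := Reg
  k₀ := Reg.m
  k₁ := Reg.m
  Γ _ := Bool
  Λ := Option (Lab P)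
  main := some (entry P)
  σ := Option Bool
  initialState := none
  Γk₀Fin := inferInstance
  m := fun l => match l with
    | none => TM2.Stmt.load (fun _ => none) TM2.Stmt.halt
    | some l => code P some none l

theorem toTM_initList (P : SP) (x : List Bool) :
    initList (toTM P) x = ⟨some (some (entry P)), none, mk x [] [] []⟩ := by
  unfold initList
  congr 1
  funext k
  cases k <;> rfl

theorem toTM_haltList (P : SP) (x : List Bool) :
    haltList (toTM P) x = ⟨none, none, mk x [] [] []⟩ := by
  unfold haltList
  congr 1
  funext k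
  cases k <;> rfl

/-- A run of the program on stack `m` gives an evaluation of the machine. -/
theorem toTM_outputs {P : SP} {x y : List Bool} {t : ℕ}
    (h : Run P (mk x [] [] []) (mk y [] [] []) t) :
    Nonempty (TM2OutputsInTime (toTM P) x (some y) (t + 1)) := by
  obtain ⟨v', h'⟩ := simulate h (Λ := Option (Lab P)) (toTM P).m some none
    (fun l => rfl) none
  refine ⟨⟨⟨t + 1, ?_⟩, le_refl _⟩⟩
  have key : (flip bind (TM2.step (toTM P).m))^[t + 1]
      (some ⟨some (some (entry P)), none, mk x [] [] []⟩) =
      some ⟨none, none, mk y [] [] []⟩ := by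
    exact iterate_bind_add _ _ _ _ _ _ h' rfl
  have e₁ := toTM_initList P x
  have e₂ := toTM_haltList P y
  exact (congrArg (fun z => (flip bind (TM2.step (toTM P).m))^[t + 1] (some z)) e₁).trans
    (key.trans (congrArg some e₂.symm))

end Pool.Agent.PolyTime
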