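import Pool.Agent.Lib.PolyTime.Basic

/-!
# Stack programs with calls of a black-box machine, with time and space bounds

`Box` is a (bundled) Turing machine of Mathlib whose input and output alphabets are two-valued;
`Box.Runs` says that it transforms one word into another one with a given number of steps and a
bound on the number of stack cells in use.  `XP` is the structured language `SP` extended by an
instruction that calls a black box; `XRun` is its semantics with time and space, and `toXTM`
compiles a program of `XP` into a single machine.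
-/

namespace Pool.Agent.PolyTime

open Turing StateTransition

/-! ### Paths with bounded space -/

section path
variable {σ : Type} {f : σ → Option σ} {w : σ → ℕ}

/-- `t` steps lead from `x` to `y`, and `w` is at most `S` on the way. -/
def Path (f : σ → Option σ) (w : σ → ℕ) (x y : σ) (t S : ℕ) : Prop :=
  (flip bind f)^[t] (some x) = some y ∧
    ∀ i ≤ t, ∀ z, (flip bind f)^[i] (some x) = some z → w z ≤ S

theorem Path.refl {x : σ} {S : ℕ} (h : w x ≤ S) : Path f w x x 0 S := by
  refine ⟨rfl, fun i hi z hz => ?_⟩
  obtain rfl : i = 0 := by omega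
  simp only [Function.iterate_zero, id_eq, Option.some.injEq] at hz
  exact hz ▸ h

theorem Path.mono {x y : σ} {t S S' : ℕ} (h : Path f w x y t S) (hS : S ≤ S') :
    Path f w x y t S' :=
  ⟨h.1, fun i hi z hz => (h.2 i hi z hz).trans hS⟩

theorem Path.trans {x y z : σ} {t t' S : ℕ} (h : Path f w x y t S) (h' : Path f w y z t' S) :
    Path f w x z (t + t') S := by
  refine ⟨iterate_bind_add _ _ _ _ _ _ h.1 h'.1, fun i hi u hu => ?_⟩
  rcases le_total i t with hit | hit
  · exact h.2 i hit u hu
  · obtain ⟨j, rfl⟩ := Nat.exists_eq_add_of_le hit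
    rw [Nat.add_comm, Function.iterate_add_apply, h.1] at hu
    exact h'.2 j (by omega) u hu

theorem Path.one {x y : σ} {S : ℕ} (h : f x = some y) (hx : w x ≤ S) (hy : w y ≤ S) :
    Path f w x y 1 S := by
  refine ⟨by simpa [flip] using h, fun i hi z hz => ?_⟩
  obtain rfl | rfl : i = 0 ∨ i = 1 := by omega
  · simp only [Function.iterate_zero, id_eq, Option.some.injEq] at hz
    exact hz ▸ hx
  · simp only [Function.iterate_one, flip, Option.bind_eq_bind, Option.bind_some, h,
      Option.some.injEq] at hz
    exact hz ▸ hy

theorem Path.le_left {x y : σ} {t S : ℕ} (h : Path f w x y t S) : w x ≤ S :=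
  h.2 0 (Nat.zero_le _) x rfl

theorem Path.le_right {x y : σ} {t S : ℕ} (h : Path f w x y t S) : w y ≤ S :=
  h.2 t le_rfl y h.1

end path

/-! ### Black boxes -/

/-- A machine with two-valued input and output alphabets. -/
structure Box where
  /-- the machine -/
  tm : FinTM2
  /-- reading of the input alphabet -/
  ea : tm.Γ tm.k₀ ≃ Bool
  /-- reading of the output alphabet -/
  eb : tm.Γ tm.k₁ ≃ Bool

/-- The number of stack cells used in a configuration. -/
def cells (M : FinTM2) (c : M.Cfg) : ℕ :=
  @Finset.sum M.K ℕ _ (@Finset.univ M.K M.kFin) fun k => (c.stk k).length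

/-- The machine, started with the word `x`, stops after exactly `t` steps with the word `y`, and
at no time more than `S` stack cells are in use. -/
def Box.Runs (B : Box) (x y : List Bool) (t S : ℕ) : Prop :=
  Path B.tm.step (cells B.tm) (initList B.tm (x.map B.ea.symm))
    (haltList B.tm (y.map B.eb.symm)) t S

/-! ### Programs with calls -/

/-- Structured stack programs with calls of a black box. -/
inductive XP
  | skip : XP
  | push (r : Reg) (b : Bool) : XP
  | seq (P Q : XP) : XP
  | pop (r : Reg) (P Q R : XP) : XP
  | loop (r : Reg) (P : XP) : XP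
  /-- replace the marked word on top of `b` by the answer of the black box -/
  | call : XP

/-- Semantics with step count `t` and space bound `S`. -/
inductive XRun (B : Box) : XP → St → St → ℕ → ℕ → Prop
  | skip (s : St) {S : ℕ} : total s ≤ S → XRun B XP.skip s s 1 S
  | push (r : Reg) (b : Bool) (s : St) {S : ℕ} : total s + 1 ≤ S →
      XRun B (XP.push r b) s (Function.update s r (b :: s r)) 1 S
  | seq {P Q : XP} {s s' s'' : St} {t t' S : ℕ} :
      XRun B P s s' t S → XRun B Q s' s'' t' S → XRun B (XP.seq P Q) s s'' (t + t') S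
  | pop_true {r : Reg} {P Q R : XP} {s s' : St} {l : List Bool} {t S : ℕ}
      (h : s r = true :: l) : total s ≤ S →
      XRun B P (Function.update s r l) s' t S → XRun B (XP.pop r P Q R) s s' (t + 1) S
  | pop_false {r : Reg} {P Q R : XP} {s s' : St} {l : List Bool} {t S : ℕ}
      (h : s r = false :: l) : total s ≤ S →
      XRun B Q (Function.update s r l) s' t S → XRun B (XP.pop r P Q R) s s' (t + 1) S
  | pop_nil {r : Reg} {P Q R : XP} {s s' : St} {t S : ℕ} (h : s r = []) : total s ≤ S →
      XRun B R s s' t S → XRun B (XP.pop r P Q R) s s' (t + 1) S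
  | loop_true {r : Reg} {P : XP} {s s' s'' : St} {l : List Bool} {t t' S : ℕ}
      (h : s r = true :: l) : total s ≤ S →
      XRun B P (Function.update s r l) s' t S → XRun B (XP.loop r P) s' s'' t' S →
        XRun B (XP.loop r P) s s'' (t + t' + 1) S
  | loop_false {r : Reg} {P : XP} {s : St} {l : List Bool} {S : ℕ} (h : s r = false :: l) :
      total s ≤ S → XRun B (XP.loop r P) s (Function.update s r l) 1 S
  | loop_nil {r : Reg} {P : XP} {s : St} {S : ℕ} (h : s r = []) : total s ≤ S →
      XRun B (XP.loop r P) s s 1 S
  | call {m a b c x y : List Bool} {t ρ S : ℕ} (h : B.Runs x y t ρ)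
      (hS : m.length + a.length + b.length + c.length + 2 * ρ + 2 ≤ S) :
      XRun B XP.call (mk m a (rmark x (false :: b)) c) (mk m a (rmark y (false :: b)) c)
        (x.length + t + y.length + 3) S

theorem XRun.mono {B : Box} {P : XP} {s s' : St} {t S : ℕ} (h : XRun B P s s' t S) :
    ∀ {S' : ℕ}, S ≤ S' → XRun B P s s' t S' := by
  induction h with
  | skip s h => intro S' hS; exact .skip s (h.trans hS)
  | push r b s h => intro S' hS; exact .push r b s (h.trans hS)
  | seq _ _ ih₁ ih₂ => intro S' hS; exact .seq (ih₁ hS) (ih₂ hS)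
  | pop_true h h' _ ih => intro S' hS; exact .pop_true h (h'.trans hS) (ih hS)
  | pop_false h h' _ ih => intro S' hS; exact .pop_false h (h'.trans hS) (ih hS)
  | pop_nil h h' _ ih => intro S' hS; exact .pop_nil h (h'.trans hS) (ih hS)
  | loop_true h h' _ _ ih₁ ih₂ => intro S' hS; exact .loop_true h (h'.trans hS) (ih₁ hS) (ih₂ hS)
  | loop_false h h' => intro S' hS; exact .loop_false h (h'.trans hS)
  | loop_nil h h' => intro S' hS; exact .loop_nil h (h'.trans hS)
  | call h h' => intro S' hS; exact .call h (h'.trans hS)

/-! ### Compilation -/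

section comp
variable (B : Box)

/-- Stacks of the combined machine. -/
abbrev XK : Type := Reg ⊕ B.tm.K

noncomputable instance : Fintype B.tm.K := B.tm.kFin
noncomputable instance : Fintype B.tm.Λ := B.tm.ΛFin
noncomputable instance : Fintype B.tm.σ := B.tm.σFin

/-- Alphabets of the combined machine. -/
abbrev XΓ : XK B → Type := Sum.elim (fun _ => Bool) B.tm.Γ

/-- Internal states of the combined machine. -/
abbrev XS : Type := Option Bool × B.tm.σ

/-- Statements of the combined machine. -/
abbrev XStmt (Λ : Type) := TM2.Stmt (XΓ B) Λ (XS B)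

variable {B}

/-- Stack contents of the combined machine. -/
def join (s : St) (T : ∀ k, List (B.tm.Γ k)) : ∀ k, List (XΓ B k)
  | .inl r => s r
  | .inr k => T k

@[simp] theorem join_inl (s : St) (T : ∀ k, List (B.tm.Γ k)) (r : Reg) :
    join s T (.inl r) = s r := rfl
@[simp] theorem join_inr (s : St) (T : ∀ k, List (B.tm.Γ k)) (k : B.tm.K) :
    join s T (.inr k) = T k := rfl

theorem join_update_inl (s : St) (T : ∀ k, List (B.tm.Γ k)) (r : Reg) (x : List Bool) :
    Function.update (join s T) (.inl r) x = join (Function.update s r x) T := by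
  funext k
  rcases k with r' | k
  · by_cases h : r' = r
    · subst h; simp
    · rw [Function.update_of_ne (by simpa using h), join_inl, join_inl,
        Function.update_of_ne h]
  · rw [Function.update_of_ne (by simp), join_inr, join_inr]

theorem join_update_inr (s : St) (T : ∀ k, List (B.tm.Γ k)) (k : B.tm.K)
    (x : List (B.tm.Γ k)) :
    Function.update (join s T) (.inr k) x = join s (Function.update T k x) := by
  funext k'
  rcases k' with r' | k'
  · rw [Function.update_of_ne (by simp), join_inl, join_inl]
  · by_cases h : k' = k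
    · subst h; simp
    · rw [Function.update_of_ne (by simpa using h), join_inr, join_inr,
        Function.update_of_ne h]

/-- Translation of a statement of the black box. -/
def trStmt {Λ : Type} (emb : B.tm.Λ → Λ) (ex : Λ) :
    TM2.Stmt B.tm.Γ B.tm.Λ B.tm.σ → XStmt B Λ
  | .push k f q => .push (.inr k) (fun v => f v.2) (trStmt emb ex q)
  | .peek k f q => .peek (.inr k) (fun v o => (v.1, f v.2 o)) (trStmt emb ex q)
  | .pop k f q => .pop (.inr k) (fun v o => (v.1, f v.2 o)) (trStmt emb ex q)
  | .load a q => .load (fun v => (v.1, a v.2)) (trStmt emb ex q)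
  | .branch p q₁ q₂ => .branch (fun v => p v.2) (trStmt emb ex q₁) (trStmt emb ex q₂)
  | .goto l => .goto fun v => emb (l v.2)
  | .halt => .goto fun _ => ex

/-- Translation of a configuration of the black box. -/
def trCfg {Λ : Type} (emb : B.tm.Λ → Λ) (ex : Λ) (o : Option Bool) (s : St)
    (c : TM2.Cfg B.tm.Γ B.tm.Λ B.tm.σ) : TM2.Cfg (XΓ B) Λ (XS B) :=
  ⟨some (c.l.elim ex emb), (o, c.var), join s c.stk⟩

theorem stepAux_tr {Λ : Type} (emb : B.tm.Λ → Λ) (ex : Λ) (o : Option Bool) (s : St)
    (q : TM2.Stmt B.tm.Γ B.tm.Λ B.tm.σ) : ∀ (u : B.tm.σ) (T : ∀ k, List (B.tm.Γ k)),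
    TM2.stepAux (trStmt emb ex q) (o, u) (join s T) =
      trCfg emb ex o s (TM2.stepAux q u T) := by
  induction q with
  | push k f q ih =>
    intro u T
    rw [trStmt, TM2.stepAux, TM2.stepAux, join_update_inr]
    exact ih _ _
  | peek k f q ih =>
    intro u T
    rw [trStmt, TM2.stepAux, TM2.stepAux]
    exact ih _ _
  | pop k f q ih =>
    intro u T
    rw [trStmt, TM2.stepAux, TM2.stepAux, join_update_inr]
    exact ih _ _
  | load a q ih =>
    intro u T
    rw [trStmt, TM2.stepAux, TM2.stepAux]
    exact ih _ _
  | branch p q₁ q₂ ih₁ ih₂ =>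
    intro u T
    rw [trStmt, TM2.stepAux, TM2.stepAux]
    cases p u
    · exact ih₂ _ _
    · exact ih₁ _ _
  | goto l => intro u T; rfl
  | halt => intro u T; rfl

/-- Number of cells of a configuration of the combined machine. -/
noncomputable def xcells {Λ : Type} (c : TM2.Cfg (XΓ B) Λ (XS B)) : ℕ := ∑ k, (c.stk k).length

theorem sum_reg (f : Reg → ℕ) : ∑ r, f r = f Reg.m + f Reg.a + f Reg.b + f Reg.c := by
  have : (Finset.univ : Finset Reg) = {Reg.m, Reg.a, Reg.b, Reg.c} := rfl
  rw [this, Finset.sum_insert (by simp), Finset.sum_insert (by simp),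
    Finset.sum_insert (by simp), Finset.sum_singleton]
  omega

theorem xcells_join {Λ : Type} (l : Option Λ) (v : XS B) (s : St) (T : ∀ k, List (B.tm.Γ k)) :
    xcells (⟨l, v, join s T⟩ : TM2.Cfg (XΓ B) Λ (XS B)) = total s + ∑ k, (T k).length := by
  unfold xcells
  rw [Fintype.sum_sum_type]
  congr 1
  exact sum_reg _

theorem xcells_empty {Λ : Type} (l : Option Λ) (v : XS B) (s : St) :
    xcells (⟨l, v, join s fun _ => []⟩ : TM2.Cfg (XΓ B) Λ (XS B)) = total s := by
  rw [xcells_join]; simp

variable (B)

/-- Labels of the compiled program. -/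
def XLab : XP → Type
  | .skip => Unit
  | .push _ _ => Unit
  | .seq P Q => XLab P ⊕ XLab Q
  | .pop _ P Q R => Option (XLab P ⊕ (XLab Q ⊕ XLab R))
  | .loop _ P => Option (XLab P)
  | .call => Fin 3 ⊕ B.tm.Λ

/-- Finiteness of the set of labels. -/
@[instance_reducible] noncomputable def xlabFintype : (P : XP) → Fintype (XLab B P)
  | .skip => (inferInstance : Fintype Unit)
  | .push _ _ => (inferInstance : Fintype Unit)
  | .seq P Q => by
      have := xlabFintype P
      have := xlabFintype Q
      exact (inferInstance : Fintype (XLab B P ⊕ XLab B Q))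
  | .pop _ P Q R => by
      have := xlabFintype P
      have := xlabFintype Q
      have := xlabFintype R
      exact (inferInstance : Fintype (Option (XLab B P ⊕ (XLab B Q ⊕ XLab B R))))
  | .loop _ P => by
      have := xlabFintype P
      exact (inferInstance : Fintype (Option (XLab B P)))
  | .call => (inferInstance : Fintype (Fin 3 ⊕ B.tm.Λ))

noncomputable instance (P : XP) : Fintype (XLab B P) := xlabFintype B P

/-- Entry label. -/
def xentry : (P : XP) → XLab B P
  | .skip => ()
  | .push _ _ => ()
  | .seq P _ => Sum.inl (xentry P)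
  | .pop _ _ _ _ => none
  | .loop _ _ => none
  | .call => Sum.inl 0

/-- The statement of the input phase of a call. -/
def inpStmt {Λ : Type} (inp main : Λ) : XStmt B Λ :=
  .pop (.inl Reg.b) (fun v o => ((o : Option Bool), v.2)) <|
    .branch (fun v => v.1 == some true)
      (.pop (.inl Reg.b) (fun v o => ((o : Option Bool), v.2)) <|
        .push (.inr B.tm.k₀) (fun v => B.ea.symm (v.1.getD false)) <| .goto fun _ => inp)
      (.load (fun v => (v.1, B.tm.initialState)) <| .goto fun _ => main)

/-- The statement of the output phase of a call. -/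
def outStmt {Λ : Type} (out ex : Λ) : XStmt B Λ :=
  .pop (.inr B.tm.k₁) (fun v o => ((o : Option (B.tm.Γ B.tm.k₁)).map B.eb, v.2)) <|
    .branch (fun v => v.1.isSome)
      (.push (.inl Reg.b) (fun v => v.1.getD false) <|
        .push (.inl Reg.b) (fun _ => true) <| .goto fun _ => out)
      (.goto fun _ => ex)

/-- The code of a program. -/
def xcode {Λ : Type} : (P : XP) → (emb : XLab B P → Λ) → (ex : Λ) → XLab B P → XStmt B Λ
  | .skip, _, ex, _ => .goto fun _ => ex
  | .push r b, _, ex, _ => .push (.inl r) (fun _ => b) (.goto fun _ => ex)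
  | .seq P Q, emb, _, Sum.inl l =>
      xcode P (fun l => emb (Sum.inl l)) (emb (Sum.inr (xentry B Q))) l
  | .seq _ Q, emb, ex, Sum.inr l => xcode Q (fun l => emb (Sum.inr l)) ex l
  | .pop r P Q R, emb, _, none =>
      .pop (.inl r) (fun v o => ((o : Option Bool), v.2)) (.goto fun v =>
        jump3 (emb (some (Sum.inl (xentry B P)))) (emb (some (Sum.inr (Sum.inl (xentry B Q)))))
          (emb (some (Sum.inr (Sum.inr (xentry B R))))) v.1)
  | .pop _ P _ _, emb, ex, some (Sum.inl l) => xcode P (fun l => emb (some (Sum.inl l))) ex l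
  | .pop _ _ Q _, emb, ex, some (Sum.inr (Sum.inl l)) =>
      xcode Q (fun l => emb (some (Sum.inr (Sum.inl l)))) ex l
  | .pop _ _ _ R, emb, ex, some (Sum.inr (Sum.inr l)) =>
      xcode R (fun l => emb (some (Sum.inr (Sum.inr l)))) ex l
  | .loop r P, emb, ex, none =>
      .pop (.inl r) (fun v o => ((o : Option Bool), v.2)) (.goto fun v =>
        jump3 (emb (some (xentry B P))) ex ex v.1)
  | .loop _ P, emb, _, some l => xcode P (fun l => emb (some l)) (emb none) l
  | .call, emb, ex, Sum.inl i =>
      match i with
      | 0 => inpStmt B (emb (Sum.inl 0)) (emb (Sum.inr B.tm.main))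
      | 1 => .push (.inl Reg.b) (fun _ => false) (.goto fun _ => emb (Sum.inl 2))
      | 2 => outStmt B (emb (Sum.inl 2)) ex
  | .call, emb, _, Sum.inr l => trStmt (fun l => emb (Sum.inr l)) (emb (Sum.inl 1)) (B.tm.m l)

end comp

/-! ### Simulation -/

theorem Path.head {σ : Type} {f : σ → Option σ} {w : σ → ℕ} {x y : σ} {t S : ℕ}
    (h : Path f w x y (t + 1) S) : ∃ z, f x = some z ∧ Path f w z y t S := by
  have hnone : ∀ n : ℕ, (flip bind f)^[n] (none : Option σ) = none := by
    intro n
    induction n with
    | zero => rfl
    | succ n ih => rw [Function.iterate_succ_apply]; exact ih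
  cases hz : f x with
  | none =>
    have := h.1
    rw [Function.iterate_succ_apply] at this
    have e : flip bind f (some x) = none := by simp [flip, hz]
    rw [e, hnone] at this
    exact absurd this (by simp)
  | some z =>
    have e : flip bind f (some x) = some z := by simp [flip, hz]
    refine ⟨z, rfl, ?_, fun i hi u hu => ?_⟩
    · have := h.1
      rwa [Function.iterate_succ_apply, e] at this
    · refine h.2 (i + 1) (by omega) u ?_
      rwa [Function.iterate_succ_apply, e]

section sim
variable {B : Box}

/-- Stacks with the word `w` on the input stack. -/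
def inStk (B : Box) (w : List (B.tm.Γ B.tm.k₀)) : ∀ k, List (B.tm.Γ k) := (initList B.tm w).stk
/-- Stacks with the word `w` on the output stack. -/
def outStk (B : Box) (w : List (B.tm.Γ B.tm.k₁)) : ∀ k, List (B.tm.Γ k) := (haltList B.tm w).stk

theorem inStk_self (w : List (B.tm.Γ B.tm.k₀)) : inStk B w B.tm.k₀ = w := by
  simp [inStk, initList]
theorem inStk_ne (w : List (B.tm.Γ B.tm.k₀)) {k : B.tm.K} (h : k ≠ B.tm.k₀) :
    inStk B w k = [] := by
  simp [inStk, initList, h]
theorem outStk_self (w : List (B.tm.Γ B.tm.k₁)) : outStk B w B.tm.k₁ = w := by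
  simp [outStk, haltList]
theorem outStk_ne (w : List (B.tm.Γ B.tm.k₁)) {k : B.tm.K} (h : k ≠ B.tm.k₁) :
    outStk B w k = [] := by
  simp [outStk, haltList, h]

theorem inStk_update (w w' : List (B.tm.Γ B.tm.k₀)) :
    Function.update (inStk B w) B.tm.k₀ w' = inStk B w' := by
  funext k
  by_cases h : k = B.tm.k₀
  · subst h; rw [Function.update_self, inStk_self]
  · rw [Function.update_of_ne h, inStk_ne _ h, inStk_ne _ h]
theorem outStk_update (w w' : List (B.tm.Γ B.tm.k₁)) :
    Function.update (outStk B w) B.tm.k₁ w' = outStk B w' := by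
  funext k
  by_cases h : k = B.tm.k₁
  · subst h; rw [Function.update_self, outStk_self]
  · rw [Function.update_of_ne h, outStk_ne _ h, outStk_ne _ h]
theorem inStk_nil : inStk B [] = fun _ => [] := by
  funext k
  by_cases h : k = B.tm.k₀
  · subst h; rw [inStk_self]
  · rw [inStk_ne _ h]
theorem outStk_nil : outStk B [] = fun _ => [] := by
  funext k
  by_cases h : k = B.tm.k₁
  · subst h; rw [outStk_self]
  · rw [outStk_ne _ h]

theorem sum_inStk (w : List (B.tm.Γ B.tm.k₀)) : ∑ k, (inStk B w k).length = w.length := by
  rw [Finset.sum_eq_single B.tm.k₀ (fun k _ hk => by rw [inStk_ne _ hk]; rfl)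
    (fun h => absurd (Finset.mem_univ _) h), inStk_self]
theorem sum_outStk (w : List (B.tm.Γ B.tm.k₁)) : ∑ k, (outStk B w k).length = w.length := by
  rw [Finset.sum_eq_single B.tm.k₁ (fun k _ hk => by rw [outStk_ne _ hk]; rfl)
    (fun h => absurd (Finset.mem_univ _) h), outStk_self]

theorem Box.Runs.left_le {x y : List Bool} {t S : ℕ} (h : B.Runs x y t S) : x.length ≤ S := by
  have := h.le_left
  change ∑ k, (inStk B (x.map B.ea.symm) k).length ≤ S at this
  rwa [sum_inStk, List.length_map] at this

theorem Box.Runs.right_le {x y : List Bool} {t S : ℕ} (h : B.Runs x y t S) : y.length ≤ S := by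
  have := h.le_right
  change ∑ k, (outStk B (y.map B.eb.symm) k).length ≤ S at this
  rwa [sum_outStk, List.length_map] at this

theorem length_rmark (l A : List Bool) : (rmark l A).length = 2 * l.length + A.length := by
  induction l generalizing A with
  | nil => simp [rmark]
  | cons x l ih => simp [rmark, ih]; omega

variable {Λ : Type} (M : Λ → XStmt B Λ)

theorem step_some {l : Λ} {v : XS B} {T : ∀ k, List (XΓ B k)} :
    TM2.step M ⟨some l, v, T⟩ = some (TM2.stepAux (M l) v T) := rfl

theorem inp_path {inp main : Λ} (hM : M inp = inpStmt B inp main) (m a b c : List Bool)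
    (x : List Bool) : ∀ (v : XS B) (w : List (B.tm.Γ B.tm.k₀)) (S : ℕ),
    m.length + a.length + b.length + c.length + 2 * x.length + 1 + w.length ≤ S →
    Path (TM2.step M) xcells
      ⟨some inp, v, join (mk m a (rmark x (false :: b)) c) (inStk B w)⟩
      ⟨some main, (some false, B.tm.initialState),
        join (mk m a b c) (inStk B (x.map B.ea.symm ++ w))⟩ (x.length + 1) S := by
  induction x using List.reverseRecOn with
  | nil =>
    intro v w S hS
    refine Path.one ?_ ?_ ?_
    · rw [step_some, hM, inpStmt, TM2.stepAux]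
      simp only [join_inl, mk_b, rmark]
      rw [join_update_inl, update_b]
      rfl
    · rw [xcells_join, sum_inStk, total_mk, length_rmark]
      simp only [List.length_nil, List.length_cons] at hS ⊢
      omega
    · rw [xcells_join, sum_inStk, total_mk]
      simp only [List.length_nil, List.map_nil, List.nil_append] at hS ⊢
      omega
  | append_singleton x z ih =>
    intro v w S hS
    rw [List.length_append, List.length_singleton] at hS ⊢
    have h1 : Path (TM2.step M) xcells
      ⟨some inp, v, join (mk m a (rmark (x ++ [z]) (false :: b)) c) (inStk B w)⟩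
      ⟨some inp, (some z, v.2), join (mk m a (rmark x (false :: b)) c)
        (inStk B (B.ea.symm z :: w))⟩ 1 S := by
      refine Path.one ?_ ?_ ?_
      · rw [step_some, hM, inpStmt, rmark_append, TM2.stepAux]
        simp only [join_inl, mk_b, rmark]
        rw [join_update_inl, update_b]
        simp only [TM2.stepAux, join_inl, mk_b]
        rw [join_update_inl, update_b, join_inr, join_update_inr, inStk_self, inStk_update]
        rfl
      · rw [xcells_join, sum_inStk, total_mk, length_rmark]
        simp only [List.length_append, List.length_cons, List.length_nil]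
        omega
      · rw [xcells_join, sum_inStk, total_mk, length_rmark]
        simp only [List.length_cons]
        omega
    have h2 := ih (some z, v.2) (B.ea.symm z :: w) S (by rw [List.length_cons]; omega)
    have h3 := h1.trans h2
    rw [List.map_append, List.append_assoc]
    rw [Nat.add_comm 1] at h3
    exact h3

theorem box_path {emb : B.tm.Λ → Λ} {ex : Λ} (hM : ∀ l, M (emb l) = trStmt emb ex (B.tm.m l))
    (o : Option Bool) (s : St) (ρ S : ℕ) (hS : total s + ρ ≤ S) : ∀ (t : ℕ) (c c' : B.tm.Cfg),
    Path B.tm.step (cells B.tm) c c' t ρ →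
    Path (TM2.step M) xcells (trCfg emb ex o s c) (trCfg emb ex o s c') t S := by
  have hw : ∀ c : B.tm.Cfg, cells B.tm c ≤ ρ → xcells (trCfg emb ex o s c) ≤ S := by
    intro c hc
    rw [trCfg, xcells_join]
    exact le_trans (Nat.add_le_add_left hc _) hS
  intro t
  induction t with
  | zero =>
    intro c c' h
    have : c = c' := by simpa using h.1
    subst this
    exact Path.refl (hw c h.le_left)
  | succ t ih =>
    intro c c' h
    obtain ⟨z, hz, hz'⟩ := h.head
    have h1 : Path (TM2.step M) xcells (trCfg emb ex o s c) (trCfg emb ex o s z) 1 S := by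
      refine Path.one ?_ (hw c h.le_left) (hw z hz'.le_left)
      obtain ⟨l, u, T⟩ := c
      cases l with
      | none => exact absurd hz (by simp [FinTM2.step, TM2.step])
      | some l =>
        have e : TM2.stepAux (B.tm.m l) u T = z := Option.some.inj hz
        rw [trCfg, step_some]
        simp only [Option.elim_some]
        rw [hM, stepAux_tr, e]
    rw [Nat.add_comm]
    exact h1.trans (ih z c' hz')

theorem out_path {out ex : Λ} (hM : M out = outStmt B out ex) (m a c : List Bool) (u : B.tm.σ)
    (y : List Bool) : ∀ (o : Option Bool) (A : List Bool) (S : ℕ),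
    m.length + a.length + A.length + c.length + 2 * y.length ≤ S →
    Path (TM2.step M) xcells
      ⟨some out, (o, u), join (mk m a A c) (outStk B (y.map B.eb.symm))⟩
      ⟨some ex, (none, u), join (mk m a (rmark y A) c) fun _ => []⟩ (y.length + 1) S := by
  induction y with
  | nil =>
    intro o A S hS
    refine Path.one ?_ ?_ ?_
    · rw [step_some, hM, outStmt, TM2.stepAux]
      simp only [join_inr, List.map_nil]
      rw [outStk_self, join_update_inr, outStk_update]
      simp [outStk_nil, rmark]
    · rw [xcells_join, sum_outStk, total_mk, List.length_map]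
      simp only [List.length_nil] at hS ⊢
      omega
    · rw [xcells_empty, total_mk, length_rmark]
      simp only [List.length_nil] at hS ⊢
      omega
  | cons z y ih =>
    intro o A S hS
    rw [List.length_cons] at hS
    have h1 : Path (TM2.step M) xcells
      ⟨some out, (o, u), join (mk m a A c) (outStk B ((z :: y).map B.eb.symm))⟩
      ⟨some out, (some z, u), join (mk m a (true :: z :: A) c)
        (outStk B (y.map B.eb.symm))⟩ 1 S := by
      refine Path.one ?_ ?_ ?_
      · rw [step_some, hM, outStmt, TM2.stepAux]
        simp only [join_inr, List.map_cons]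
        rw [outStk_self, join_update_inr, outStk_update]
        simp only [TM2.stepAux]
        rw [join_update_inl, join_update_inl]
        simp only [join_inl, mk_b, update_b]
        change some (⟨some out, (some (B.eb (B.eb.symm z)), u),
          join (mk m a (true :: (B.eb (B.eb.symm z)) :: A) c)
            (outStk B (y.map B.eb.symm))⟩ : TM2.Cfg (XΓ B) Λ (XS B)) = _
        rw [B.eb.apply_symm_apply]
      · rw [xcells_join, sum_outStk, total_mk, List.length_map, List.length_cons]
        omega
      · rw [xcells_join, sum_outStk, total_mk, List.length_map]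
        simp only [List.length_cons]
        omega
    have h2 := ih (some z) (true :: z :: A) S (by simp only [List.length_cons]; omega)
    have h3 := h1.trans h2
    rw [Nat.add_comm 1] at h3
    exact h3

omit M in
theorem call_path (M : Λ → XStmt B Λ) {emb : XLab B XP.call → Λ} {ex : Λ}
    (hM : ∀ l, M (emb l) = xcode B XP.call emb ex l) (v : XS B) {m a b c x y : List Bool}
    {t ρ S : ℕ} (h : B.Runs x y t ρ)
    (hS : m.length + a.length + b.length + c.length + 2 * ρ + 2 ≤ S) :
    Path (TM2.step M) xcells
      ⟨some (emb (Sum.inl 0)), v, join (mk m a (rmark x (false :: b)) c) fun _ => []⟩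
      ⟨some ex, (none, B.tm.initialState), join (mk m a (rmark y (false :: b)) c) fun _ => []⟩
      (x.length + t + y.length + 3) S := by
  have hx := h.left_le
  have hy := h.right_le
  have h1 := inp_path M (hM (Sum.inl 0)) m a b c x v [] S (by
    simp only [List.length_nil]; omega)
  rw [inStk_nil, List.append_nil] at h1
  have h2 := box_path M (emb := fun l => emb (Sum.inr l)) (ex := emb (Sum.inl 1))
    (fun l => hM (Sum.inr l)) (some false) (mk m a b c) ρ S (by rw [total_mk]; omega) t _ _ h
  have h3 : Path (TM2.step M) xcells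
      ⟨some (emb (Sum.inl 1)), (some false, B.tm.initialState),
        join (mk m a b c) (outStk B (y.map B.eb.symm))⟩
      ⟨some (emb (Sum.inl 2)), (some false, B.tm.initialState),
        join (mk m a (false :: b) c) (outStk B (y.map B.eb.symm))⟩ 1 S := by
    refine Path.one ?_ ?_ ?_
    · rw [step_some, hM (Sum.inl 1)]
      change some (TM2.stepAux (TM2.Stmt.push (Sum.inl Reg.b) (fun _ => false)
        (TM2.Stmt.goto fun _ => emb (Sum.inl 2)) : XStmt B Λ) _ _) = _
      simp only [TM2.stepAux]
      rw [join_update_inl]
      simp only [join_inl, mk_b, update_b]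
      rfl
    · rw [xcells_join, sum_outStk, total_mk, List.length_map]
      omega
    · rw [xcells_join, sum_outStk, total_mk, List.length_map]
      simp only [List.length_cons]
      omega
  have h4 := out_path M (hM (Sum.inl 2)) m a c B.tm.initialState y (some false) (false :: b) S
    (by simp only [List.length_cons]; omega)
  have h5 := ((h1.trans h2).trans h3).trans h4
  have e : x.length + 1 + t + 1 + (y.length + 1) = x.length + t + y.length + 3 := by omega
  rw [e] at h5
  exact h5

omit M in
/-- Simulation of a run by the compiled code. -/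
theorem xsimulate {P : XP} {s s' : St} {t S : ℕ} (h : XRun B P s s' t S) :
    ∀ {Λ : Type} (M : Λ → XStmt B Λ) (emb : XLab B P → Λ) (ex : Λ)
      (_ : ∀ l, M (emb l) = xcode B P emb ex l) (v : XS B),
      ∃ v' : XS B, Path (TM2.step M) xcells ⟨some (emb (xentry B P)), v, join s fun _ => []⟩
        ⟨some ex, v', join s' fun _ => []⟩ t S := by
  induction h with
  | skip s hS =>
    intro Λ M emb ex hM v
    refine ⟨v, Path.one ?_ (by rw [xcells_empty]; exact hS) (by rw [xcells_empty]; exact hS)⟩
    rw [step_some, hM (xentry B XP.skip)]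
    rfl
  | push r b s hS =>
    intro Λ M emb ex hM v
    refine ⟨v, Path.one ?_ (by rw [xcells_empty]; omega)
      (by rw [xcells_empty, total_update_cons]; exact hS)⟩
    rw [step_some, hM (xentry B (XP.push r b))]
    change some (TM2.stepAux (TM2.Stmt.push (Sum.inl r) (fun _ => b)
      (TM2.Stmt.goto fun _ => ex) : XStmt B Λ) _ _) = _
    simp only [TM2.stepAux]
    rw [join_update_inl]
    rfl
  | @seq P Q s s' s'' t t' S _ _ ih₁ ih₂ =>
    intro Λ M emb ex hM v
    obtain ⟨v₁, h₁⟩ := ih₁ M (fun l => emb (Sum.inl l)) (emb (Sum.inr (xentry B Q)))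
      (fun l => hM (Sum.inl l)) v
    obtain ⟨v₂, h₂⟩ := ih₂ M (fun l => emb (Sum.inr l)) ex (fun l => hM (Sum.inr l)) v₁
    exact ⟨v₂, h₁.trans h₂⟩
  | @pop_true r P Q R s s' l t S h hS _ ih =>
    intro Λ M emb ex hM v
    obtain ⟨v₁, h₁⟩ := ih M (fun l => emb (some (Sum.inl l))) ex
      (fun l => hM (some (Sum.inl l))) (some true, v.2)
    refine ⟨v₁, ?_⟩
    rw [Nat.add_comm]
    refine (Path.one ?_ (by rw [xcells_empty]; exact hS)
      (by rw [xcells_empty]; exact (total_update_tail _ _ _ _ h).trans hS)).trans h₁
    rw [step_some, hM (xentry B (XP.pop r P Q R))]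
    change some (TM2.stepAux (TM2.Stmt.pop (Sum.inl r) (fun v o => ((o : Option Bool), v.2))
      (TM2.Stmt.goto fun v => jump3 _ _ _ v.1) : XStmt B Λ) _ _) = _
    simp only [TM2.stepAux]
    rw [join_update_inl, join_inl, h]
    rfl
  | @pop_false r P Q R s s' l t S h hS _ ih =>
    intro Λ M emb ex hM v
    obtain ⟨v₁, h₁⟩ := ih M (fun l => emb (some (Sum.inr (Sum.inl l)))) ex
      (fun l => hM (some (Sum.inr (Sum.inl l)))) (some false, v.2)
    refine ⟨v₁, ?_⟩
    rw [Nat.add_comm]
    refine (Path.one ?_ (by rw [xcells_empty]; exact hS)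
      (by rw [xcells_empty]; exact (total_update_tail _ _ _ _ h).trans hS)).trans h₁
    rw [step_some, hM (xentry B (XP.pop r P Q R))]
    change some (TM2.stepAux (TM2.Stmt.pop (Sum.inl r) (fun v o => ((o : Option Bool), v.2))
      (TM2.Stmt.goto fun v => jump3 _ _ _ v.1) : XStmt B Λ) _ _) = _
    simp only [TM2.stepAux]
    rw [join_update_inl, join_inl, h]
    rfl
  | @pop_nil r P Q R s s' t S h hS _ ih =>
    intro Λ M emb ex hM v
    obtain ⟨v₁, h₁⟩ := ih M (fun l => emb (some (Sum.inr (Sum.inr l)))) ex
      (fun l => hM (some (Sum.inr (Sum.inr l)))) (none, v.2)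
    refine ⟨v₁, ?_⟩
    rw [Nat.add_comm]
    refine (Path.one ?_ (by rw [xcells_empty]; exact hS)
      (by rw [xcells_empty]; exact hS)).trans h₁
    rw [step_some, hM (xentry B (XP.pop r P Q R))]
    change some (TM2.stepAux (TM2.Stmt.pop (Sum.inl r) (fun v o => ((o : Option Bool), v.2))
      (TM2.Stmt.goto fun v => jump3 _ _ _ v.1) : XStmt B Λ) _ _) = _
    simp only [TM2.stepAux]
    have hs : Function.update s r ([] : List Bool).tail = s := by
      rw [List.tail_nil, ← h]; exact Function.update_eq_self r s
    rw [join_update_inl, join_inl, h]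
    erw [hs]
    rfl
  | @loop_true r P s s' s'' l t t' S h hS _ _ ih₁ ih₂ =>
    intro Λ M emb ex hM v
    obtain ⟨v₁, h₁⟩ := ih₁ M (fun l => emb (some l)) (emb none)
      (fun l => hM (some l)) (some true, v.2)
    obtain ⟨v₂, h₂⟩ := ih₂ M emb ex hM v₁
    refine ⟨v₂, ?_⟩
    rw [Nat.add_comm]
    refine (Path.one ?_ (by rw [xcells_empty]; exact hS)
      (by rw [xcells_empty]; exact (total_update_tail _ _ _ _ h).trans hS)).trans (h₁.trans h₂)
    rw [step_some, hM (xentry B (XP.loop r P))]
    change some (TM2.stepAux (TM2.Stmt.pop (Sum.inl r) (fun v o => ((o : Option Bool), v.2))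
      (TM2.Stmt.goto fun v => jump3 _ _ _ v.1) : XStmt B Λ) _ _) = _
    simp only [TM2.stepAux]
    rw [join_update_inl, join_inl, h]
    rfl
  | @loop_false r P s l S h hS =>
    intro Λ M emb ex hM v
    refine ⟨(some false, v.2), Path.one ?_ (by rw [xcells_empty]; exact hS)
      (by rw [xcells_empty]; exact (total_update_tail _ _ _ _ h).trans hS)⟩
    rw [step_some, hM (xentry B (XP.loop r P))]
    change some (TM2.stepAux (TM2.Stmt.pop (Sum.inl r) (fun v o => ((o : Option Bool), v.2))
      (TM2.Stmt.goto fun v => jump3 _ _ _ v.1) : XStmt B Λ) _ _) = _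
    simp only [TM2.stepAux]
    rw [join_update_inl, join_inl, h]
    rfl
  | @loop_nil r P s S h hS =>
    intro Λ M emb ex hM v
    refine ⟨(none, v.2), Path.one ?_ (by rw [xcells_empty]; exact hS)
      (by rw [xcells_empty]; exact hS)⟩
    rw [step_some, hM (xentry B (XP.loop r P))]
    change some (TM2.stepAux (TM2.Stmt.pop (Sum.inl r) (fun v o => ((o : Option Bool), v.2))
      (TM2.Stmt.goto fun v => jump3 _ _ _ v.1) : XStmt B Λ) _ _) = _
    simp only [TM2.stepAux]
    have hs : Function.update s r ([] : List Bool).tail = s := by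
      rw [List.tail_nil, ← h]; exact Function.update_eq_self r s
    rw [join_update_inl, join_inl, h]
    erw [hs]
    rfl
  | @call m a b c x y t ρ S h hS =>
    intro Λ M emb ex hM v
    exact ⟨_, call_path M hM v h hS⟩

end sim

/-! ### The compiled machine -/

section machine
variable (B : Box)

/-- The machine running the program `P`; input and output are on the stack `m`. -/
noncomputable def toXTM (P : XP) : FinTM2 where
  K := XK B
  k₀ := Sum.inl Reg.m
  k₁ := Sum.inl Reg.m
  Γ := XΓ B
  Λ := Option (XLab B P)
  main := some (xentry B P)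
  σ := XS B
  initialState := (none, B.tm.initialState)
  Γk₀Fin := (inferInstance : Fintype Bool)
  m := fun l => match l with
    | none => TM2.Stmt.load (fun _ => (none, B.tm.initialState)) TM2.Stmt.halt
    | some l => xcode B P some none l

/-- The black box of the compiled program. -/
noncomputable def toBox (P : XP) : Box where
  tm := toXTM B P
  ea := Equiv.refl Bool
  eb := Equiv.refl Bool

theorem toXTM_initList (P : XP) (x : List Bool) :
    initList (toXTM B P) x =
      ⟨some (some (xentry B P)), (none, B.tm.initialState), join (mk x [] [] []) fun _ => []⟩ := by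
  unfold initList
  congr 1
  funext k
  rcases k with k | k
  · cases k <;> rfl
  · rfl

theorem toXTM_haltList (P : XP) (x : List Bool) :
    haltList (toXTM B P) x =
      ⟨none, (none, B.tm.initialState), join (mk x [] [] []) fun _ => []⟩ := by
  unfold haltList
  congr 1
  funext k
  rcases k with k | k
  · cases k <;> rfl
  · rfl

/-- A run of the program on stack `m` gives a run of the machine. -/
theorem toBox_runs {P : XP} {x y : List Bool} {t S : ℕ}
    (h : XRun B P (mk x [] [] []) (mk y [] [] []) t S) :
    (toBox B P).Runs x y (t + 1) S := by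
  obtain ⟨v', h'⟩ := xsimulate h (Λ := Option (XLab B P)) (toXTM B P).m some none
    (fun l => rfl) (none, B.tm.initialState)
  have h2 : Path (TM2.step (toXTM B P).m) xcells
      ⟨some none, v', join (mk y [] [] []) fun _ => []⟩
      ⟨none, (none, B.tm.initialState), join (mk y [] [] []) fun _ => []⟩ 1 S := by
    refine Path.one rfl h'.le_right ?_
    have := h'.le_right
    rw [xcells_empty] at this
    exact (le_of_eq (xcells_empty _ _ _)).trans this
  have h3 := h'.trans h2
  unfold Box.Runs
  have e1 : (toBox B P).tm = toXTM B P := rfl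
  have e2 : List.map (toBox B P).ea.symm x = x := List.map_id _
  have e3 : List.map (toBox B P).eb.symm y = y := List.map_id _
  have e4 := toXTM_initList B P x
  have e5 := toXTM_haltList B P y
  rw [e2, e3]
  change Path (toXTM B P).step (cells (toXTM B P)) (initList (toXTM B P) x)
    (haltList (toXTM B P) y) (t + 1) S
  rw [e4, e5]
  exact h3

end machine

end Pool.Agent.PolyTime
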