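import Pool.Agent.Lib.PolyTime.Oracle

/-!
# Functions computed with calls of a black box: closure properties

`XC B sp f T`: a program with calls of the black box `B` computes `f` on the codes of the inputs
`x`, in time at most `q (size x) * (T x + 1)` for a polynomially bounded `q`; if `sp` holds, the
space is also bounded by `q (size x)`.
-/

namespace Pool.Agent.PolyTime

open SP

/-- Programs without calls as programs with calls. -/
def xemb : SP → XP
  | SP.skip => XP.skip
  | SP.push r b => XP.push r b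
  | SP.seq P Q => XP.seq (xemb P) (xemb Q)
  | SP.pop r P Q R => XP.pop r (xemb P) (xemb Q) (xemb R)
  | SP.loop r P => XP.loop r (xemb P)

variable {B : Box}

theorem Run.xemb {P : SP} {s s' : St} {t : ℕ} (h : Run P s s' t) :
    ∀ {S : ℕ}, total s + t ≤ S → XRun B (xemb P) s s' t S := by
  induction h with
  | skip s => intro S hS; exact .skip s (by omega)
  | push r b s => intro S hS; exact .push r b s hS
  | seq h₁ _ ih₁ ih₂ =>
    intro S hS
    have := h₁.total_le
    exact .seq (ih₁ (by omega)) (ih₂ (by omega))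
  | pop_true h _ ih =>
    intro S hS
    have := total_update_tail _ _ _ _ h
    exact .pop_true h (by omega) (ih (by omega))
  | pop_false h _ ih =>
    intro S hS
    have := total_update_tail _ _ _ _ h
    exact .pop_false h (by omega) (ih (by omega))
  | pop_nil h _ ih =>
    intro S hS
    exact .pop_nil h (by omega) (ih (by omega))
  | loop_true h h₁ _ ih₁ ih₂ =>
    intro S hS
    have := total_update_tail _ _ _ _ h
    have := h₁.total_le
    exact .loop_true h (by omega) (ih₁ (by omega)) (ih₂ (by omega))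
  | loop_false h => intro S hS; exact .loop_false h (by omega)
  | loop_nil h => intro S hS; exact .loop_nil h (by omega)

/-- The program runs from `s` to `s'` in at most `n` steps, using at most `S` cells. -/
def XRuns (B : Box) (P : XP) (s s' : St) (n S : ℕ) : Prop := ∃ t ≤ n, XRun B P s s' t S

theorem XRuns.mono {P : XP} {s s' : St} {n n' S S' : ℕ} (h : XRuns B P s s' n S) (hn : n ≤ n')
    (hS : S ≤ S') : XRuns B P s s' n' S' := by
  obtain ⟨t, ht, h⟩ := h
  exact ⟨t, ht.trans hn, h.mono hS⟩

theorem XRuns.seq {P Q : XP} {s s' s'' : St} {n n' S : ℕ} (h : XRuns B P s s' n S)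
    (h' : XRuns B Q s' s'' n' S) : XRuns B (P.seq Q) s s'' (n + n') S := by
  obtain ⟨t, ht, h⟩ := h
  obtain ⟨t', ht', h'⟩ := h'
  exact ⟨t + t', by omega, XRun.seq h h'⟩

theorem Runs.xemb {P : SP} {s s' : St} {n S : ℕ} (h : Runs P s s' n) (hS : total s + n ≤ S) :
    XRuns B (xemb P) s s' n S := by
  obtain ⟨t, ht, h⟩ := h
  exact ⟨t, ht, h.xemb (by omega)⟩

theorem XRuns.loop_c_true {P : XP} {m a b c : List Bool} {s s' : St} {n n' S : ℕ}
    (hS : total (mk m a b (true :: c)) ≤ S) (h : XRuns B P (mk m a b c) s n S)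
    (h' : XRuns B (XP.loop Reg.c P) s s' n' S) :
    XRuns B (XP.loop Reg.c P) (mk m a b (true :: c)) s' (n + n' + 1) S := by
  obtain ⟨t, ht, h⟩ := h
  obtain ⟨t', ht', h'⟩ := h'
  exact ⟨t + t' + 1, by omega, XRun.loop_true (l := c) rfl hS (by rw [update_c]; exact h) h'⟩

theorem XRuns.loop_c_false {P : XP} {m a b c : List Bool} {S : ℕ}
    (hS : total (mk m a b (false :: c)) ≤ S) :
    XRuns B (XP.loop Reg.c P) (mk m a b (false :: c)) (mk m a b c) 1 S :=
  ⟨1, le_rfl, by
    have := XRun.loop_false (B := B) (P := P) (r := Reg.c) (s := mk m a b (false :: c)) (l := c)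
      rfl hS
    rwa [update_c] at this⟩

/-- The program replaces the code of `x` on top of the main stack by the code of `y`, in at most
`n` steps, with at most `S` cells in addition to the other contents of the stacks. -/
def XSpec (B : Box) (P : XP) (x y : D) (n S : ℕ) : Prop :=
  ∀ m a b c : List Bool, XRuns B P (mk (bits x ++ m) a b c) (mk (bits y ++ m) a b c) n
    (total (mk m a b c) + S)

theorem XSpec.mono {P : XP} {x y : D} {n n' S S' : ℕ} (h : XSpec B P x y n S) (hn : n ≤ n')
    (hS : S ≤ S') : XSpec B P x y n' S' :=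
  fun m a b c => (h m a b c).mono hn (by omega)

theorem XSpec.seq {P Q : XP} {x y z : D} {n n' S : ℕ} (h : XSpec B P x y n S)
    (h' : XSpec B Q y z n' S) : XSpec B (P.seq Q) x z (n + n') S :=
  fun m a b c => (h m a b c).seq (h' m a b c)

theorem total_bits (x : D) (m a b c : List Bool) :
    total (mk (bits x ++ m) a b c) = size x + total (mk m a b c) := by
  rw [total_mk, total_mk, List.length_append, size]; omega

theorem XSpec.ofRuns {P : SP} {x y : D} {n : ℕ}
    (h : ∀ m a b c : List Bool, Runs P (mk (bits x ++ m) a b c) (mk (bits y ++ m) a b c) n) :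
    XSpec B (xemb P) x y n (size x + n) :=
  fun m a b c => (h m a b c).xemb (by rw [total_bits]; omega)

section
variable {α β γ δ : Type} [Enc α] [Enc β] [Enc γ] [Enc δ] {sp : Prop}

/-- `f` is computed, with calls of the black box `B`, in time `poly * (T x + 1)`; if `sp` holds,
in polynomial space. -/
def XC (B : Box) (sp : Prop) (f : α → β) (T : α → ℕ) : Prop :=
  ∃ (P : XP) (q : ℕ → ℕ), PBd q ∧ Monotone q ∧ ∀ x : α, ∃ S : ℕ,
    (sp → S ≤ q (size (enc x))) ∧ size (enc (f x)) ≤ q (size (enc x)) ∧
      XSpec B P (enc x) (enc (f x)) (q (size (enc x)) * (T x + 1)) S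

theorem XC.mono {f : α → β} {T T' : α → ℕ} (h : XC B sp f T) (hT : ∀ x, T x ≤ T' x) :
    XC B sp f T' := by
  obtain ⟨P, q, hq, hqm, h⟩ := h
  refine ⟨P, q, hq, hqm, fun x => ?_⟩
  obtain ⟨S, h1, h2, h3⟩ := h x
  exact ⟨S, h1, h2, h3.mono (Nat.mul_le_mul_left _ (by have := hT x; omega)) le_rfl⟩

/-- Polynomial factors in the time do not matter. -/
theorem XC.absorb {f : α → β} {T T' : α → ℕ} (h : XC B sp f T) {r : ℕ → ℕ} (hr : PBd r)
    (hrm : Monotone r) (hT : ∀ x, T x ≤ r (size (enc x)) * (T' x + 1)) : XC B sp f T' := by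
  obtain ⟨P, q, hq, hqm, h⟩ := h
  refine ⟨P, fun n => q n * (r n + 1), hq.mul (hr.add (PBd.const 1)),
    fun a b hab => Nat.mul_le_mul (hqm hab) (Nat.add_le_add_right (hrm hab) 1), fun x => ?_⟩
  obtain ⟨S, h1, h2, h3⟩ := h x
  have hq1 : q (size (enc x)) ≤ q (size (enc x)) * (r (size (enc x)) + 1) :=
    Nat.le_mul_of_pos_right _ (Nat.succ_pos _)
  refine ⟨S, fun hs => (h1 hs).trans hq1, h2.trans hq1, h3.mono ?_ le_rfl⟩
  have := hT x
  calc q (size (enc x)) * (T x + 1)
      ≤ q (size (enc x)) * ((r (size (enc x)) + 1) * (T' x + 1)) := by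
        refine Nat.mul_le_mul_left _ ?_
        rw [Nat.add_mul, Nat.one_mul]; omega
    _ = q (size (enc x)) * (r (size (enc x)) + 1) * (T' x + 1) := by ring

theorem XC.of_eq {f g : α → β} {T : α → ℕ} (hf : XC B sp f T) (h : ∀ x, f x = g x) :
    XC B sp g T := (funext h : f = g) ▸ hf

theorem PTime.xc {f : α → β} (hf : PTime f) (T : α → ℕ) : XC B sp f T := by
  obtain ⟨P, q, hq, hqm, h, hs⟩ := hf.elim
  refine ⟨xemb P, fun n => n + q n, PBd.id.add hq,
    fun a b hab => Nat.add_le_add hab (hqm hab), fun x => ⟨size (enc x) + q (size (enc x)),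
      fun _ => le_rfl, (hs x).trans (Nat.le_add_left _ _), ?_⟩⟩
  refine (XSpec.ofRuns (h x)).mono ?_ le_rfl
  exact (Nat.le_add_left _ _).trans (Nat.le_mul_of_pos_right _ (Nat.succ_pos _))

theorem XC.comp {g : β → γ} {f : α → β} {T : α → ℕ} {U : β → ℕ} (hg : XC B sp g U)
    (hf : XC B sp f T) : XC B sp (fun x => g (f x)) (fun x => T x + U (f x)) := by
  obtain ⟨P, q, hq, hqm, h⟩ := hf
  obtain ⟨Q, r, hr, hrm, h'⟩ := hg
  refine ⟨P.seq Q, fun n => q n + r (q n), hq.add (hr.comp hq),
    fun a b hab => Nat.add_le_add (hqm hab) (hrm (hqm hab)), fun x => ?_⟩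
  obtain ⟨S, h1, h2, h3⟩ := h x
  obtain ⟨S', h1', h2', h3'⟩ := h' (f x)
  have hm := hrm h2
  refine ⟨max S S', fun hs => ?_, h2'.trans (hm.trans (Nat.le_add_left _ _)), ?_⟩
  · exact max_le ((h1 hs).trans (Nat.le_add_right _ _))
      ((h1' hs).trans (hm.trans (Nat.le_add_left _ _)))
  · refine ((h3.mono le_rfl (le_max_left _ _)).seq (h3'.mono le_rfl (le_max_right _ _))).mono
      ?_ le_rfl
    calc q (size (enc x)) * (T x + 1) + r (size (enc (f x))) * (U (f x) + 1)
        ≤ q (size (enc x)) * (T x + U (f x) + 1) + r (q (size (enc x))) * (T x + U (f x) + 1) :=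
          Nat.add_le_add (Nat.mul_le_mul_left _ (by omega)) (Nat.mul_le_mul hm (by omega))
      _ = _ := by ring

theorem XC.pair {f : α → β} {g : α → γ} {T U : α → ℕ} (hf : XC B sp f T) (hg : XC B sp g U) :
    XC B sp (fun x => (f x, g x)) (fun x => T x + U x) := by
  obtain ⟨P, q, hq, hqm, h⟩ := hf
  obtain ⟨Q, r, hr, hrm, h'⟩ := hg
  refine ⟨(xemb dup).seq (P.seq ((xemb swap).seq (Q.seq ((xemb swap).seq
    (xemb (push Reg.m true)))))), fun n => q n + r n + 60 * (n + q n + r n + 1), ?_, ?_, ?_⟩
  · exact (hq.add hr).add ((PBd.const 60).mul (((PBd.id.add hq).add hr).add (PBd.const 1)))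
  · intro a b hab
    have h1 := hqm hab
    have h2 := hrm hab
    simp only
    omega
  intro x
  obtain ⟨S, h1, h2, h3⟩ := h x
  obtain ⟨S', h1', h2', h3'⟩ := h' x
  set X := size (enc x) with hX
  have hsz : size (enc (f x, g x)) = size (enc (f x)) + size (enc (g x)) + 1 := by
    rw [enc_pair, size_cons]
  refine ⟨S + S' + 60 * (X + size (enc (f x)) + size (enc (g x)) + 1), fun hs => ?_, ?_, ?_⟩
  · have := h1 hs
    have := h1' hs
    simp only
    omega
  · rw [hsz]
    simp only
    omega
  · intro m a b c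
    set W := total (mk m a b c) + (S + S' + 60 * (X + size (enc (f x)) + size (enc (g x)) + 1))
      with hW
    have e1 : XRuns B (xemb dup) (mk (bits (enc x) ++ m) a b c)
        (mk (bits (enc x) ++ (bits (enc x) ++ m)) a b c) (18 * X + 9) W :=
      (dup_runs (enc x) m a b c).xemb (by rw [total_bits]; omega)
    have e2 := (h3 (bits (enc x) ++ m) a b c).mono le_rfl
      (S' := W) (by rw [total_bits]; omega)
    have e3 : XRuns B (xemb swap) (mk (bits (enc (f x)) ++ (bits (enc x) ++ m)) a b c)
        (mk (bits (enc x) ++ (bits (enc (f x)) ++ m)) a b c)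
        (9 * size (enc (f x)) + 9 * X + 10) W :=
      (swap_runs (enc (f x)) (enc x) m a b c).xemb (by rw [total_bits, total_bits]; omega)
    have e4 := (h3' (bits (enc (f x)) ++ m) a b c).mono le_rfl
      (S' := W) (by rw [total_bits]; omega)
    have e5 : XRuns B (xemb swap) (mk (bits (enc (g x)) ++ (bits (enc (f x)) ++ m)) a b c)
        (mk (bits (enc (f x)) ++ (bits (enc (g x)) ++ m)) a b c)
        (9 * size (enc (g x)) + 9 * size (enc (f x)) + 10) W :=
      (swap_runs (enc (g x)) (enc (f x)) m a b c).xemb (by rw [total_bits, total_bits]; omega)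
    have e6 : XRuns B (xemb (push Reg.m true))
        (mk (bits (enc (f x)) ++ (bits (enc (g x)) ++ m)) a b c)
        (mk (bits (enc (f x, g x)) ++ m) a b c) 1 W := by
      have := @Runs.push_m (bits (enc (f x)) ++ (bits (enc (g x)) ++ m)) a b c true
      refine Runs.xemb (n := 1) ?_ (by rw [total_bits, total_bits]; omega)
      simpa [bits, enc_pair] using this
    refine (e1.seq (e2.seq (e3.seq (e4.seq (e5.seq e6))))).mono ?_ le_rfl
    have hb : 60 * (X + q X + r X + 1) ≤ 60 * (X + q X + r X + 1) * (T x + U x + 1) :=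
      Nat.le_mul_of_pos_right _ (Nat.succ_pos _)
    calc 18 * X + 9 + (q X * (T x + 1) + (9 * size (enc (f x)) + 9 * X + 10 +
          (r X * (U x + 1) + (9 * size (enc (g x)) + 9 * size (enc (f x)) + 10 + 1))))
        ≤ q X * (T x + 1) + r X * (U x + 1) + 60 * (X + q X + r X + 1) := by omega
      _ ≤ q X * (T x + U x + 1) + r X * (T x + U x + 1) +
          60 * (X + q X + r X + 1) * (T x + U x + 1) :=
          Nat.add_le_add (Nat.add_le_add (Nat.mul_le_mul_left _ (by omega))
            (Nat.mul_le_mul_left _ (by omega))) hb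
      _ = _ := by ring

/-- Calling the black box. -/
theorem XC.call {f : α → β} {T : α → ℕ} {q : ℕ → ℕ} (hq : PBd q) (hqm : Monotone q)
    (h : ∀ x, ∃ t S, B.Runs (bits (enc x)) (bits (enc (f x))) t S ∧ t ≤ T x ∧
      (sp → S ≤ q (size (enc x))) ∧ size (enc (f x)) ≤ q (size (enc x))) :
    XC B sp f T := by
  refine ⟨(xemb takeB).seq (XP.call.seq (xemb giveB)), fun n => 20 * n + 20 * q n + 20, ?_, ?_,
    fun x => ?_⟩
  · exact (((PBd.const 20).mul PBd.id).add ((PBd.const 20).mul hq)).add (PBd.const 20)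
  · intro a b hab
    have := hqm hab
    simp only
    omega
  obtain ⟨t, S, hr, ht, hS, hsz⟩ := h x
  set X := size (enc x) with hX
  set Y := size (enc (f x)) with hY
  have hxS : X ≤ S := hr.left_le
  have hyS : Y ≤ S := hr.right_le
  refine ⟨7 * X + 7 * Y + 2 * S + 10, fun hs => ?_, ?_, fun m a b c => ?_⟩
  · have := hS hs
    simp only
    omega
  · simp only
    omega
  · have e1 : XRuns B (xemb takeB) (mk (bits (enc x) ++ m) a b c)
        (mk m a (rmark (bits (enc x)) (false :: b)) c) (6 * X + 4)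
        (total (mk m a b c) + (7 * X + 7 * Y + 2 * S + 10)) :=
      (takeB_runs (enc x) m a b c).xemb (by rw [total_bits]; omega)
    have e2 : XRuns B XP.call (mk m a (rmark (bits (enc x)) (false :: b)) c)
        (mk m a (rmark (bits (enc (f x))) (false :: b)) c) (X + t + Y + 3)
        (total (mk m a b c) + (7 * X + 7 * Y + 2 * S + 10)) :=
      ⟨_, le_rfl, XRun.call hr (by rw [total_mk]; omega)⟩
    have e3 : XRuns B (xemb giveB) (mk m a (rmark (bits (enc (f x))) (false :: b)) c)
        (mk (bits (enc (f x)) ++ m) a b c) (3 * Y + 1)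
        (total (mk m a b c) + (7 * X + 7 * Y + 2 * S + 10)) := by
      refine (giveB_runs (enc (f x)) m a b c).xemb ?_
      rw [total_mk, total_mk, length_rmark, List.length_cons]
      change m.length + a.length + (2 * Y + (b.length + 1)) + c.length + (3 * Y + 1) ≤ _
      omega
    refine (e1.seq (e2.seq e3)).mono ?_ le_rfl
    calc 6 * X + 4 + (X + t + Y + 3 + (3 * Y + 1)) ≤ (20 * X + 20 * q X + 20) + T x := by omega
      _ ≤ (20 * X + 20 * q X + 20) * (T x + 1) := by
        rw [Nat.mul_add, Nat.mul_one]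
        have : T x ≤ (20 * X + 20 * q X + 20) * T x := Nat.le_mul_of_pos_left _ (by omega)
        omega

end

/-! ### Loops -/

section loops
variable {α σ : Type} [Enc α] [Enc σ] {sp : Prop}

theorem xwhile_loop {C : SP} {P : XP} {cond : σ → Bool} {step : σ → σ} {Tc : ℕ → ℕ}
    (hTc : Monotone Tc)
    (hC : ∀ (x : σ) (m a b c : List Bool),
      Runs C (mk (bits (enc x) ++ m) a b c) (mk (bits (enc (cond x)) ++ m) a b c)
        (Tc (size (enc x)))) (W S : ℕ) (m a b c : List Bool)
    (hS : W + ((18 * W + 9) + (Tc W + 6)) + 2 ≤ S) :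
    ∀ (n : ℕ) (ts : ℕ → ℕ) (x : σ), (∀ i < n, cond (step^[i] x) = true) →
      cond (step^[n] x) = false → (∀ i ≤ n, size (enc (step^[i] x)) ≤ W) →
      (∀ i < n, XSpec B P (enc (step^[i] x)) (enc (step^[i + 1] x)) (ts i) S) →
      XRuns B (XP.loop Reg.c (P.seq (xemb (flagProg C))))
        (mk (bits (enc x) ++ m) a b (cond x :: c))
        (mk (bits (enc (step^[n] x)) ++ m) a b c)
        ((∑ i ∈ Finset.range n, (ts i + ((18 * W + 9) + (Tc W + 6)) + 1)) + 1)
        (total (mk m a b c) + S) := by
  intro n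
  induction n with
  | zero =>
    intro ts x _ h2 h3 _
    have : cond x = false := h2
    rw [this]
    have h0 := h3 0 le_rfl
    simp only [Function.iterate_zero, id_eq] at h0
    refine (XRuns.loop_c_false (S := total (mk m a b c) + S) ?_).mono (by simp) le_rfl
    rw [total_bits, total_mk, total_mk, List.length_cons]
    omega
  | succ n ih =>
    intro ts x h1 h2 h3 h4
    have hx : cond x = true := h1 0 (Nat.succ_pos n)
    have ih' := ih (fun i => ts (i + 1)) (step x) (fun i hi => h1 (i + 1) (by omega)) h2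
      (fun i hi => h3 (i + 1) (by omega)) (fun i hi => h4 (i + 1) (by omega))
    rw [hx]
    have hb0 : size (enc x) ≤ W := h3 0 (Nat.zero_le _)
    have hb1 : size (enc (step x)) ≤ W := h3 1 (by omega)
    have hSx := h4 0 (Nat.succ_pos n) m a b c
    simp only [Function.iterate_zero, id_eq, Nat.zero_add, Function.iterate_one] at hSx
    have hCx := (hC (step x) (bits (enc (step x)) ++ m) a b c).mono (hTc hb1)
    have hfl : XRuns B (xemb (flagProg C)) (mk (bits (enc (step x)) ++ m) a b c)
        (mk (bits (enc (step x)) ++ m) a b (cond (step x) :: c)) ((18 * W + 9) + (Tc W + 6))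
        (total (mk m a b c) + S) := by
      refine ((flagProg_runs hCx).mono ?_).xemb ?_
      · omega
      · rw [total_bits]; omega
    have := XRuns.loop_c_true (by
      rw [total_bits, total_mk, total_mk, List.length_cons]; omega) (hSx.seq hfl) ih'
    refine this.mono ?_ le_rfl
    rw [Finset.sum_range_succ' _ n]
    omega

/-- Iterating a step (with calls of the black box) while a polynomial-time condition holds. -/
theorem XC.while {init : α → σ} {cond : σ → Bool} {step : σ → σ} {T₀ : α → ℕ} {T : σ → ℕ}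
    (hi : XC B sp init T₀) (hc : PTime cond) (hs : XC B sp step T) (n : α → ℕ)
    (h1 : ∀ a, ∀ i < n a, cond (step^[i] (init a)) = true)
    (h2 : ∀ a, cond (step^[n a] (init a)) = false)
    {W : ℕ → ℕ} (hW : PBd W) (hWm : Monotone W)
    (hb : ∀ a, ∀ i ≤ n a, size (enc (step^[i] (init a))) ≤ W (size (enc a))) :
    XC B sp (fun a => step^[n a] (init a))
      (fun a => T₀ a + n a + ∑ i ∈ Finset.range (n a), T (step^[i] (init a))) := by
  obtain ⟨I, q₀, hq₀, hq₀m, hI⟩ := hi
  obtain ⟨C, Tc, hTc, hTcm, hC, _⟩ := hc.elim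
  obtain ⟨P, q, hq, hqm, hP⟩ := hs
  refine ⟨I.seq ((xemb (flagProg C)).seq (XP.loop Reg.c (P.seq (xemb (flagProg C))))),
    fun k => q₀ k + q (W k) + (W k + ((18 * W k + 9) + (Tc (W k) + 6)) + 2) +
      ((18 * W k + 9) + (Tc (W k) + 6) + 2), ?_, ?_, fun x => ?_⟩
  · have hf : PBd fun k => (18 * W k + 9) + (Tc (W k) + 6) :=
      (((PBd.const 18).mul hW).add (PBd.const 9)).add ((hTc.comp hW).add (PBd.const 6))
    exact ((hq₀.add (hq.comp hW)).add ((hW.add hf).add (PBd.const 2))).add
      (hf.add (PBd.const 2))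
  · intro u v huv
    have g1 := hWm huv
    have g2 := hTcm g1
    have g3 := hqm g1
    have g4 := hq₀m huv
    simp only
    omega
  obtain ⟨S₀, k1, k2, k3⟩ := hI x
  choose! S j1 j2 j3 using hP
  set X := size (enc x) with hX
  set N := n x with hN
  set s : ℕ → σ := fun i => step^[i] (init x) with hs
  set SS := (Finset.range N).sup (fun i => S (s i)) with hSS
  set K := (18 * W X + 9) + (Tc (W X) + 6) with hK
  have hsup : ∀ i < N, S (s i) ≤ SS := fun i hi =>
    Finset.le_sup (f := fun i => S (s i)) (Finset.mem_range.2 hi)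
  set Z := max S₀ SS + (W X + K + 2) with hZ
  refine ⟨Z, fun hsp => ?_, ?_, ?_⟩
  · have e1 := k1 hsp
    have e2 : SS ≤ q (W X) := Finset.sup_le fun i hi =>
      (j1 _ hsp).trans (hqm (hb x i (Finset.mem_range.1 hi).le))
    have : max S₀ SS ≤ q₀ X + q (W X) := max_le (by omega) (by omega)
    simp only
    omega
  · have : size (enc (step^[n x] (init x))) ≤ W X := hb x N le_rfl
    simp only
    omega
  intro m a b c
  have e1 := (k3 m a b c).mono le_rfl (S' := total (mk m a b c) + Z)
    (by have := le_max_left S₀ SS; omega)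
  have hb0 : size (enc (init x)) ≤ W X := hb x 0 (Nat.zero_le _)
  have e2 : XRuns B (xemb (flagProg C)) (mk (bits (enc (init x)) ++ m) a b c)
      (mk (bits (enc (init x)) ++ m) a b (cond (init x) :: c)) K (total (mk m a b c) + Z) := by
    refine ((flagProg_runs ((hC (init x) (bits (enc (init x)) ++ m) a b c).mono
      (hTcm hb0))).mono ?_).xemb ?_
    · omega
    · rw [total_bits]; omega
  have e3 := xwhile_loop (B := B) (P := P) (cond := cond) (step := step) hTcm hC (W X) Z m a b c
    (by omega) N (fun i => q (W X) * (T (s i) + 1)) (init x) (h1 x) (h2 x) (hb x)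
    (fun i hi => by
      have := j3 (s i)
      have e : step^[i + 1] (init x) = step (s i) := Function.iterate_succ_apply' step i _
      rw [e]
      refine this.mono (Nat.mul_le_mul_right _ (hqm (hb x i hi.le))) ?_
      have := hsup i hi
      have := le_max_right S₀ SS
      omega)
  refine (e1.seq (e2.seq e3)).mono ?_ le_rfl
  set G := ∑ i ∈ Finset.range N, T (s i) with hG
  have hsum : ∑ i ∈ Finset.range N, (q (W X) * (T (s i) + 1) + K + 1) =
      q (W X) * (G + N) + N * (K + 1) := by
    rw [Finset.sum_add_distrib, Finset.sum_add_distrib, ← Finset.mul_sum,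
      Finset.sum_add_distrib]
    simp only [Finset.sum_const, Finset.card_range, smul_eq_mul, mul_one]
    ring
  rw [hsum]
  calc q₀ X * (T₀ x + 1) + (K + (q (W X) * (G + N) + N * (K + 1) + 1))
      ≤ q₀ X * (T₀ x + N + G + 1) + q (W X) * (T₀ x + N + G + 1) +
        (K + 2) * (T₀ x + N + G + 1) := by
        have a1 : q₀ X * (T₀ x + 1) ≤ q₀ X * (T₀ x + N + G + 1) :=
          Nat.mul_le_mul_left _ (by omega)
        have a2 : q (W X) * (G + N) ≤ q (W X) * (T₀ x + N + G + 1) :=
          Nat.mul_le_mul_left _ (by omega)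
        have a3 : (K + 2) * (N + 1) ≤ (K + 2) * (T₀ x + N + G + 1) :=
          Nat.mul_le_mul_left _ (by omega)
        have a4 : (K + 2) * (N + 1) = N * (K + 1) + N + K + 2 := by ring
        omega
    _ ≤ (q₀ X + q (W X) + (W X + K + 2) + (K + 2)) * (T₀ x + N + G + 1) := by
        have : (W X + K + 2) * (T₀ x + N + G + 1) ≥ 0 := Nat.zero_le _
        nlinarith

end loops

/-! ### From programs to black boxes -/

theorem XC.box {α β : Type} [Enc α] [Enc β] {sp : Prop} {f : α → β} {T : α → ℕ}
    (h : XC B sp f T) : ∃ (B' : Box) (q : ℕ → ℕ), PBd q ∧ Monotone q ∧ ∀ x : α, ∃ t S,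
      B'.Runs (bits (enc x)) (bits (enc (f x))) t S ∧ t ≤ q (size (enc x)) * (T x + 1) ∧
        (sp → S ≤ q (size (enc x))) := by
  obtain ⟨P, q, hq, hqm, h⟩ := h
  refine ⟨toBox B P, fun n => q n + 1, hq.add (PBd.const 1),
    fun a b hab => Nat.add_le_add_right (hqm hab) 1, fun x => ?_⟩
  obtain ⟨S, h1, h2, h3⟩ := h x
  obtain ⟨t, ht, hr⟩ := h3 [] [] [] []
  simp only [List.append_nil] at hr
  refine ⟨t + 1, _, toBox_runs B hr, ?_, fun hs => ?_⟩
  · have : q (size (enc x)) * (T x + 1) + 1 ≤ (q (size (enc x)) + 1) * (T x + 1) := by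
      rw [Nat.add_mul, Nat.one_mul]; omega
    simp only
    omega
  · have := h1 hs
    simp only [total_mk, List.length_nil]
    omega

end Pool.Agent.PolyTime
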