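import Pool.Agent.Lib.PolyTime.OracleComp
import Pool.Agent.Lib.PolyTime.Arith

/-!
# Sums over long enumerations

Sums over the members of an enumeration that is generated by a polynomial-time successor function,
where the summands are computed with calls of a black box.  The enumeration may be exponentially
long; the space is polynomial.
-/

namespace Pool.Agent.PolyTime

/-- Each member of the list is mapped by `nx` to the next one, the last one to `e`. -/
def Chained {β : Type} (nx : β → Option β) : List β → Option β → Prop
  | [], _ => True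
  | x :: l, e => nx x = l.head?.or e ∧ Chained nx l e

theorem chained_append {β : Type} {nx : β → Option β} {l m : List β} {e : Option β}
    (hl : Chained nx l (m.head?.or e)) (hm : Chained nx m e) : Chained nx (l ++ m) e := by
  induction l with
  | nil => exact hm
  | cons x l ih =>
    obtain ⟨h1, h2⟩ := hl
    refine ⟨?_, ih h2⟩
    rw [h1]
    cases l with
    | nil => simp
    | cons y l => simp

theorem Chained.get {β : Type} {nx : β → Option β} {l : List β} (h : Chained nx l none) :
    ∀ (j : ℕ) (hj : j < l.length), nx l[j] = l[j + 1]? := by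
  induction l with
  | nil => intro j hj; simp at hj
  | cons x l ih =>
    obtain ⟨h1, h2⟩ := h
    intro j hj
    cases j with
    | zero =>
      simp only [List.getElem_cons_zero, Nat.zero_add, List.getElem?_cons_succ]
      rw [h1]
      cases l <;> simp
    | succ j =>
      have := ih h2 j (by simpa using hj)
      simpa using this

section
variable {α β : Type} [Enc α] [Enc β] {B : Box} {sp : Prop}

theorem size_pairNat {a b k : ℕ} (ha : a < 2 ^ k) (hb : b < 2 ^ k) :
    size (enc (a, b)) ≤ 8 * k + 3 := by
  rw [size_pair]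
  have := size_nat_le_of_lt ha
  have := size_nat_le_of_lt hb
  omega

theorem XC.chainSum {Lst : α → List β} {nx : α → β → Option β} (b0 : β)
    (hh : PTime (fun a => (Lst a).head?)) (hnx : PTime₂ nx)
    (hc : ∀ a, Chained (nx a) (Lst a) none)
    {W : ℕ → ℕ} (hW : PBd W) (hWm : Monotone W)
    (hsz : ∀ a, ∀ b ∈ Lst a, size (enc b) ≤ W (size (enc a)))
    (hlen : ∀ a, (Lst a).length ≤ 2 ^ W (size (enc a)))
    {F : α × β → ℕ × ℕ} {T : α × β → ℕ} (hF : XC B sp F T) :
    XC B sp (fun a => ((Lst a).map fun b => F (a, b)).sum)
      (fun a => (Lst a).length + ((Lst a).map fun b => T (a, b)).sum) := by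
  classical
  -- states: (a, (current member, accumulators))
  let arg : α × (Option β × (ℕ × ℕ)) → α × β := fun s => (s.1, s.2.1.getD b0)
  have harg : PTime arg := PTime.fst.pair (PTime.getD (PTime.fst' PTime.snd) (PTime.const b0))
  let upd : (α × (Option β × (ℕ × ℕ))) × (ℕ × ℕ) → α × (Option β × (ℕ × ℕ)) := fun p =>
    match p.1.2.1 with
    | none => p.1
    | some b => (p.1.1, (nx p.1.1 b, (p.1.2.2.1 + p.2.1, p.1.2.2.2 + p.2.2)))
  have hupd : PTime upd := by
    have e1 : PTime (fun p : ((α × (Option β × (ℕ × ℕ))) × (ℕ × ℕ)) × β =>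
        nx p.1.1.1 p.2) :=
      hnx.comp₂ (PTime.fst' (PTime.fst' PTime.fst)) PTime.snd
    have e2 : PTime (fun p : ((α × (Option β × (ℕ × ℕ))) × (ℕ × ℕ)) × β =>
        p.1.1.2.2.1 + p.1.2.1) :=
      (PTime.fst' (PTime.snd' (PTime.snd' (PTime.fst' PTime.fst)))).add
        (PTime.fst' (PTime.snd' PTime.fst))
    have e3 : PTime (fun p : ((α × (Option β × (ℕ × ℕ))) × (ℕ × ℕ)) × β =>
        p.1.1.2.2.2 + p.1.2.2) :=
      (PTime.snd' (PTime.snd' (PTime.snd' (PTime.fst' PTime.fst)))).add
        (PTime.snd' (PTime.snd' PTime.fst))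
    exact PTime.option_cases (PTime.fst' (PTime.snd' PTime.fst)) PTime.fst
      ((PTime.fst' (PTime.fst' PTime.fst)).pair (e1.pair (e2.pair e3)))
  let step : α × (Option β × (ℕ × ℕ)) → α × (Option β × (ℕ × ℕ)) := fun s =>
    upd (s, F (arg s))
  have hstep : XC B sp step (fun s => T (arg s)) := by
    have h1 : XC B sp (fun s => F (arg s)) (fun s => T (arg s)) :=
      (hF.comp (harg.xc fun _ => 0)).mono fun s => by omega
    have h2 : XC B sp (fun s : α × (Option β × (ℕ × ℕ)) => (s, F (arg s)))
        (fun s => T (arg s)) :=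
      ((PTime.id.xc (B := B) (sp := sp) (fun _ => 0)).pair h1).mono fun s => by omega
    exact ((hupd.xc fun _ => 0).comp h2).mono fun s => by omega
  let cond : α × (Option β × (ℕ × ℕ)) → Bool := fun s => s.2.1.isSome
  have hcond : PTime cond :=
    (PTime.option_cases (PTime.fst' PTime.snd) (PTime.const false)
      (h := fun _ => true) (PTime.const true)).of_eq fun s => by
        change _ = s.2.1.isSome
        cases s.2.1 <;> rfl
  let init : α → α × (Option β × (ℕ × ℕ)) := fun a => (a, ((Lst a).head?, (0, 0)))
  have hinit : PTime init := PTime.id.pair (hh.pair (PTime.const (0, 0)))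
  let acc : α → ℕ → ℕ × ℕ := fun a j => (((Lst a).take j).map fun b => F (a, b)).sum
  have hiter : ∀ a j, j ≤ (Lst a).length → step^[j] (init a) = (a, ((Lst a)[j]?, acc a j)) := by
    intro a j
    induction j with
    | zero =>
      intro _
      change (a, ((Lst a).head?, ((0, 0) : ℕ × ℕ))) = _
      rw [List.head?_eq_getElem?]
      rfl
    | succ j ih =>
      intro hj
      have hj' : j < (Lst a).length := hj
      rw [Function.iterate_succ_apply', ih (by omega)]
      have e1 : (Lst a)[j]? = some (Lst a)[j] := List.getElem?_eq_getElem hj'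
      rw [e1]
      change (a, (nx a (Lst a)[j], ((acc a j).1 + (F (a, (Lst a)[j])).1,
        (acc a j).2 + (F (a, (Lst a)[j])).2))) = _
      rw [(hc a).get j hj']
      have e2 : acc a (j + 1) = acc a j + F (a, (Lst a)[j]) := by
        change (((Lst a).take (j + 1)).map fun b => F (a, b)).sum = _
        rw [← List.take_concat_get' _ _ hj', List.map_append, List.sum_append]
        simp [acc]
      rw [e2]
      rfl
  obtain ⟨q, hq, hqm, hFs⟩ : ∃ q : ℕ → ℕ, PBd q ∧ Monotone q ∧
      ∀ p : α × β, size (enc (F p)) ≤ q (size (enc p)) := by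
    obtain ⟨_, q, h1, h2, h3⟩ := hF
    exact ⟨q, h1, h2, fun p => (h3 p).choose_spec.2.1⟩
  -- bounds of the accumulators
  let K : ℕ → ℕ := fun n => W n + q (n + W n + 1)
  have hKm : Monotone K := fun u v huv => Nat.add_le_add (hWm huv)
    (hqm (by have := hWm huv; omega))
  have hacc : ∀ a j, (acc a j).1 < 2 ^ (K (size (enc a)) + 1) ∧
      (acc a j).2 < 2 ^ (K (size (enc a)) + 1) := by
    intro a j
    have h1 : ∀ b ∈ Lst a, (F (a, b)).1 ≤ 2 ^ q (size (enc a) + W (size (enc a)) + 1) ∧
        (F (a, b)).2 ≤ 2 ^ q (size (enc a) + W (size (enc a)) + 1) := by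
      intro b hb
      have h2 := hFs (a, b)
      have h3 : size (enc (a, b)) ≤ size (enc a) + W (size (enc a)) + 1 := by
        rw [size_pair]; have := hsz a b hb; omega
      have h4 := h2.trans (hqm h3)
      have h5 : size (enc (F (a, b))) = size (enc (F (a, b)).1) + size (enc (F (a, b)).2) + 1 :=
        size_pair (F (a, b)).1 (F (a, b)).2
      exact ⟨(lt_two_pow_size _).le.trans (Nat.pow_le_pow_right (by norm_num) (by omega)),
        (lt_two_pow_size _).le.trans (Nat.pow_le_pow_right (by norm_num) (by omega))⟩
    have h2 : ∀ l : List β, (∀ b ∈ l, b ∈ Lst a) →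
        ((l.map fun b => F (a, b)).sum).1 ≤
          l.length * 2 ^ q (size (enc a) + W (size (enc a)) + 1) ∧
        ((l.map fun b => F (a, b)).sum).2 ≤
          l.length * 2 ^ q (size (enc a) + W (size (enc a)) + 1) := by
      intro l
      induction l with
      | nil => intro _; simp
      | cons b l ih =>
        intro hl
        obtain ⟨i1, i2⟩ := ih fun c hc => hl c (List.mem_cons_of_mem _ hc)
        obtain ⟨j1, j2⟩ := h1 b (hl b List.mem_cons_self)
        rw [List.map_cons, List.sum_cons, List.length_cons, Nat.add_one_mul]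
        constructor
        · rw [Prod.fst_add]; omega
        · rw [Prod.snd_add]; omega
    obtain ⟨h3, h4⟩ := h2 ((Lst a).take j) fun b hb => List.mem_of_mem_take hb
    have h5 : ((Lst a).take j).length ≤ 2 ^ W (size (enc a)) := by
      rw [List.length_take]
      exact (min_le_right _ _).trans (hlen a)
    have h6 : ((Lst a).take j).length * 2 ^ q (size (enc a) + W (size (enc a)) + 1) ≤
        2 ^ K (size (enc a)) := by
      change _ ≤ 2 ^ (W (size (enc a)) + q (size (enc a) + W (size (enc a)) + 1))
      rw [pow_add]
      exact Nat.mul_le_mul_right _ h5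
    have h7 : 2 ^ K (size (enc a)) < 2 ^ (K (size (enc a)) + 1) :=
      Nat.pow_lt_pow_right (by norm_num) (Nat.lt_succ_self _)
    exact ⟨(h3.trans h6).trans_lt h7, (h4.trans h6).trans_lt h7⟩
  have hKb : PBd K := hW.add (hq.comp ((PBd.id.add hW).add (PBd.const 1)))
  have hwhile := XC.while (B := B) (sp := sp) (init := init) (cond := cond) (step := step)
    (hinit.xc fun _ => 0) hcond hstep (fun a => (Lst a).length) ?_ ?_
    (W := fun n => n + ((W n + 2) + (8 * (K n + 1) + 3) + 1) + 1) ?_ ?_ ?_
  · have h1 : XC B sp (fun a => (step^[(Lst a).length] (init a)).2.2) _ :=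
      ((PTime.snd' PTime.snd).xc fun _ => 0).comp hwhile
    refine XC.of_eq (f := fun a => (step^[(Lst a).length] (init a)).2.2)
      (h1.mono (T' := fun a => (Lst a).length + ((Lst a).map fun b => T (a, b)).sum) ?_) ?_
    · intro a
      have : ∑ i ∈ Finset.range (Lst a).length, T (arg (step^[i] (init a))) =
          ((Lst a).map fun b => T (a, b)).sum := by
        rw [← Fin.sum_univ_fun_getElem (Lst a) (fun b => T (a, b)), Finset.sum_range]
        refine Finset.sum_congr rfl fun i _ => ?_
        rw [hiter a i i.2.le]
        change T (a, ((Lst a)[(i : ℕ)]?).getD b0) = _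
        rw [List.getElem?_eq_getElem i.2]
        rfl
      change 0 + (Lst a).length + (∑ i ∈ Finset.range (Lst a).length,
        T (arg (step^[i] (init a)))) + 0 ≤ _
      rw [this]
      omega
    · intro a
      rw [hiter a _ le_rfl]
      change acc a (Lst a).length = _
      simp only [acc, List.take_length]
  · intro a i hi
    rw [hiter a i hi.le]
    change ((Lst a)[i]?).isSome = true
    rw [List.getElem?_eq_getElem hi]
    rfl
  · intro a
    rw [hiter a _ le_rfl]
    change ((Lst a)[(Lst a).length]?).isSome = false
    simp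
  · exact (PBd.id.add (((hW.add (PBd.const 2)).add (((PBd.const 8).mul
      (hKb.add (PBd.const 1))).add (PBd.const 3))).add (PBd.const 1))).add (PBd.const 1)
  · intro u v huv
    have h1 := hWm huv
    have h2 := hKm huv
    simp only
    omega
  · intro a i hi
    rw [hiter a i hi, size_pair, size_pair]
    have h1 : size (enc ((Lst a)[i]?)) ≤ W (size (enc a)) + 2 := by
      cases h : (Lst a)[i]? with
      | none => simp [enc_none]
      | some b =>
        have hb : b ∈ Lst a := List.mem_of_getElem? h
        have := hsz a b hb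
        rw [enc_some, size_cons, size_nil]
        omega
    have h2 : size (enc (acc a i)) ≤ 8 * (K (size (enc a)) + 1) + 3 :=
      size_pairNat (hacc a i).1 (hacc a i).2
    omega

end

end Pool.Agent.PolyTime
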