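import Pool.Agent.Lib.PolyTime.Arith

/-!
# Determinism, and case distinctions with branches defined on subtypes
-/

namespace Pool.Agent.PolyTime

open SP

theorem Run.det {P : SP} {s s₁ s₂ : St} {t₁ t₂ : ℕ} (h₁ : Run P s s₁ t₁) (h₂ : Run P s s₂ t₂) :
    s₁ = s₂ := by
  induction h₁ generalizing s₂ t₂ with
  | skip s => cases h₂; rfl
  | push r b s => cases h₂; rfl
  | seq _ _ ih₁ ih₂ =>
    cases h₂ with
    | seq g₁ g₂ =>
      have := ih₁ g₁
      subst this
      exact ih₂ g₂
  | pop_true h _ ih =>
    cases h₂ with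
    | pop_true g g' =>
      rw [h] at g
      obtain rfl := (List.cons.inj g).2
      exact ih g'
    | pop_false g _ => rw [h] at g; cases g
    | pop_nil g _ => rw [h] at g; cases g
  | pop_false h _ ih =>
    cases h₂ with
    | pop_true g _ => rw [h] at g; cases g
    | pop_false g g' =>
      rw [h] at g
      obtain rfl := (List.cons.inj g).2
      exact ih g'
    | pop_nil g _ => rw [h] at g; cases g
  | pop_nil h _ ih =>
    cases h₂ with
    | pop_true g _ => rw [h] at g; cases g
    | pop_false g _ => rw [h] at g; cases g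
    | pop_nil g g' => exact ih g'
  | loop_true h _ _ ih₁ ih₂ =>
    cases h₂ with
    | loop_true g g₁ g₂ =>
      rw [h] at g
      obtain rfl := (List.cons.inj g).2
      have := ih₁ g₁
      subst this
      exact ih₂ g₂
    | loop_false g => rw [h] at g; cases g
    | loop_nil g => rw [h] at g; cases g
  | loop_false h =>
    cases h₂ with
    | loop_true g _ _ => rw [h] at g; cases g
    | loop_false g =>
      rw [h] at g
      obtain rfl := (List.cons.inj g).2
      rfl
    | loop_nil g => rw [h] at g; cases g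
  | loop_nil h =>
    cases h₂ with
    | loop_true g _ _ => rw [h] at g; cases g
    | loop_false g => rw [h] at g; cases g
    | loop_nil g => rfl

section
variable {α β γ δ : Type} [Enc α] [Enc β] [Enc γ] [Enc δ]

/-- A polynomial-time function respects equality of codes. -/
theorem PTime.enc_congr {f : α → β} (hf : PTime f) {x y : α} (h : enc x = enc y) :
    enc (f x) = enc (f y) := by
  obtain ⟨P, _, _, _, hP, _⟩ := hf.elim
  obtain ⟨t, _, h1⟩ := hP x [] [] [] []
  obtain ⟨t', _, h2⟩ := hP y [] [] [] []
  rw [h] at h1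
  have h3 := congrFun (Run.det h1 h2) Reg.m
  simp only [mk_m, List.append_nil] at h3
  exact bits_injective h3

/-- Core case lemma, with branches defined on other types with the same codes. -/
theorem PTime.case_core' {α₀ α₁ : Type} [Enc α₀] [Enc α₁] {f : α → β} {g : α₀ → γ}
    {h : α₁ × δ → γ} {r : α → γ} (hf : PTime f) (hg : PTime g) (hh : PTime h)
    (H : ∀ a, (∃ a₀ : α₀, enc a₀ = enc a ∧ enc (f a) = D.nil ∧ r a = g a₀) ∨
      ∃ (a₁ : α₁) (d : δ), enc a₁ = enc a ∧ (∃ u v, enc d = D.cons u v) ∧
        enc (f a) = enc d ∧ r a = h (a₁, d)) :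
    PTime r := by
  obtain ⟨F, S, hS, hSm, hF, hFs⟩ := hf.elim
  obtain ⟨G, T, hT, hTm, hG, hGs⟩ := hg.elim
  obtain ⟨K, U, hU, hUm, hK, hKs⟩ := hh.elim
  refine PTime.intro (caseProg F G K)
    (T := fun n => ((18 * n + 9) + (S n + (T n + 1))) +
      ((18 * n + 9) + (S n + ((1 + ((9 * S n + 9 * n + 10) +
        (1 + U (n + S n + 1)))) + 1)))) ?_ ?_
  · have h9 : PBd fun _ => 9 := PBd.const 9
    have h18 : PBd fun n => 18 * n + 9 := ((PBd.const 18).mul PBd.id).add h9
    exact (h18.add (hS.add (hT.add (PBd.const 1)))).add (h18.add (hS.add (((PBd.const 1).add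
      ((((h9.mul hS).add (h9.mul PBd.id)).add (PBd.const 10)).add ((PBd.const 1).add
        (hU.comp ((PBd.id.add hS).add (PBd.const 1)))))).add (PBd.const 1))))
  · intro x m a b c
    rcases H x with ⟨x₀, h0, h1, h2⟩ | ⟨x₁, d, h0, ⟨u, v, huv⟩, h1, h2⟩
    · have hFx := hF x (bits (enc x) ++ m) a b c
      rw [h1] at hFx
      rw [h2]
      have hGx := hG x₀ m a b c
      rw [h0] at hGx
      exact Runs.mono (caseProg_nil hFx hGx) (Nat.le_add_right _ _)
    · have hFx := hF x (bits (enc x) ++ m) a b c
      rw [h1, huv] at hFx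
      have hKx := hK (x₁, d) m a b c
      rw [enc_pair, huv, h0] at hKx
      rw [h2]
      have hs : size (D.cons u v) ≤ S (size (enc x)) := by rw [← huv, ← h1]; exact hFs x
      refine Runs.mono (caseProg_cons hFx hKx) ?_
      have : U (size (D.cons (enc x) (D.cons u v))) ≤ U (size (enc x) + S (size (enc x)) + 1) :=
        hUm (by rw [size_cons]; omega)
      omega

/-- Elements of a subtype are encoded as elements of the type. -/
instance instEncSubtype {P : α → Prop} : Enc {a : α // P a} := ⟨fun a => enc a.1⟩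

theorem enc_sub {P : α → Prop} (a : {a : α // P a}) : enc a = enc a.1 := rfl

theorem PTime.val {P : α → Prop} : PTime (fun a : {a : α // P a} => a.1) :=
  (PTime.id (α := α)).of_enc_eq (fun a : {a : α // P a} => a.1) (fun _ => rfl) (fun _ => rfl)

/-- Case distinction where the branches need only be defined in their case. -/
theorem PTime.dite {c : α → Bool} {g : {a : α // c a = true} → γ}
    {h : {a : α // c a = false} → γ} (hc : PTime c) (hg : PTime g) (hh : PTime h) :
    PTime (fun a => if hca : c a = true then g ⟨a, hca⟩ else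
      h ⟨a, by simpa using hca⟩) := by
  refine PTime.case_core' (α₀ := {a : α // c a = false}) (α₁ := {a : α // c a = true}) (δ := D)
    (h := fun p => g p.1) hc hh (hg.comp PTime.fst) ?_
  intro a
  by_cases hfa : c a = true
  · right
    refine ⟨⟨a, hfa⟩, D.cons D.nil D.nil, rfl, ⟨_, _, rfl⟩, ?_, ?_⟩
    · rw [hfa]; rfl
    · rw [dif_pos hfa]
  · left
    refine ⟨⟨a, by simpa using hfa⟩, rfl, ?_, ?_⟩
    · rw [Bool.not_eq_true] at hfa
      rw [hfa]; rfl
    · rw [dif_neg hfa]

/-- Case distinction where the first branch need only be defined in its case. -/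
theorem PTime.dite' {c : α → Bool} {g : {a : α // c a = true} → γ}
    {h : α → γ} (hc : PTime c) (hg : PTime g) (hh : PTime h) :
    PTime (fun a => if hca : c a = true then g ⟨a, hca⟩ else h a) :=
  PTime.dite (h := fun a : {a : α // c a = false} => h a.1) hc hg (hh.comp PTime.val)

end

end Pool.Agent.PolyTime
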